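import Mathlib

/-!
# [VPE-BIN] coding exponents and indices in binary

For a polynomial `ψ` in `z_1, ..., z_M` with all exponents `< 2 ^ b` let `bin ψ` be the polynomial in variables `z_(i,t)`, `i < M`, `t < b`, obtained by replacing
`z_i ^ e` by the product of the `z_(i,t)` over the bits `t` of `e` (`Nat.testBit`, `Nat.bitIndices`, or a digit expansion); it is linear in `ψ` (sum over the support), has total degree at most
`M * b`, and takes the value `eval c ψ` at `z_(i,t) = c_i ^ (2 ^ t)`.
For an injection `code : A → (Fin B → Bool)` put `sel a = ∏ i, (if code a i then β_i else 1 - β_i)`, of degree `≤ B`, with value `1` at `code a`, `0` at the other codes.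
`g = ∑ a, sel a * ∑ j, bin (Ψ a j) * monomial (e j)`.
-/

set_option autoImplicit false

open MvPolynomial

namespace Pool.Agent.VPE

variable {k : Type} [Field k]

/-- binary expansion of a power -/
private theorem bin_pow (b : ℕ) : ∀ (n : ℕ) (c : k), n < 2 ^ b →
    ∏ t : Fin b, (if n.testBit t then c ^ 2 ^ (t : ℕ) else 1) = c ^ n := by
  induction b with
  | zero =>
    intro n c hn
    have : n = 0 := by simpa using hn
    simp [this]
  | succ b ih =>
    intro n c hn
    rw [Fin.prod_univ_succ]
    have h1 : n / 2 < 2 ^ b := by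
      rw [pow_succ] at hn
      omega
    have h2 := ih (n / 2) (c ^ 2) h1
    have h3 : ∀ t : Fin b, (if n.testBit ((t.succ : Fin (b + 1)) : ℕ) then c ^ 2 ^ ((t.succ : Fin (b + 1)) : ℕ) else 1) =
        (if (n / 2).testBit t then (c ^ 2) ^ 2 ^ (t : ℕ) else 1) := by
      intro t
      rw [Fin.val_succ, Nat.testBit_succ]
      congr 1
      rw [← pow_mul, pow_succ' 2 (t : ℕ)]
    rw [Finset.prod_congr rfl (fun t _ => h3 t), h2]
    have h4 : n.testBit ((0 : Fin (b + 1)) : ℕ) = decide (n % 2 = 1) := by
      simp [Nat.testBit_zero]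
    rw [h4, ← pow_mul]
    rcases Nat.mod_two_eq_zero_or_one n with h5 | h5
    · simp only [h5]
      have : 2 * (n / 2) = n := by omega
      simp [this]
    · simp only [h5]
      have : n = 2 * (n / 2) + 1 := by omega
      conv_rhs => rw [this]
      simp [pow_succ, mul_comm]

/-- the coded monomial -/
private noncomputable def binMon {M b : ℕ} (s : Fin M →₀ ℕ) : MvPolynomial (Fin M × Fin b) k :=
  ∏ i : Fin M, ∏ t : Fin b, (if (s i).testBit t then X (i, t) else 1)

private theorem binMon_deg {M b : ℕ} (s : Fin M →₀ ℕ) :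
    (binMon s : MvPolynomial (Fin M × Fin b) k).totalDegree ≤ M * b := by
  unfold binMon
  refine (totalDegree_finset_prod _ _).trans ?_
  have h : ∀ i ∈ (Finset.univ : Finset (Fin M)),
      (∏ t : Fin b, (if (s i).testBit t then X (i, t) else 1 : MvPolynomial (Fin M × Fin b) k)).totalDegree ≤ b := by
    intro i _
    refine (totalDegree_finset_prod _ _).trans ?_
    refine (Finset.sum_le_card_nsmul _ _ 1 ?_).trans (by simp)
    intro t _
    split_ifs
    · rw [totalDegree_X]
    · simp
  refine (Finset.sum_le_card_nsmul _ _ b h).trans (by simp)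

private theorem binMon_eval {M b : ℕ} (s : Fin M →₀ ℕ) (hs : ∀ i, s i < 2 ^ b) (c : Fin M → k) :
    eval (fun it : Fin M × Fin b => c it.1 ^ 2 ^ (it.2 : ℕ)) (binMon s) = ∏ i, c i ^ s i := by
  unfold binMon
  rw [map_prod]
  refine Finset.prod_congr rfl fun i _ => ?_
  rw [map_prod, ← bin_pow b (s i) (c i) (hs i)]
  refine Finset.prod_congr rfl fun t _ => ?_
  split_ifs
  · rw [eval_X]
  · rw [map_one]

theorem bin_poly {M b : ℕ} (ψ : MvPolynomial (Fin M) k) (hψ : ψ.totalDegree < 2 ^ b) :
    ∃ g : MvPolynomial (Fin M × Fin b) k, g.totalDegree ≤ M * b ∧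
      ∀ c : Fin M → k, eval (fun it => c it.1 ^ 2 ^ (it.2 : ℕ)) g = eval c ψ := by
  refine ⟨∑ s ∈ ψ.support, C (ψ.coeff s) * binMon s, ?_, ?_⟩
  · refine totalDegree_finsetSum_le fun s _ => ?_
    refine (totalDegree_mul _ _).trans ?_
    rw [totalDegree_C, zero_add]
    exact binMon_deg s
  · intro c
    rw [map_sum, eval_eq' c ψ]
    refine Finset.sum_congr rfl fun s hs => ?_
    rw [map_mul, eval_C, binMon_eval]
    intro i
    refine lt_of_le_of_lt ?_ hψ
    refine le_trans ?_ (le_totalDegree hs)
    by_cases hi : i ∈ s.support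
    · exact Finset.single_le_sum (f := fun j => s j) (fun _ _ => Nat.zero_le _) hi
    · rw [Finsupp.notMem_support_iff.1 hi]
      exact Nat.zero_le _

/-- the selector -/
private noncomputable def binSel {B : ℕ} (u : Fin B → Bool) : MvPolynomial (Fin B) k :=
  ∏ i, (if u i then X i else 1 - X i)

private theorem binSel_deg {B : ℕ} (u : Fin B → Bool) : (binSel u : MvPolynomial (Fin B) k).totalDegree ≤ B := by
  unfold binSel
  refine (totalDegree_finset_prod _ _).trans ?_
  refine (Finset.sum_le_card_nsmul _ _ 1 ?_).trans (by simp)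
  intro i _
  split_ifs
  · rw [totalDegree_X]
  · refine (totalDegree_sub _ _).trans ?_
    rw [totalDegree_X, totalDegree_one]
    simp

private theorem binSel_eval {B : ℕ} (u v : Fin B → Bool) :
    eval (fun i => if v i then (1 : k) else 0) (binSel u) = if u = v then 1 else 0 := by
  unfold binSel
  rw [map_prod]
  split_ifs with h
  · subst h
    refine Finset.prod_eq_one fun i _ => ?_
    by_cases hi : u i = true
    · simp [hi]
    · simp [hi]
  · obtain ⟨i, hi⟩ := Function.ne_iff.1 h
    refine Finset.prod_eq_zero (Finset.mem_univ i) ?_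
    by_cases h1 : u i = true
    · have h2 : v i = false := by
        by_contra h3
        exact hi (by rw [h1]; simpa using (Bool.eq_true_of_not_eq_false h3).symm)
      simp [h1, h2]
    · have h1' : u i = false := by simpa using h1
      have h2 : v i = true := by
        by_contra h3
        exact hi (by rw [h1']; simpa using (Bool.eq_false_of_not_eq_true h3).symm)
      simp [h1', h2]

private theorem bin_aevalC {σ : Type} {m : ℕ} (x : σ → k) (p : MvPolynomial σ k) :
    aeval (fun i => (C (x i) : MvPolynomial (Fin m) k)) p = C (eval x p) := by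
  have := aeval_algebraMap_apply (R := k) (MvPolynomial (Fin m) k) x p
  rw [algebraMap_eq] at this
  rw [← aeval_eq_eval]
  exact this

theorem encode {A : Type} [Fintype A] {m M b B d : ℕ} (hA : Fintype.card A ≤ 2 ^ B) {J : Type} [Fintype J]
    (e : J → (Fin m →₀ ℕ)) (he : ∀ j, (e j).sum (fun _ x => x) ≤ d) (Ψ : A → J → MvPolynomial (Fin M) k)
    (hΨ : ∀ a j, (Ψ a j).totalDegree < 2 ^ b) :
    ∃ g : MvPolynomial (Fin m ⊕ ((Fin M × Fin b) ⊕ Fin B)) k, g.totalDegree ≤ d + M * b + B ∧
      ∀ (a : A) (c : Fin M → k), ∃ x : ((Fin M × Fin b) ⊕ Fin B) → k,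
        aeval (Sum.elim (X : Fin m → MvPolynomial (Fin m) k) fun i => C (x i)) g =
          ∑ j, monomial (e j) (eval c (Ψ a j)) := by
  classical
  have hcard : Fintype.card A ≤ Fintype.card (Fin B → Bool) := by simpa using hA
  obtain ⟨code⟩ := Function.Embedding.nonempty_of_card_le hcard
  choose G hG1 hG2 using fun a j => bin_poly (b := b) (Ψ a j) (hΨ a j)
  refine ⟨∑ a, rename (fun i => Sum.inr (Sum.inr i)) (binSel (code a)) *
    ∑ j, rename (fun it => Sum.inr (Sum.inl it)) (G a j) * rename Sum.inl (monomial (e j) 1), ?_, ?_⟩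
  · refine totalDegree_finsetSum_le fun a _ => ?_
    refine (totalDegree_mul _ _).trans ?_
    have h1 : (rename (fun i => (Sum.inr (Sum.inr i) : Fin m ⊕ ((Fin M × Fin b) ⊕ Fin B)))
        (binSel (code a) : MvPolynomial (Fin B) k)).totalDegree ≤ B :=
      (totalDegree_rename_le _ _).trans (binSel_deg _)
    have h2 : (∑ j, rename (fun it => (Sum.inr (Sum.inl it) : Fin m ⊕ ((Fin M × Fin b) ⊕ Fin B))) (G a j) *
        rename Sum.inl (monomial (e j) 1)).totalDegree ≤ M * b + d := by
      refine totalDegree_finsetSum_le fun j _ => ?_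
      refine (totalDegree_mul _ _).trans (add_le_add ?_ ?_)
      · exact (totalDegree_rename_le _ _).trans (hG1 a j)
      · refine (totalDegree_rename_le _ _).trans ?_
        refine (totalDegree_monomial_le _ _).trans ?_
        exact he j
    omega
  · intro a c
    refine ⟨Sum.elim (fun it => c it.1 ^ 2 ^ (it.2 : ℕ)) (fun i => if code a i then 1 else 0), ?_⟩
    rw [map_sum, Finset.sum_eq_single a]
    · rw [map_mul, aeval_rename]
      have h1 : aeval ((Sum.elim (X : Fin m → MvPolynomial (Fin m) k) fun i => C
          ((Sum.elim (fun it : Fin M × Fin b => c it.1 ^ 2 ^ (it.2 : ℕ)) (fun i => if code a i then 1 else 0) :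
            ((Fin M × Fin b) ⊕ Fin B) → k) i)) ∘ fun i => Sum.inr (Sum.inr i)) (binSel (code a) : MvPolynomial (Fin B) k) =
          (1 : MvPolynomial (Fin m) k) := by
        have := bin_aevalC (m := m) (fun i => if code a i then (1 : k) else 0) (binSel (code a))
        rw [binSel_eval, if_pos rfl, C_1] at this
        exact this
      rw [h1, one_mul, map_sum]
      refine Finset.sum_congr rfl fun j _ => ?_
      rw [map_mul, aeval_rename, aeval_rename]
      have h2 : aeval ((Sum.elim (X : Fin m → MvPolynomial (Fin m) k) fun i => C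
          ((Sum.elim (fun it : Fin M × Fin b => c it.1 ^ 2 ^ (it.2 : ℕ)) (fun i => if code a i then 1 else 0) :
            ((Fin M × Fin b) ⊕ Fin B) → k) i)) ∘ fun it => Sum.inr (Sum.inl it)) (G a j) =
          (C (eval c (Ψ a j)) : MvPolynomial (Fin m) k) := by
        rw [← hG2 a j c]
        exact bin_aevalC (m := m) (fun it : Fin M × Fin b => c it.1 ^ 2 ^ (it.2 : ℕ)) (G a j)
      have h3 : aeval ((Sum.elim (X : Fin m → MvPolynomial (Fin m) k) fun i => C
          ((Sum.elim (fun it : Fin M × Fin b => c it.1 ^ 2 ^ (it.2 : ℕ)) (fun i => if code a i then 1 else 0) :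
            ((Fin M × Fin b) ⊕ Fin B) → k) i)) ∘ Sum.inl) (monomial (e j) (1 : k)) =
          (monomial (e j) 1 : MvPolynomial (Fin m) k) := by
        exact aeval_X_left_apply _
      rw [h2, h3, C_mul_monomial, mul_one]
    · intro a' _ ha'
      rw [map_mul, aeval_rename]
      have h1 : aeval ((Sum.elim (X : Fin m → MvPolynomial (Fin m) k) fun i => C
          ((Sum.elim (fun it : Fin M × Fin b => c it.1 ^ 2 ^ (it.2 : ℕ)) (fun i => if code a i then 1 else 0) :
            ((Fin M × Fin b) ⊕ Fin B) → k) i)) ∘ fun i => Sum.inr (Sum.inr i)) (binSel (code a') : MvPolynomial (Fin B) k) =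
          (0 : MvPolynomial (Fin m) k) := by
        have := bin_aevalC (m := m) (fun i => if code a i then (1 : k) else 0) (binSel (code a'))
        rw [binSel_eval, if_neg (fun h => ha' (code.injective h)), C_0] at this
        exact this
      rw [h1, zero_mul]
    · intro h
      exact absurd (Finset.mem_univ a) h

end Pool.Agent.VPE
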