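import Pool.Agent.VPO.Upper

/-!
# [VPE-LIM] limits satisfy the relations

`HasValueAtZero` is compatible with sums, products and constants, and the value is unique (`p / q = p' / q'` implies `p q' = p' q`, evaluate at `0`).
`lim`: `x j = coeff (e j) F` has value `coeff (e j) f` at `0`; so `aeval x g` has value `eval (coeff (e j) f) g` at `0` (`MvPolynomial.induction_on`), and
`aeval x g = aeval κ (aeval (fun j => coeff (e j) W) g) = 0`.
`exists_Lapp`: the set in the definition of `Lapp` is not empty (`F = map f`), so `Lapp G f` is attained (`Nat.sInf_mem`), and `L` is attained (`computedBy_L`).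
`Comp.bind`: substitution of variables by variables or constants; `Lapp_rename`: `rename` does not increase `Lapp`.
-/

set_option autoImplicit false

open MvPolynomial Pool.Agent.VPO

namespace Pool.Agent.VPE

variable {k : Type} [Field k]

private theorem lim_ne {q : Polynomial k} (h : q.eval 0 ≠ 0) :
    algebraMap (Polynomial k) (RatFunc k) q ≠ 0 := by
  intro h0
  have h1 : q = 0 := RatFunc.algebraMap_injective k (by rw [h0, map_zero])
  rw [h1] at h
  simp at h

theorem HasValueAtZero.add {x y : RatFunc k} {a b : k} (hx : HasValueAtZero x a) (hy : HasValueAtZero y b) :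
    HasValueAtZero (x + y) (a + b) := by
  obtain ⟨p, q, h1, rfl, rfl⟩ := hx
  obtain ⟨p', q', h1', rfl, rfl⟩ := hy
  refine ⟨p * q' + q * p', q * q', by rw [Polynomial.eval_mul]; exact mul_ne_zero h1 h1', ?_, ?_⟩
  · rw [div_add_div _ _ (lim_ne h1) (lim_ne h1'), map_add, map_mul, map_mul, map_mul]
  · rw [div_add_div _ _ h1 h1', Polynomial.eval_add, Polynomial.eval_mul, Polynomial.eval_mul, Polynomial.eval_mul]

theorem HasValueAtZero.mul {x y : RatFunc k} {a b : k} (hx : HasValueAtZero x a) (hy : HasValueAtZero y b) :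
    HasValueAtZero (x * y) (a * b) := by
  obtain ⟨p, q, h1, rfl, rfl⟩ := hx
  obtain ⟨p', q', h1', rfl, rfl⟩ := hy
  refine ⟨p * p', q * q', by rw [Polynomial.eval_mul]; exact mul_ne_zero h1 h1', ?_, ?_⟩
  · rw [div_mul_div_comm, map_mul, map_mul]
  · rw [div_mul_div_comm, Polynomial.eval_mul, Polynomial.eval_mul]

theorem HasValueAtZero.unique {x : RatFunc k} {a b : k} (hx : HasValueAtZero x a) (hy : HasValueAtZero x b) : a = b := by
  obtain ⟨p, q, h1, hx1, rfl⟩ := hx
  obtain ⟨p', q', h1', hy1, rfl⟩ := hy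
  rw [hx1, div_eq_div_iff (lim_ne h1) (lim_ne h1'), ← map_mul, ← map_mul] at hy1
  have h2 := RatFunc.algebraMap_injective k hy1
  have h3 := congrArg (Polynomial.eval 0) h2
  rw [Polynomial.eval_mul, Polynomial.eval_mul] at h3
  rw [div_eq_div_iff h1 h1']
  exact h3

private theorem lim_zero : HasValueAtZero (0 : RatFunc k) 0 := by
  have h := hasValueAtZero_algebraMap (0 : Polynomial k)
  rw [map_zero, Polynomial.eval_zero] at h
  exact h

private theorem lim_aeval {J : Type} (x : J → RatFunc k) (a : J → k) (h : ∀ j, HasValueAtZero (x j) (a j))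
    (g : MvPolynomial J k) : HasValueAtZero (aeval x g) (eval a g) := by
  induction g using MvPolynomial.induction_on with
  | C c =>
    rw [MvPolynomial.aeval_C, MvPolynomial.eval_C]
    have h1 := hasValueAtZero_algebraMap (Polynomial.C c)
    rw [Polynomial.eval_C] at h1
    exact h1
  | add p q hp hq =>
    rw [map_add, map_add]
    exact HasValueAtZero.add hp hq
  | mul_X p i hp =>
    rw [map_mul, map_mul, MvPolynomial.aeval_X, MvPolynomial.eval_X]
    exact HasValueAtZero.mul hp (h i)

theorem lim {n : ℕ} {F : MvPolynomial (Fin n) (RatFunc k)} {f : MvPolynomial (Fin n) k}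
    (h : ∀ ν, HasValueAtZero (coeff ν F) (coeff ν f)) {S : Type} (W : MvPolynomial (Fin n) (MvPolynomial S k))
    (κ : S → RatFunc k)
    (hW : F = MvPolynomial.map ((aeval κ : MvPolynomial S k →ₐ[k] RatFunc k) : MvPolynomial S k →+* RatFunc k) W)
    {J : Type} (e : J → (Fin n →₀ ℕ)) (g : MvPolynomial J k) (hg : aeval (fun j => coeff (e j) W) g = 0) :
    eval (fun j => coeff (e j) f) g = 0 := by
  have h1 := lim_aeval (fun j => coeff (e j) F) (fun j => coeff (e j) f) (fun j => h (e j)) g
  have h2 : aeval (fun j => coeff (e j) F) g = aeval κ (aeval (fun j => coeff (e j) W) g) := by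
    have h3 : (fun j => coeff (e j) F) = fun j => aeval κ (coeff (e j) W) := by
      funext j
      rw [hW, MvPolynomial.coeff_map]
      rfl
    rw [h3, ← MvPolynomial.comp_aeval_apply]
  rw [h2, hg, map_zero] at h1
  exact (HasValueAtZero.unique lim_zero h1).symm

theorem exists_Lapp (G : PFamily k) {n : ℕ} (f : MvPolynomial (Fin n) k) :
    ∃ F : MvPolynomial (Fin n) (RatFunc k), (∀ ν, HasValueAtZero (coeff ν F) (coeff ν f)) ∧
      ComputedBy G F (Lapp G f) := by
  have hne : {r | ∃ F : MvPolynomial (Fin n) (RatFunc k),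
      (∀ m, HasValueAtZero (coeff m F) (coeff m f)) ∧ L G F = r}.Nonempty := by
    refine ⟨_, MvPolynomial.map (algebraMap k (RatFunc k)) f, fun m => ?_, rfl⟩
    rw [MvPolynomial.coeff_map]
    have h1 := hasValueAtZero_algebraMap (Polynomial.C (MvPolynomial.coeff m f))
    rw [Polynomial.eval_C] at h1
    exact h1
  obtain ⟨F, h1, h2⟩ := Nat.sInf_mem hne
  refine ⟨F, h1, ?_⟩
  have h3 := computedBy_L G F
  rw [h2] at h3
  exact h3

private theorem lim_avail {F : Type} [Field F] {n m : ℕ} (ρ : Fin n → Fin m)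
    {l : List (MvPolynomial (Fin n) F)} {p : MvPolynomial (Fin n) F} (h : Avail l p) :
    Avail (l.map (MvPolynomial.rename ρ)) (MvPolynomial.rename ρ p) := by
  rcases h with ⟨c, rfl⟩ | ⟨i, rfl⟩ | h
  · exact Or.inl ⟨c, MvPolynomial.rename_C _ _⟩
  · exact Or.inr (Or.inl ⟨ρ i, MvPolynomial.rename_X _ _⟩)
  · exact Or.inr (Or.inr (List.mem_map_of_mem h))

theorem Comp.rename (G : PFamily k) {F : Type} [Field F] [Algebra k F] {n m : ℕ} (ρ : Fin n → Fin m) {r : ℕ}
    {l : List (MvPolynomial (Fin n) F)} (h : Comp G r l) : Comp G r (l.map (MvPolynomial.rename ρ)) := by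
  induction h with
  | nil => exact VPO.Comp.nil
  | add _ hp hq ih =>
    rw [List.map_cons, map_add]
    exact VPO.Comp.add ih (lim_avail ρ hp) (lim_avail ρ hq)
  | sub _ hp hq ih =>
    rw [List.map_cons, map_sub]
    exact VPO.Comp.sub ih (lim_avail ρ hp) (lim_avail ρ hq)
  | mul _ hp hq ih =>
    rw [List.map_cons, map_mul]
    exact VPO.Comp.mul ih (lim_avail ρ hp) (lim_avail ρ hq)
  | oracle j a _ ha ih =>
    rw [List.map_cons]
    have h1 : MvPolynomial.rename ρ (MvPolynomial.aeval a (G.poly j)) =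
        MvPolynomial.aeval (fun i => MvPolynomial.rename ρ (a i)) (G.poly j) := by
      have h2 : ((MvPolynomial.rename ρ : MvPolynomial (Fin n) F →ₐ[F] MvPolynomial (Fin m) F).restrictScalars k)
          (MvPolynomial.aeval a (G.poly j)) =
          MvPolynomial.aeval (fun i => ((MvPolynomial.rename ρ :
            MvPolynomial (Fin n) F →ₐ[F] MvPolynomial (Fin m) F).restrictScalars k) (a i)) (G.poly j) := by
        rw [← MvPolynomial.comp_aeval_apply]
      exact h2
    rw [h1]
    exact VPO.Comp.oracle j _ ih fun i => lim_avail ρ (ha i)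

theorem Lapp_rename (G : PFamily k) {n m : ℕ} (ρ : Fin n → Fin m) (hρ : Function.Injective ρ)
    (f : MvPolynomial (Fin n) k) : Lapp G (MvPolynomial.rename ρ f) ≤ Lapp G f := by
  obtain ⟨F, h1, l, h2, h3⟩ := exists_Lapp G f
  refine Lapp_le (F := MvPolynomial.rename ρ F) ?_ ⟨_, Comp.rename G ρ h2, lim_avail ρ h3⟩
  intro ν
  by_cases h : ∃ u : Fin n →₀ ℕ, u.mapDomain ρ = ν
  · obtain ⟨u, rfl⟩ := h
    rw [MvPolynomial.coeff_rename_mapDomain _ hρ, MvPolynomial.coeff_rename_mapDomain _ hρ]
    exact h1 u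
  · have e1 : coeff ν (MvPolynomial.rename ρ F) = 0 :=
      MvPolynomial.coeff_rename_eq_zero ρ F ν fun u hu => absurd ⟨u, hu⟩ h
    have e2 : coeff ν (MvPolynomial.rename ρ f) = 0 :=
      MvPolynomial.coeff_rename_eq_zero ρ f ν fun u hu => absurd ⟨u, hu⟩ h
    rw [e1, e2]
    exact lim_zero

end Pool.Agent.VPE
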