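import Pool.Agent.VPE.Base

/-!
# [VPE-EXTRACT] a formula for the point

Write `Q = AlgebraicClosure k`. `pderiv_pow`: if `ℓ` vanishes at `q` and `pderiv i ℓ = 1` then the `m`-th derivative of `ℓ ^ m * h` with respect to `X i` has the
value `m! * h(q)` at `q` (induction on `m`: `pderiv i (ℓ ^ (m+1) * h) = ℓ ^ m * ((m+1) * h + ℓ * pderiv i h)`).
`extract`: choose `a ∈ k` with `∑ j, a ^ e j * (Y σ j - Y σ0 j) ≠ 0` for all `σ` with `Y σ ≠ Y σ0` (finitely many nonzero univariate polynomials over `Q`; `e` is injective; `k` is infinite).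
Put `x = ∑ j, a ^ e j * f j`, `μ` = number of `σ` with `Y σ = Y σ0`. Let `H` be the polynomial in `MvPolynomial (Option J) Q` obtained from `G` by inserting `p` (`extractIns`); by `hG` and
`MvPolynomial.funext_set` (two polynomials over `Q` with the same values at all points of `k` are equal) `H = ∏ σ (X none - ∑ j, C (Y σ j) * X (some j)) = ℓ ^ μ * η`, with
`ℓ = X none - ∑ j, C (f j) * X (some j)`, which vanishes at `q = (x, (a ^ e j)_j)`, and `η q ≠ 0`. Then `pderiv none ^[μ] H` has value `μ! * η q` at `q`, and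
`pderiv none ^[μ-1] (pderiv (some j) H)` has value `-(f j) * μ! * η q` (`pderiv (some j) (ℓ^μ η) = ℓ^(μ-1) * (-(μ f j) η + ℓ * pderiv (some j) η)`). Partial derivatives commute with the
insertion of `p` and with the map `k → Q`. Hence with `u = - 1 / (value of pderiv none ^[μ] at q)` the formula.
-/

set_option autoImplicit false

open MvPolynomial

namespace Pool.Agent.VPE

theorem pderiv_pow {R ι : Type} [CommRing R] (i : ι) (ℓ : MvPolynomial ι R) (hℓ : pderiv i ℓ = 1) (q : ι → R)
    (hq : eval q ℓ = 0) (m : ℕ) (h : MvPolynomial ι R) :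
    eval q ((pderiv i)^[m] (ℓ ^ m * h)) = m.factorial * eval q h := by
  induction m generalizing h with
  | zero => simp
  | succ m ih =>
    have h1 : pderiv i (ℓ ^ (m + 1) * h) = ℓ ^ m * (((m + 1 : ℕ) : MvPolynomial ι R) * h + ℓ * pderiv i h) := by
      rw [pderiv_mul, MvPolynomial.pderiv_pow, hℓ, Nat.add_sub_cancel, pow_succ]
      ring
    rw [Function.iterate_succ_apply, h1, ih, map_add, map_mul, map_mul, hq, map_natCast, Nat.factorial_succ]
    push_cast
    ring

/-- insert the point `p` in the variables `Sum.inr i`, with coefficients in a bigger ring -/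
noncomputable def extractIns {R T ι κ : Type} [CommRing R] [CommRing T] (φ : R →+* T) (p : κ → R) :
    MvPolynomial (ι ⊕ κ) R →+* MvPolynomial ι T :=
  eval₂Hom (C.comp φ) (Sum.elim X fun i => C (φ (p i)))

theorem extractIns_pderiv {R T ι κ : Type} [CommRing R] [CommRing T] (φ : R →+* T) (p : κ → R) (o : ι)
    (F : MvPolynomial (ι ⊕ κ) R) :
    extractIns φ p (pderiv (Sum.inl o) F) = pderiv o (extractIns φ p F) := by
  classical
  induction F using MvPolynomial.induction_on with
  | C a => simp [extractIns]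
  | add P Q hP hQ => rw [map_add, map_add, hP, hQ, map_add, map_add]
  | mul_X P n hP =>
    rw [pderiv_mul, map_add, map_mul, map_mul, hP, map_mul, pderiv_mul]
    congr 2
    rcases n with n | n
    · by_cases hno : n = o
      · subst hno
        simp [extractIns]
      · have h1 : (Sum.inl n : ι ⊕ κ) ≠ Sum.inl o := fun h => hno (Sum.inl.inj h)
        rw [pderiv_X_of_ne h1]
        simp [extractIns, pderiv_X_of_ne hno]
    · have h1 : (Sum.inr n : ι ⊕ κ) ≠ Sum.inl o := by simp
      rw [pderiv_X_of_ne h1]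
      simp [extractIns]

theorem extractIns_iterate {R T ι κ : Type} [CommRing R] [CommRing T] (φ : R →+* T) (p : κ → R) (o : ι) (m : ℕ)
    (F : MvPolynomial (ι ⊕ κ) R) :
    extractIns φ p ((pderiv (Sum.inl o))^[m] F) = (pderiv o)^[m] (extractIns φ p F) := by
  induction m generalizing F with
  | zero => rfl
  | succ m ih => rw [Function.iterate_succ_apply, ih, extractIns_pderiv, Function.iterate_succ_apply]

theorem extractIns_eval {R T ι κ : Type} [CommRing R] [CommRing T] (φ : R →+* T) (p : κ → R) (v : ι → R)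
    (F : MvPolynomial (ι ⊕ κ) R) :
    eval (fun o => φ (v o)) (extractIns φ p F) = φ (eval (Sum.elim v p) F) := by
  induction F using MvPolynomial.induction_on with
  | C a => simp [extractIns]
  | add P Q hP hQ => rw [map_add, map_add, hP, hQ, map_add, map_add]
  | mul_X P n hP =>
    rw [map_mul, map_mul, hP, map_mul, map_mul]
    congr 1
    rcases n with n | n
    · simp [extractIns]
    · simp [extractIns]

/-- choice of a parameter which separates finitely many points -/
theorem extract_sep {k : Type} [Field k] [CharZero k] {J : Type} [Fintype J] (e : J → ℕ)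
    (he : Function.Injective e) {ι : Type} [Fintype ι] (Y : ι → J → AlgebraicClosure k) (σ0 : ι) :
    ∃ a : k, ∀ σ, Y σ ≠ Y σ0 →
      ∑ j, algebraMap k (AlgebraicClosure k) (a ^ e j) * (Y σ0 j - Y σ j) ≠ 0 := by
  classical
  let U : ι → Polynomial (AlgebraicClosure k) := fun σ => ∑ j, Polynomial.monomial (e j) (Y σ0 j - Y σ j)
  have hU : ∀ σ, Y σ ≠ Y σ0 → U σ ≠ 0 := by
    intro σ hσ h0
    apply hσ
    funext j
    have h1 := congrArg (fun P => Polynomial.coeff P (e j)) h0
    simp only [U, Polynomial.finsetSum_coeff, Polynomial.coeff_monomial, Polynomial.coeff_zero] at h1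
    rw [Finset.sum_eq_single j] at h1
    · rw [if_pos rfl] at h1
      exact (sub_eq_zero.1 h1).symm
    · intro b _ hb
      rw [if_neg (fun h => hb (he h))]
    · intro h
      exact absurd (Finset.mem_univ j) h
  have hprod : (∏ σ ∈ Finset.univ.filter (fun σ => Y σ ≠ Y σ0), U σ) ≠ 0 := by
    rw [Finset.prod_ne_zero_iff]
    intro σ hσ
    exact hU σ (Finset.mem_filter.1 hσ).2
  by_contra hcon
  push Not at hcon
  apply hprod
  apply Polynomial.eq_zero_of_infinite_isRoot
  refine (Set.infinite_range_of_injective (algebraMap k (AlgebraicClosure k)).injective).mono ?_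
  rintro _ ⟨a, rfl⟩
  obtain ⟨σ, hσ, h0⟩ := hcon a
  change Polynomial.eval _ _ = 0
  rw [Polynomial.eval_prod]
  refine Finset.prod_eq_zero (i := σ) (Finset.mem_filter.2 ⟨Finset.mem_univ _, hσ⟩) ?_
  rw [← h0]
  simp only [U, Polynomial.eval_finsetSum, Polynomial.eval_monomial, map_pow]
  exact Finset.sum_congr rfl fun j _ => mul_comm _ _

theorem extract {k : Type} [Field k] [CharZero k] {J : Type} [Fintype J] {D Δ : ℕ} (e : J → ℕ)
    (he : Function.Injective e) (G : MvPolynomial (Option J ⊕ Fin D) k) (f : J → k) (p : Fin D → k) {ι : Type}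
    [Fintype ι] (hι : Fintype.card ι = Δ) (Y : ι → J → AlgebraicClosure k) (σ0 : ι)
    (h0 : ∀ j, Y σ0 j = algebraMap k (AlgebraicClosure k) (f j))
    (hG : ∀ (T : k) (lam : J → k), algebraMap k (AlgebraicClosure k) (eval (Sum.elim (fun o => o.elim T lam) p) G) =
      ∏ σ, (algebraMap k (AlgebraicClosure k) T - ∑ j, algebraMap k (AlgebraicClosure k) (lam j) * Y σ j)) :
    ∃ (μ : ℕ) (a x u : k), 1 ≤ μ ∧ μ ≤ Δ ∧ ∀ j, f j = u * eval (Sum.elim (fun o => o.elim x fun i => a ^ e i) p)
      ((pderiv (Sum.inl none))^[μ - 1] (pderiv (Sum.inl (some j)) G)) := by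
  classical
  obtain ⟨a, ha⟩ := extract_sep e he Y σ0
  set φ : k →+* AlgebraicClosure k := algebraMap k (AlgebraicClosure k) with hφ
  have hinj : Function.Injective φ := φ.injective
  have : CharZero (AlgebraicClosure k) := charZero_of_injective_algebraMap hinj
  set x : k := ∑ j, a ^ e j * f j with hx
  set S : Finset ι := Finset.univ.filter (fun σ => Y σ = Y σ0) with hS
  set μ : ℕ := S.card with hμ
  have hμ1 : 1 ≤ μ := Finset.card_pos.2 ⟨σ0, Finset.mem_filter.2 ⟨Finset.mem_univ _, rfl⟩⟩
  have hμ2 : μ ≤ Δ := by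
    rw [← hι]
    exact Finset.card_le_univ _
  let v : Option J → k := fun o => o.elim x fun i => a ^ e i
  let q : Option J → AlgebraicClosure k := fun o => φ (v o)
  let fac : ι → MvPolynomial (Option J) (AlgebraicClosure k) := fun σ => X none - ∑ j, C (Y σ j) * X (some j)
  let ℓ : MvPolynomial (Option J) (AlgebraicClosure k) := X none - ∑ j, C (φ (f j)) * X (some j)
  let η : MvPolynomial (Option J) (AlgebraicClosure k) := ∏ σ ∈ Finset.univ.filter (fun σ => ¬ Y σ = Y σ0), fac σ
  have hfac : ∀ σ ∈ S, fac σ = ℓ := by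
    intro σ hσ
    have h1 : Y σ = Y σ0 := (Finset.mem_filter.1 hσ).2
    simp only [fac, ℓ, h1, h0]
  have hH : extractIns φ p G = ℓ ^ μ * η := by
    have h1 : extractIns φ p G = ∏ σ, fac σ := by
      refine MvPolynomial.funext_set (fun _ => Set.range φ)
        (fun _ => Set.infinite_range_of_injective hinj) ?_
      intro y hy
      have hy' : ∀ o, ∃ c, φ c = y o := fun o => hy o (Set.mem_univ _)
      choose c hc using hy'
      have hyc : y = fun o => φ (c o) := funext fun o => (hc o).symm
      rw [hyc, extractIns_eval]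
      have h2 : (fun o : Option J => o.elim (c none) fun j => c (some j)) = c := by
        funext o
        cases o <;> rfl
      have h3 := hG (c none) (fun j => c (some j))
      rw [h2] at h3
      rw [h3, map_prod]
      refine Finset.prod_congr rfl fun σ _ => ?_
      simp only [fac, map_sub, map_sum, map_mul, eval_X, eval_C]
      congr 1
      exact Finset.sum_congr rfl fun j _ => mul_comm _ _
    rw [h1, ← Finset.prod_filter_mul_prod_filter_not Finset.univ (fun σ => Y σ = Y σ0) fac]
    congr 1
    rw [Finset.prod_congr rfl hfac, Finset.prod_const]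
  have hℓ : pderiv none ℓ = 1 := by
    simp only [ℓ, map_sub, map_sum, pderiv_C_mul, pderiv_X_self]
    rw [Finset.sum_eq_zero, sub_zero]
    intro j _
    rw [pderiv_X_of_ne (by simp), mul_zero]
  have hℓj : ∀ j, pderiv (some j) ℓ = - C (φ (f j)) := by
    intro j
    simp only [ℓ, map_sub, map_sum, pderiv_C_mul]
    rw [pderiv_X_of_ne (by simp), Finset.sum_eq_single j, pderiv_X_self, mul_one, zero_sub]
    · intro b _ hb
      rw [pderiv_X_of_ne (by simpa using hb), mul_zero]
    · intro h
      exact absurd (Finset.mem_univ j) h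
  have hq : eval q ℓ = 0 := by
    simp only [ℓ, q, v, map_sub, map_sum, map_mul, eval_X, eval_C, Option.elim]
    rw [hx, map_sum, sub_eq_zero]
    refine Finset.sum_congr rfl fun j _ => ?_
    rw [map_mul]
    exact mul_comm _ _
  have hη : eval q η ≠ 0 := by
    simp only [η, map_prod]
    rw [Finset.prod_ne_zero_iff]
    intro σ hσ
    have h1 : ¬ Y σ = Y σ0 := (Finset.mem_filter.1 hσ).2
    have h2 := ha σ h1
    have h3 : eval q (fac σ) = ∑ j, φ (a ^ e j) * (Y σ0 j - Y σ j) := by
      simp only [fac, q, v, map_sub, map_sum, map_mul, eval_X, eval_C, Option.elim]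
      rw [hx, map_sum, ← Finset.sum_sub_distrib]
      refine Finset.sum_congr rfl fun j _ => ?_
      rw [map_mul, h0]
      ring
    rw [h3]
    exact h2
  set V : AlgebraicClosure k := μ.factorial * eval q η with hV
  have hV0 : V ≠ 0 := mul_ne_zero (by exact_mod_cast μ.factorial_ne_zero) hη
  have hval : φ (eval (Sum.elim v p) ((pderiv (Sum.inl none))^[μ] G)) = V := by
    rw [← extractIns_eval, extractIns_iterate, hH]
    exact pderiv_pow none ℓ hℓ q hq μ η
  have hvalj : ∀ j, φ (eval (Sum.elim v p) ((pderiv (Sum.inl none))^[μ - 1] (pderiv (Sum.inl (some j)) G))) =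
      - φ (f j) * V := by
    intro j
    rw [← extractIns_eval, extractIns_iterate, extractIns_pderiv, hH]
    obtain ⟨m, hm⟩ : ∃ m, μ = m + 1 := ⟨μ - 1, by omega⟩
    have h1 : pderiv (some j) (ℓ ^ μ * η) =
        ℓ ^ (μ - 1) * (- C (φ (f j)) * ((μ : ℕ) : MvPolynomial (Option J) (AlgebraicClosure k)) * η
          + ℓ * pderiv (some j) η) := by
      rw [pderiv_mul, MvPolynomial.pderiv_pow, hℓj, hm, Nat.add_sub_cancel, pow_succ]
      ring
    rw [h1]
    refine (pderiv_pow none ℓ hℓ q hq (μ - 1) _).trans ?_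
    rw [map_add, map_mul, map_mul, map_mul, map_neg, eval_C, hq, map_natCast, hV, hm, Nat.add_sub_cancel,
      Nat.factorial_succ]
    push_cast
    ring
  set c : k := eval (Sum.elim v p) ((pderiv (Sum.inl none))^[μ] G) with hc
  have hc0 : c ≠ 0 := by
    intro h
    apply hV0
    rw [← hval, h, map_zero]
  refine ⟨μ, a, x, -c⁻¹, hμ1, hμ2, fun j => ?_⟩
  have h1 := hvalj j
  rw [← hval] at h1
  have h2 : eval (Sum.elim v p) ((pderiv (Sum.inl none))^[μ - 1] (pderiv (Sum.inl (some j)) G)) = - f j * c := by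
    apply hinj
    rw [h1, map_mul, map_neg]
  change f j = -c⁻¹ * eval (Sum.elim v p) ((pderiv (Sum.inl none))^[μ - 1] (pderiv (Sum.inl (some j)) G))
  rw [h2]
  field_simp

end Pool.Agent.VPE
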