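import Pool.Agent.VPE.Cayley
import Pool.Agent.VPE.Extract

/-!
# [VPE-COVER] covering of the closure of the image of a polynomial map

Apply `cayley` to the family `z'` on `Option J` with `z' none = 1`, `z' (some j) = z j`. For `f` as in the statement, `f' none = 1`, `f' (some j) = f j`: if
`aeval (fun j => tz (z' j)) g = 0` then `aeval z' g_d = 0` for all homogeneous components `g_d` of `g` (coefficients of `X none ^ d`), so `g_d (1, z) = 0`,
hence `g_d (1, f) = 0` by hypothesis, `eval f' g = 0`. Then `extract` with an injection `e : Option J → ℕ` with values `≤ card J` (for instance `e none = 0`).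
`Ψ μ j` is the polynomial obtained from `X u * pderiv^[μ-1] (pderiv (some j) G)` by the substitution: the variable `none` by `x`, the variable `some i` by
`a ^ e i`, the `l`-th variable of `Fin D` by the `l`-th of the remaining ones. Variables: `u, x, a` and `D ≤ card S + 1` others, at most `card S + 4`. Degree:
`1 + 2 Δ * max 1 (card J)`, `Δ ≤ Tb E D ≤ Tb E (card S + 1)` (`Tb` is monotone in `D`); `pderiv` does not raise the total degree.
-/

set_option autoImplicit false

open MvPolynomial

namespace Pool.Agent.VPE

theorem Tb_mono (E : ℕ) {D D' : ℕ} (h : D ≤ D') : Tb E D ≤ Tb E D' := by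
  unfold Tb
  have h1 : E * (D + 1) + 1 ≤ E * (D' + 1) + 1 :=
    Nat.add_le_add_right (Nat.mul_le_mul_left _ (Nat.add_le_add_right h 1)) 1
  have h2 : (E * (D + 1) + 1) ^ D ≤ (E * (D' + 1) + 1) ^ D' :=
    (Nat.pow_le_pow_left h1 D).trans (Nat.pow_le_pow_right (Nat.succ_pos _) h)
  exact Nat.add_le_add_right
    (Nat.mul_le_mul (Nat.mul_le_mul_left 2 h2) (Nat.add_le_add_right h 2)) 1

private theorem cov_pderiv {R ι : Type} [CommRing R] (i : ι) (F : MvPolynomial ι R) :
    (pderiv i F).totalDegree ≤ F.totalDegree := by
  classical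
  conv_lhs => rw [F.as_sum]
  rw [map_sum]
  refine totalDegree_finsetSum_le fun m hm => ?_
  rw [pderiv_monomial]
  refine (totalDegree_monomial_le _ _).trans ((?_ : _ ≤ _).trans (le_totalDegree hm))
  have h1 : m - Finsupp.single i 1 ≤ m := tsub_le_self
  obtain ⟨c, hc⟩ := le_iff_exists_add.1 h1
  conv_rhs => rw [hc]
  rw [Finsupp.sum_add_index' (fun _ => rfl) (fun _ _ _ => rfl)]
  exact Nat.le_add_right _ _

private theorem cov_iter {R ι : Type} [CommRing R] (i : ι) (m : ℕ) (F : MvPolynomial ι R) :
    ((pderiv i)^[m] F).totalDegree ≤ F.totalDegree := by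
  induction m generalizing F with
  | zero => exact le_rfl
  | succ m ih =>
    rw [Function.iterate_succ_apply]
    exact (ih _).trans (cov_pderiv i F)

private theorem cov_aeval {R ι κ : Type} [CommRing R] (h : ι → MvPolynomial κ R) (N : ℕ)
    (hN : ∀ v, (h v).totalDegree ≤ N) (F : MvPolynomial ι R) :
    (aeval h F).totalDegree ≤ F.totalDegree * N := by
  classical
  conv_lhs => rw [F.as_sum]
  rw [map_sum]
  refine totalDegree_finsetSum_le fun m hm => ?_
  rw [aeval_monomial, algebraMap_eq]
  refine (totalDegree_mul _ _).trans ?_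
  rw [totalDegree_C, zero_add, Finsupp.prod]
  refine (totalDegree_finsetProd _ _).trans ?_
  calc ∑ i ∈ m.support, (h i ^ m i).totalDegree ≤ ∑ i ∈ m.support, m i * N := by
        refine Finset.sum_le_sum fun i _ => ?_
        exact (totalDegree_pow _ _).trans (Nat.mul_le_mul_left _ (hN i))
    _ = (m.sum fun _ e => e) * N := by rw [← Finset.sum_mul]; rfl
    _ ≤ F.totalDegree * N := Nat.mul_le_mul_right _ (le_totalDegree hm)

variable {k : Type} [Field k] [CharZero k] {S : Type} [Fintype S]

omit [CharZero k] [Fintype S] in
private theorem cov_coeff {J : Type} (w : J → MvPolynomial S k) (d : ℕ) (g : MvPolynomial J k) :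
    (aeval (fun o => (Polynomial.X * Polynomial.C (w o) : Polynomial (MvPolynomial S k))) g).coeff d =
      aeval w (homogeneousComponent d g) := by
  classical
  induction g using MvPolynomial.induction_on' with
  | monomial m a =>
    have h1 : (m.prod fun o e => ((Polynomial.X * Polynomial.C (w o) : Polynomial (MvPolynomial S k))) ^ e) =
        Polynomial.X ^ m.degree * Polynomial.C (m.prod fun o e => w o ^ e) := by
      unfold Finsupp.prod
      simp only [mul_pow, Finset.prod_mul_distrib, Finset.prod_pow_eq_pow_sum, map_prod, map_pow]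
      rfl
    rw [aeval_monomial, h1, homogeneousComponent_of_mem (isHomogeneous_monomial a rfl)]
    have h2 : algebraMap k (Polynomial (MvPolynomial S k)) a = Polynomial.C (C a) := rfl
    rw [h2, mul_comm (Polynomial.X ^ m.degree), ← mul_assoc, ← Polynomial.C_mul,
      Polynomial.coeff_C_mul_X_pow]
    split_ifs with h3
    · rw [aeval_monomial]; rfl
    · rw [map_zero]
  | add p q hp hq => rw [map_add, Polynomial.coeff_add, hp, hq, map_add, map_add]

/-- `k[c][t]` as polynomials in one variable -/
private noncomputable def cov_psi (k : Type) [Field k] (S : Type) :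
    MvPolynomial (Option S) k →ₐ[k] Polynomial (MvPolynomial S k) :=
  aeval fun o => o.elim Polynomial.X fun s => Polynomial.C (X s)

omit [CharZero k] [Fintype S] in
private theorem cov_psi_tz (w : MvPolynomial S k) :
    cov_psi k S (tz w) = Polynomial.X * Polynomial.C w := by
  unfold tz cov_psi
  rw [map_mul, aeval_X, aeval_rename]
  congr 1
  induction w using MvPolynomial.induction_on with
  | C a => rw [algHom_C]; rfl
  | add p q hp hq => rw [map_add, hp, hq, map_add]
  | mul_X p n hp => rw [map_mul, hp, aeval_X, map_mul]; rfl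

theorem cone_rel {J : Type} [Fintype J] (z : J → MvPolynomial S k) (f : J → k)
    (hf : ∀ g : MvPolynomial J k, aeval z g = 0 → eval f g = 0) (g : MvPolynomial (Option J) k)
    (hg : aeval (fun o : Option J => tz (o.elim (1 : MvPolynomial S k) z)) g = 0) :
    eval (fun o : Option J => o.elim (1 : k) f) g = 0 := by
  have h1 : ∀ d, aeval (fun o : Option J => o.elim (1 : MvPolynomial S k) z) (homogeneousComponent d g) = 0 := by
    intro d
    rw [← cov_coeff]
    have h2 := congrArg (cov_psi k S) hg
    rw [map_zero, comp_aeval_apply] at h2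
    simp only [cov_psi_tz] at h2
    rw [h2, Polynomial.coeff_zero]
  have h3 : ∀ d, eval (fun o : Option J => o.elim (1 : k) f) (homogeneousComponent d g) = 0 := by
    intro d
    have h4 := hf (aeval (fun o : Option J => o.elim (1 : MvPolynomial J k) X) (homogeneousComponent d g))
      (by
        rw [comp_aeval_apply]
        rw [← h1 d]
        congr 2
        funext o
        cases o with
        | none => simp
        | some j => simp)
    rw [← h4, ← MvPolynomial.coe_aeval_eq_eval, ← MvPolynomial.coe_aeval_eq_eval]
    show aeval _ _ = aeval _ (aeval _ _)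
    rw [comp_aeval_apply]
    congr 2
    funext o
    cases o with
    | none => simp
    | some j => simp
  rw [← sum_homogeneousComponent g, map_sum]
  exact Finset.sum_eq_zero fun d _ => h3 d

theorem cover {J : Type} [Fintype J] {E : ℕ} (z : J → MvPolynomial S k) (hE : ∀ j, (z j).totalDegree ≤ E) :
    ∃ Ψ : ℕ → J → MvPolynomial (Fin (Fintype.card S + 4)) k,
      (∀ μ j, (Ψ μ j).totalDegree ≤ 1 + 2 * Tb E (Fintype.card S + 1) * (Fintype.card J + 1)) ∧
      ∀ f : J → k, (∀ g : MvPolynomial J k, aeval z g = 0 → eval f g = 0) →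
        ∃ (μ : ℕ) (c : Fin (Fintype.card S + 4) → k), μ ≤ Tb E (Fintype.card S + 1) ∧
          ∀ j, f j = eval c (Ψ μ j) := by
  classical
  obtain ⟨D, Δ, π, G, hD, hΔ, hG, hcay⟩ := cayley (E := E)
    (fun o : Option J => o.elim (1 : MvPolynomial S k) z)
    (by
      intro o
      cases o with
      | none => simp
      | some j => exact hE j) none rfl
  have hΔ' : Δ ≤ Tb E (Fintype.card S + 1) := hΔ.trans (Tb_mono E hD)
  let e : Option J → ℕ := fun o => (Fintype.equivFin (Option J) o : ℕ)
  have he : Function.Injective e := fun a b h => (Fintype.equivFin (Option J)).injective (Fin.ext h)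
  have he1 : ∀ o, e o ≤ Fintype.card J := by
    intro o
    have h1 : e o < Fintype.card (Option J) := (Fintype.equivFin (Option J) o).2
    rw [Fintype.card_option] at h1
    omega
  let v0 : Fin (Fintype.card S + 4) := ⟨0, by omega⟩
  let v1 : Fin (Fintype.card S + 4) := ⟨1, by omega⟩
  let v2 : Fin (Fintype.card S + 4) := ⟨2, by omega⟩
  let v3 : Fin D → Fin (Fintype.card S + 4) := fun l => ⟨3 + l, by have := l.2; omega⟩
  let h : Option (Option J) ⊕ Fin D → MvPolynomial (Fin (Fintype.card S + 4)) k :=
    Sum.elim (fun oo => oo.elim (X v1) fun o => X v2 ^ e o) fun l => X (v3 l)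
  let Q : ℕ → J → MvPolynomial (Option (Option J) ⊕ Fin D) k := fun μ j =>
    (pderiv (Sum.inl none))^[μ - 1] (pderiv (Sum.inl (some (some j))) G)
  refine ⟨fun μ j => X v0 * aeval h (Q μ j), ?_, ?_⟩
  · intro μ j
    refine (totalDegree_mul _ _).trans ?_
    rw [totalDegree_X]
    refine Nat.add_le_add_left ?_ 1
    have h1 : ∀ v, (h v).totalDegree ≤ Fintype.card J + 1 := by
      intro v
      rcases v with oo | l
      · cases oo with
        | none =>
          change (X v1 : MvPolynomial (Fin (Fintype.card S + 4)) k).totalDegree ≤ _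
          rw [totalDegree_X]; omega
        | some o =>
          change ((X v2 : MvPolynomial (Fin (Fintype.card S + 4)) k) ^ e o).totalDegree ≤ _
          refine (totalDegree_pow _ _).trans ?_
          rw [totalDegree_X, mul_one]
          exact (he1 o).trans (Nat.le_succ _)
      · change (X (v3 l) : MvPolynomial (Fin (Fintype.card S + 4)) k).totalDegree ≤ _
        rw [totalDegree_X]; omega
    refine (cov_aeval h _ h1 _).trans (Nat.mul_le_mul_right _ ?_)
    refine (cov_iter _ _ _).trans ((cov_pderiv _ _).trans (hG.trans ?_))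
    exact Nat.mul_le_mul_left _ hΔ'
  · intro f hf
    obtain ⟨ι, hι, Y, σ0, hcard, hY, hprod⟩ := hcay (fun o : Option J => o.elim (1 : k) f)
      (fun g hg => cone_rel z f hf g hg)
    obtain ⟨μ, a, x, u, hμ1, hμ2, hfin⟩ := extract e he G (fun o : Option J => o.elim (1 : k) f)
      (fun l => ∑ j, π l j * (fun o : Option J => o.elim (1 : k) f) j) hcard Y σ0 hY hprod
    let p : Fin D → k := fun l => ∑ j, π l j * (fun o : Option J => o.elim (1 : k) f) j
    let c : Fin (Fintype.card S + 4) → k := fun i =>
      if i.1 = 0 then u else if i.1 = 1 then x else if i.1 = 2 then a else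
        if hi : i.1 - 3 < D then p ⟨i.1 - 3, hi⟩ else 0
    refine ⟨μ, c, hμ2.trans hΔ', fun j => ?_⟩
    have h1 := hfin (some j)
    have h2 : (fun v => eval c (h v)) = Sum.elim (fun o => o.elim x fun i => a ^ e i) p := by
      funext v
      rcases v with oo | l
      · cases oo with
        | none =>
          change eval c (X v1) = x
          rw [eval_X]
          simp [c, v1]
        | some o =>
          change eval c (X v2 ^ e o) = a ^ e o
          rw [map_pow, eval_X]
          simp [c, v2]
      · change eval c (X (v3 l)) = p l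
        rw [eval_X]
        have h3 : (v3 l).1 = 3 + l := rfl
        simp only [c, h3]
        rw [if_neg (by omega), if_neg (by omega), if_neg (by omega)]
        have h4 : 3 + (l : ℕ) - 3 = l := by omega
        simp only [h4, l.2, dite_true, Fin.eta]
    have h5 : eval c (X v0 * aeval h (Q μ j)) = u * eval (fun v => eval c (h v)) (Q μ j) := by
      rw [map_mul, eval_X]
      have h6 : c v0 = u := by simp [c, v0]
      rw [h6]
      congr 1
      rw [← MvPolynomial.coe_aeval_eq_eval, ← MvPolynomial.coe_aeval_eq_eval]
      show aeval _ (aeval _ _) = aeval _ _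
      rw [comp_aeval_apply]
      rfl
    rw [h5, h2]
    exact h1

end Pool.Agent.VPE
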