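import Mathlib

/-!
# VPE: an oracle relative to which VP equals its approximative closure (MP_96a35c_lc)

Basic definitions of the algebraic part. `k[c]` is `MvPolynomial S k`, and `MvPolynomial (Option S) k` is
`k[c][t]` with `t = X none`. To a family `z : J → k[c]` we attach the elements `t z_j` of degree one in `t`
and linear combinations `P_l` of them which are algebraically independent and over which the `t z_j` are
integral (NN.lean). The norm of `T - sum_j lam_j t z_j` over `k(P)` is a polynomial in `T`, `lam` and `P`
(NormP.lean) of degree at most the degree of the extension, which is bounded by counting (Count.lean, Prim.lean).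
Its specialisations at the points of the closure of the image of `z` are products of linear forms (Spec.lean),
and this gives a formula for the point (Extract.lean), that is a covering of all points of the closure of the
image by polynomial maps of controlled degree (Cover.lean).
-/

set_option autoImplicit false

open MvPolynomial

namespace Pool.Agent.VPE

variable {k : Type} [Field k] {S : Type}

/-- `t z` -/
noncomputable def tz (z : MvPolynomial S k) : MvPolynomial (Option S) k := X none * rename some z

/-- the field `k(c, t)` -/
abbrev KK (k : Type) [Field k] (S : Type) : Type := FractionRing (MvPolynomial (Option S) k)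

/-- `t z` in `k(c, t)` -/
noncomputable def tk (z : MvPolynomial S k) : KK k S := algebraMap (MvPolynomial (Option S) k) (KK k S) (tz z)

theorem tz_add (z w : MvPolynomial S k) : tz (z + w) = tz z + tz w := by
  unfold tz; rw [map_add, mul_add]

theorem tz_smul (a : k) (z : MvPolynomial S k) : tz (a • z) = a • tz z := by
  unfold tz; rw [map_smul, mul_smul_comm]

theorem tz_sum {J : Type} (s : Finset J) (z : J → MvPolynomial S k) : tz (∑ j ∈ s, z j) = ∑ j ∈ s, tz (z j) := by
  unfold tz; rw [map_sum, Finset.mul_sum]

theorem tk_add (z w : MvPolynomial S k) : tk (z + w) = tk z + tk w := by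
  unfold tk; rw [tz_add, map_add]

theorem tk_smul (a : k) (z : MvPolynomial S k) : tk (a • z) = a • tk z := by
  unfold tk
  rw [tz_smul, ← algebraMap_smul (MvPolynomial (Option S) k) a (tz z), smul_eq_mul, map_mul,
    ← algebraMap_smul (KK k S) a (algebraMap (MvPolynomial (Option S) k) (KK k S) (tz z)), smul_eq_mul]
  rw [← IsScalarTower.algebraMap_apply]

theorem tk_sum {J : Type} (s : Finset J) (z : J → MvPolynomial S k) : tk (∑ j ∈ s, z j) = ∑ j ∈ s, tk (z j) := by
  unfold tk; rw [tz_sum, map_sum]

section

variable (k : Type) [Field k] {K : Type} [Field K] [Algebra k K] {D : ℕ} (P : Fin D → K) {J : Type} (y : J → K)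

/-- the field `k(P)` -/
abbrev FP : IntermediateField k K := IntermediateField.adjoin k (Set.range P)

/-- the field `k(P)(y)` -/
abbrev LP : IntermediateField (FP k P) K := IntermediateField.adjoin (FP k P) (Set.range y)

/-- `y_j` as an element of `k(P)(y)` -/
noncomputable def yL (j : J) : LP k P y := ⟨y j, IntermediateField.subset_adjoin _ _ ⟨j, rfl⟩⟩

variable {k} [Fintype J]

/-- `T - sum_j lam_j y_j` -/
noncomputable def el (T : k) (lam : J → k) : LP k P y := algebraMap k (LP k P y) T - ∑ j, lam j • yL k P y j

/-- its norm over `k(P)`, as an element of `K` -/
noncomputable def nrm (T : k) (lam : J → k) : K :=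
  algebraMap (FP k P) K (Algebra.norm (FP k P) (el P y T lam))

end

/-- the bound for the degree of the field extension, for `D` linear combinations and degree `E` in the parameters -/
def Tb (E D : ℕ) : ℕ := 2 * (E * (D + 1) + 1) ^ D * (D + 2) + 1

end Pool.Agent.VPE
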