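import Pool.Agent.VPE.Base

/-!
# [VPE-COUNT] bound for the degree of an element

`dim_le`: `D` algebraically independent elements of a field of transcendence degree `card S + 1`.

`count_box` (linear algebra): polynomials whose supports lie in a finite set with fewer elements than the index set are linearly dependent.

`count`: let `y = tz w` and `P l = tz (p l)` in `R = MvPolynomial (Option S) k` (all statements can be transported between `R` and its fraction field). By
`exists_isTranscendenceBasis_between` there is a subset `S'` of the variables such that `P` together with the variables `X (some s)`, `s ∈ S'`, is a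
transcendence basis of `KK k S` (`X none = tz 1` is algebraic over `k(P)`, so it is not needed: apply the theorem with the variables `X (some s)` only), so
`D + card S' = card S + 1`. Since `y` is algebraic over `k(P)`, the `X (some s)`, `s ∈ S'`, are algebraically independent over `k(P)(y)`
(`AlgebraicIndependent.extendScalars`, `iff_adjoin_image`, `IntermediateField.algebraicIndependent_adjoin_iff`).
Put `T = Tb E D`, `E' = E * (D + 1) * T`, `r = card S'`, `M` with `(M + 1 + E') ^ r ≤ 2 * (M + 1) ^ r`. The elements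
`X ^ κ * P ^ ν * y ^ j` for `κ : S' → Fin (M + 1)`, `ν : Fin D → Fin T`, `j : Fin T` have support in the box: exponents `< M + 1 + E'` for `s ∈ S'`, `< E' + 1` for
`s ∉ S'` (there are `D - 1` of them), `< (D + 1) * T` for `none`. Count: `(M+1)^r * T^(D+1)` elements, box
`(M + 1 + E')^r * (E'+1)^(D-1) * ((D+1) * T) ≤ 2 * (M+1)^r * (E * (D+1) + 1)^(D-1) * T^(D-1) * (D+1) * T < (M+1)^r * T^(D+1)`. So there is a nontrivial relation
`∑ a κ ν j X^κ P^ν y^j = 0`, and by independence `∑ a κ ν j P^ν y^j = 0` for every `κ`; for a suitable `κ` this is a nonzero polynomial in `P`, `y` of degree `< T` in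
`y`, not identically zero in `y` since `P` is algebraically independent; so the degree of the minimal polynomial of `y` over `k(P)` is less than `T`
(`minpoly.natDegree_le_of_ne_zero` or `minpoly.dvd`).
-/

set_option autoImplicit false

open MvPolynomial

namespace Pool.Agent.VPE

variable {k : Type} [Field k] {S : Type} [Fintype S]

/-- the variables, in the fraction field -/
private noncomputable def vv (k : Type) [Field k] (S : Type) (o : Option S) : KK k S :=
  algebraMap (MvPolynomial (Option S) k) (KK k S) (X o)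

private theorem vv_basis (k : Type) [Field k] (S : Type) : IsTranscendenceBasis k (vv k S) := by
  have h := IsTranscendenceBasis.mvPolynomial (Option S) k
  have : Algebra.IsAlgebraic (MvPolynomial (Option S) k) (KK k S) :=
    IsLocalization.isAlgebraic (KK k S) (nonZeroDivisors (MvPolynomial (Option S) k))
  exact h.algebraMap_comp

theorem dim_le {D : ℕ} {P : Fin D → KK k S} (hP : AlgebraicIndependent k P) : D ≤ Fintype.card S + 1 := by
  have h1 := hP.cardinalMk_le_trdeg
  rw [← (vv_basis k S).cardinalMk_eq_trdeg] at h1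
  simp only [Cardinal.mk_fintype, Fintype.card_option, Fintype.card_fin] at h1
  exact_mod_cast h1

theorem count_box {I σ : Type} [Fintype I] (v : I → MvPolynomial σ k) (s : Finset (σ →₀ ℕ)) (hv : ∀ i, (v i).support ⊆ s)
    (h : s.card < Fintype.card I) : ∃ a : I → k, a ≠ 0 ∧ ∑ i, a i • v i = 0 := by
  classical
  let f : (I → k) →ₗ[k] (s → k) :=
    { toFun := fun a α => ∑ i, a i * coeff α.1 (v i)
      map_add' := by
        intro a b; funext α
        simp only [Pi.add_apply, add_mul, Finset.sum_add_distrib]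
      map_smul' := by
        intro c a; funext α
        simp only [Pi.smul_apply, smul_eq_mul, mul_assoc, Finset.mul_sum, RingHom.id_apply] }
  have hk : LinearMap.ker f ≠ ⊥ := LinearMap.ker_ne_bot_of_finrank_lt (by simpa using h)
  obtain ⟨a, ha, ha0⟩ := Submodule.exists_mem_ne_zero_of_ne_bot hk
  refine ⟨a, ha0, ?_⟩
  ext α
  rw [coeff_sum, coeff_zero]
  by_cases hα : α ∈ s
  · have := congrFun (LinearMap.mem_ker.1 ha) ⟨α, hα⟩
    simpa [f, coeff_smul] using this
  · refine Finset.sum_eq_zero fun i _ => ?_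
    rw [coeff_smul, notMem_support_iff.1 (fun h => hα (hv i h)), smul_zero]

private theorem exists_compl {D : ℕ} (P : Fin D → KK k S) (hP : AlgebraicIndependent k P)
    (ht : IsIntegral (Algebra.adjoin k (Set.range P)) (vv k S none)) :
    ∃ S' : Finset S, D + S'.card = Fintype.card S + 1 ∧
      AlgebraicIndependent (Algebra.adjoin k (Set.range P)) (fun s : S' => vv k S (some s)) := by
  classical
  let t : Set (KK k S) := Set.range P ∪ Set.range fun s : S => vv k S (some s)
  have hst : Set.range P ⊆ t := Set.subset_union_left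
  have hs : AlgebraicIndepOn k id (Set.range P) := hP.to_subtype_range
  have halg : Algebra.IsAlgebraic (Algebra.adjoin k t) (KK k S) := by
    rw [(vv_basis k S).isAlgebraic_iff]
    rintro (_ | s)
    · let _ : Algebra (Algebra.adjoin k (Set.range P)) (Algebra.adjoin k t) :=
        (Subalgebra.inclusion (Algebra.adjoin_mono hst)).toAlgebra
      have : IsScalarTower (Algebra.adjoin k (Set.range P)) (Algebra.adjoin k t) (KK k S) :=
        IsScalarTower.of_algebraMap_eq fun x => rfl
      exact (ht.tower_top (A := Algebra.adjoin k t)).isAlgebraic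
    · exact isAlgebraic_algebraMap (⟨vv k S (some s), Algebra.subset_adjoin (Or.inr ⟨s, rfl⟩)⟩ : Algebra.adjoin k t)
  obtain ⟨u, hu1, hu2, hu3⟩ := exists_isTranscendenceBasis_between (Set.range P) t hst hs
  let S' : Finset S := Finset.univ.filter fun s => vv k S (some s) ∈ u ∧ vv k S (some s) ∉ Set.range P
  have hvinj : Function.Injective (vv k S) := (vv_basis k S).1.injective
  let g : (S' ⊕ Fin D) → KK k S := Sum.elim (fun s : S' => vv k S (some s)) P
  have hg : Function.Injective g := by
    rintro (a | a) (b | b) h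
    · have := hvinj h
      simp only [Option.some.injEq] at this
      exact congrArg _ (Subtype.ext this)
    · exact absurd ⟨b, h.symm⟩ (Finset.mem_filter.1 a.2).2.2
    · exact absurd ⟨a, h⟩ (Finset.mem_filter.1 b.2).2.2
    · exact congrArg _ (hP.injective h)
  have hr : Set.range g = u := by
    apply Set.Subset.antisymm
    · rintro _ ⟨(a | a), rfl⟩
      · exact (Finset.mem_filter.1 a.2).2.1
      · exact hu1 ⟨a, rfl⟩
    · intro x hx
      rcases hu2 hx with ⟨a, rfl⟩ | ⟨s, rfl⟩
      · exact ⟨Sum.inr a, rfl⟩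
      · by_cases h : vv k S (some s) ∈ Set.range P
        · obtain ⟨a, ha⟩ := h
          exact ⟨Sum.inr a, ha⟩
        · exact ⟨Sum.inl ⟨s, Finset.mem_filter.2 ⟨Finset.mem_univ _, hx, h⟩⟩, rfl⟩
  have hgb : IsTranscendenceBasis k g := by
    rw [← isTranscendenceBasis_subtype_range hg, hr]
    exact hu3
  refine ⟨S', ?_, ?_⟩
  · have h1 := hgb.cardinalMk_eq (vv_basis k S)
    have h2 : Fintype.card (S' ⊕ Fin D) = Fintype.card (Option S) := by
      have := congrArg Cardinal.toNat h1
      simpa using this
    simp only [Fintype.card_sum, Fintype.card_coe, Fintype.card_fin, Fintype.card_option] at h2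
    omega
  · exact (AlgebraicIndependent.sumElim_iff.1 hgb.1).2

private theorem exists_N (E r : ℕ) : ∃ N, 0 < N ∧ (N + E) ^ r ≤ 2 * N ^ r := by
  refine ⟨2 * r * E + 1, by omega, ?_⟩
  set N := 2 * r * E + 1 with hN
  have h : ∀ j : ℕ, ((N + E : ℤ)) ^ j * (N - j * E) ≤ (N : ℤ) ^ (j + 1) := by
    intro j
    induction j with
    | zero => simp
    | succ j ih =>
      have hE : (0 : ℤ) ≤ E := by positivity
      have hN0 : (0 : ℤ) ≤ N := by positivity
      have h1 : ((N : ℤ) + E) * (N - ((j + 1 : ℕ) : ℤ) * E) ≤ N * (N - j * E) := by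
        push_cast
        nlinarith [mul_nonneg (mul_nonneg (by positivity : (0:ℤ) ≤ (j:ℤ) + 1) hE) hE]
      calc ((N : ℤ) + E) ^ (j + 1) * (N - ((j + 1 : ℕ) : ℤ) * E)
          = (N + E : ℤ) ^ j * (((N : ℤ) + E) * (N - ((j + 1 : ℕ) : ℤ) * E)) := by ring
        _ ≤ (N + E : ℤ) ^ j * (N * (N - j * E)) := by
            exact mul_le_mul_of_nonneg_left h1 (by positivity)
        _ = N * ((N + E : ℤ) ^ j * (N - j * E)) := by ring
        _ ≤ N * (N : ℤ) ^ (j + 1) := mul_le_mul_of_nonneg_left ih hN0
        _ = (N : ℤ) ^ (j + 1 + 1) := by ring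
  have h2 := h r
  have h3 : (N : ℤ) = 2 * r * E + 1 := by rw [hN]; push_cast; ring
  have hpos : (0 : ℤ) < N := by rw [h3]; positivity
  have h4 : ((N + E : ℤ)) ^ r * N ≤ (2 * (N : ℤ) ^ r) * N := by
    have h5 : (N : ℤ) ≤ 2 * (N - r * E) := by rw [h3]; nlinarith
    calc ((N + E : ℤ)) ^ r * N ≤ ((N + E : ℤ)) ^ r * (2 * (N - r * E)) :=
          mul_le_mul_of_nonneg_left h5 (by positivity)
      _ = 2 * (((N + E : ℤ)) ^ r * (N - r * E)) := by ring
      _ ≤ 2 * (N : ℤ) ^ (r + 1) := by linarith
      _ = (2 * (N : ℤ) ^ r) * N := by ring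
  have h6 := le_of_mul_le_mul_right h4 hpos
  exact_mod_cast h6

private theorem num_ineq (E D r N : ℕ) (hN : 0 < N)
    (h : (N + E * (D + 2) * Tb E (D + 1)) ^ r ≤ 2 * N ^ r) :
    ((D + 2) * Tb E (D + 1)) * ((N + E * (D + 2) * Tb E (D + 1)) ^ r * (E * (D + 2) * Tb E (D + 1) + 1) ^ D) <
      N ^ r * (Tb E (D + 1) ^ (D + 1) * Tb E (D + 1)) := by
  set T := Tb E (D + 1) with hT
  have hT1 : 1 ≤ T := by rw [hT]; unfold Tb; omega
  have h1 : E * (D + 2) * T + 1 ≤ (E * (D + 2) + 1) * T := by nlinarith
  have h2 : (E * (D + 2) * T + 1) ^ D ≤ (E * (D + 2) + 1) ^ D * T ^ D := by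
    rw [← mul_pow]; exact Nat.pow_le_pow_left h1 D
  have h3 : (D + 2) * (2 * (E * (D + 2) + 1) ^ D) < T := by
    have : T = 2 * (E * (D + 1 + 1) + 1) ^ (D + 1) * (D + 1 + 2) + 1 := by rw [hT]; rfl
    rw [this]
    have h4 : (E * (D + 2) + 1) ^ D ≤ (E * (D + 1 + 1) + 1) ^ (D + 1) :=
      Nat.pow_le_pow_right (by omega) (by omega)
    have h5 := Nat.mul_le_mul_left (2 * (D + 2)) h4
    generalize (E * (D + 1 + 1) + 1) ^ (D + 1) = x at h5 ⊢
    generalize (E * (D + 2) + 1) ^ D = y at h5 ⊢
    calc (D + 2) * (2 * y) = 2 * (D + 2) * y := by ring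
      _ ≤ 2 * (D + 2) * x := h5
      _ ≤ 2 * x * (D + 1 + 2) := by nlinarith
      _ < 2 * x * (D + 1 + 2) + 1 := Nat.lt_succ_self _
  have hTD : 0 < T ^ (D + 1) := by positivity
  have hNr : 0 < N ^ r := by positivity
  calc ((D + 2) * T) * ((N + E * (D + 2) * T) ^ r * (E * (D + 2) * T + 1) ^ D)
      ≤ ((D + 2) * T) * ((2 * N ^ r) * ((E * (D + 2) + 1) ^ D * T ^ D)) :=
        Nat.mul_le_mul_left _ (Nat.mul_le_mul h h2)
    _ = N ^ r * (T ^ (D + 1) * ((D + 2) * (2 * (E * (D + 2) + 1) ^ D))) := by ring
    _ < N ^ r * (T ^ (D + 1) * T) := by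
        apply Nat.mul_lt_mul_of_pos_left _ hNr
        exact Nat.mul_lt_mul_of_pos_left h3 hTD

omit [Fintype S] in
private theorem deg_tz_some (q : MvPolynomial S k) (s : S) : degreeOf (some s) (tz q) ≤ q.totalDegree := by
  classical
  unfold tz
  refine (degreeOf_mul_le _ _ _).trans ?_
  rw [degreeOf_X, if_neg (by simp), zero_add, degreeOf_rename_of_injective (Option.some_injective _)]
  exact degreeOf_le_totalDegree _ _

omit [Fintype S] in
private theorem deg_tz_none (q : MvPolynomial S k) : degreeOf none (tz q) ≤ 1 := by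
  classical
  unfold tz
  refine (degreeOf_mul_le _ _ _).trans ?_
  rw [degreeOf_X, if_pos rfl]
  have : degreeOf (none : Option S) (rename some q) < 1 := by
    rw [degreeOf_lt_iff one_pos]
    intro m hm
    rw [support_rename_of_injective (Option.some_injective _), Finset.mem_image] at hm
    obtain ⟨m', _, rfl⟩ := hm
    rw [Finsupp.mapDomain_of_notMem_range _ _ (by simp)]
    exact one_pos
  omega

private theorem count_rel [DecidableEq S] {D E : ℕ} (p : Fin D → MvPolynomial S k) (w : MvPolynomial S k)
    (hp : ∀ l, (p l).totalDegree ≤ E) (hw : w.totalDegree ≤ E) (S' : Finset S)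
    (hD : D + S'.card = Fintype.card S + 1) :
    ∃ (N : ℕ) (a : (S' → Fin N) × ((Fin D → Fin (Tb E D)) × Fin (Tb E D)) → k), a ≠ 0 ∧
      ∑ i, a i • ((∏ s : S', (X (some s.1) : MvPolynomial (Option S) k) ^ (i.1 s : ℕ)) *
        ((∏ l, tz (p l) ^ (i.2.1 l : ℕ)) * tz w ^ (i.2.2 : ℕ))) = 0 := by
  obtain ⟨D, rfl⟩ : ∃ D', D = D' + 1 := by
    refine ⟨D - 1, ?_⟩
    have := Finset.card_le_univ S'
    omega
  have hT1 : 1 ≤ Tb E (D + 1) := by unfold Tb; omega
  set T := Tb E (D + 1) with hT
  obtain ⟨N, hN, hNr⟩ := exists_N (E * (D + 2) * T) S'.card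
  have hnum := num_ineq E D S'.card N hN hNr
  rw [← hT] at hnum
  refine ⟨N, ?_⟩
  let c : Option S → ℕ := fun o => o.elim ((D + 2) * T)
    (fun s => if s ∈ S' then N + E * (D + 2) * T else E * (D + 2) * T + 1)
  let box : Finset (Option S →₀ ℕ) :=
    (Fintype.piFinset fun o => Finset.range (c o)).map Finsupp.equivFunOnFinite.symm.toEmbedding
  have hbox : box.card = ((D + 2) * T) * ((N + E * (D + 2) * T) ^ S'.card * (E * (D + 2) * T + 1) ^ D) := by
    simp only [box, Finset.card_map, Fintype.card_piFinset, Finset.card_range, c, Fintype.prod_option,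
      Option.elim_none, Option.elim_some]
    rw [Finset.prod_ite, Finset.prod_const, Finset.prod_const]
    have h1 : (Finset.univ.filter fun s => s ∈ S').card = S'.card := by
      congr 1; ext s; simp
    have h2 : (Finset.univ.filter fun s => s ∉ S').card = D := by
      have h3 := Finset.card_filter_add_card_filter_not (s := (Finset.univ : Finset S)) (fun s => s ∈ S')
      rw [h1, Finset.card_univ] at h3
      omega
    rw [h1, h2]
  refine count_box _ box ?_ ?_
  · rintro ⟨κ, ν, j⟩ m hm
    have hlt : ∀ o, m o < c o := by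
      intro o
      refine lt_of_le_of_lt (monomial_le_degreeOf o hm) ?_
      refine lt_of_le_of_lt ((degreeOf_mul_le _ _ _).trans (Nat.add_le_add_left (degreeOf_mul_le _ _ _) _)) ?_
      have hν : ∀ l, (ν l : ℕ) ≤ T - 1 := fun l => by have := (ν l).2; omega
      have hj : (j : ℕ) ≤ T - 1 := by have := j.2; omega
      cases o with
      | none =>
        have h1 : degreeOf none (∏ s : S', (X (some s.1) : MvPolynomial (Option S) k) ^ (κ s : ℕ)) = 0 := by
          refine Nat.le_zero.1 ((degreeOf_prod_le _ _ _).trans ?_)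
          refine (Finset.sum_eq_zero fun s _ => ?_).le
          refine Nat.le_zero.1 ((degreeOf_pow_le _ _ _).trans ?_)
          rw [degreeOf_X, if_neg (by simp), mul_zero]
        have h2 : degreeOf none (∏ l, tz (p l) ^ (ν l : ℕ)) ≤ (D + 1) * (T - 1) := by
          refine (degreeOf_prod_le _ _ _).trans ?_
          refine (Finset.sum_le_card_nsmul _ _ (T - 1) fun l _ => ?_).trans (by simp)
          refine (degreeOf_pow_le _ _ _).trans ?_
          calc (ν l : ℕ) * degreeOf none (tz (p l)) ≤ (ν l : ℕ) * 1 := Nat.mul_le_mul_left _ (deg_tz_none _)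
            _ ≤ T - 1 := by rw [mul_one]; exact hν l
        have h3 : degreeOf none (tz w ^ (j : ℕ)) ≤ T - 1 := by
          refine (degreeOf_pow_le _ _ _).trans ?_
          calc (j : ℕ) * degreeOf none (tz w) ≤ (j : ℕ) * 1 := Nat.mul_le_mul_left _ (deg_tz_none _)
            _ ≤ T - 1 := by rw [mul_one]; exact hj
        show _ < (D + 2) * T
        dsimp only at h1 h2 h3 ⊢
        rw [h1]
        have h4 : (D + 1) * (T - 1) + (T - 1) = (D + 2) * (T - 1) := by ring
        have h5 : (D + 2) * (T - 1) < (D + 2) * T := Nat.mul_lt_mul_of_pos_left (by omega) (by omega)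
        omega
      | some s =>
        have h1 : degreeOf (some s) (∏ s : S', (X (some s.1) : MvPolynomial (Option S) k) ^ (κ s : ℕ)) ≤
            if s ∈ S' then N - 1 else 0 := by
          refine (degreeOf_prod_le _ _ _).trans ?_
          have h1' : ∀ s' : S', degreeOf (some s) ((X (some s'.1) : MvPolynomial (Option S) k) ^ (κ s' : ℕ)) ≤
              if s = s'.1 then (κ s' : ℕ) else 0 := by
            intro s'
            refine (degreeOf_pow_le _ _ _).trans ?_
            rw [degreeOf_X]
            by_cases hs : s = s'.1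
            · simp [hs]
            · simp [hs]
          refine (Finset.sum_le_sum fun s' _ => h1' s').trans ?_
          by_cases hs : s ∈ S'
          · rw [if_pos hs, Finset.sum_eq_single ⟨s, hs⟩]
            · simp only [if_true]
              have := (κ ⟨s, hs⟩).2; omega
            · intro b _ hb
              rw [if_neg (fun h => hb (Subtype.ext h.symm))]
            · intro h; exact absurd (Finset.mem_univ _) h
          · rw [if_neg hs]
            refine (Finset.sum_eq_zero fun s' _ => ?_).le
            rw [if_neg (fun h : s = s'.1 => hs (h ▸ s'.2))]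
        have h2 : degreeOf (some s) (∏ l, tz (p l) ^ (ν l : ℕ)) ≤ (D + 1) * ((T - 1) * E) := by
          refine (degreeOf_prod_le _ _ _).trans ?_
          refine (Finset.sum_le_card_nsmul _ _ ((T - 1) * E) fun l _ => ?_).trans (by simp)
          refine (degreeOf_pow_le _ _ _).trans ?_
          exact Nat.mul_le_mul (hν l) ((deg_tz_some _ _).trans (hp l))
        have h3 : degreeOf (some s) (tz w ^ (j : ℕ)) ≤ (T - 1) * E := by
          refine (degreeOf_pow_le _ _ _).trans ?_
          exact Nat.mul_le_mul hj ((deg_tz_some _ _).trans hw)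
        have h4 : (D + 1) * ((T - 1) * E) + (T - 1) * E = E * (D + 2) * (T - 1) := by ring
        have h5 : E * (D + 2) * (T - 1) ≤ E * (D + 2) * T := Nat.mul_le_mul_left _ (by omega)
        show _ < if s ∈ S' then N + E * (D + 2) * T else E * (D + 2) * T + 1
        by_cases hs : s ∈ S'
        · rw [if_pos hs] at h1 ⊢
          dsimp only at h1 h2 h3 ⊢
          omega
        · rw [if_neg hs] at h1 ⊢
          dsimp only at h1 h2 h3 ⊢
          omega
    refine Finset.mem_map.2 ⟨fun o => m o, ?_, ?_⟩
    · rw [Fintype.mem_piFinset]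
      exact fun o => Finset.mem_range.2 (hlt o)
    · ext o; rfl
  · rw [hbox]
    refine lt_of_lt_of_le hnum ?_
    simp only [Fintype.card_prod, Fintype.card_pi, Fintype.card_fin, Finset.prod_const, Finset.card_univ,
      Fintype.card_coe]
    exact le_rfl

omit [Fintype S] in
private theorem tk_one : tk (1 : MvPolynomial S k) = vv k S none := by
  unfold tk tz vv
  rw [map_one, mul_one]

theorem count {D E : ℕ} (p : Fin D → MvPolynomial S k) (w : MvPolynomial S k) (hp : ∀ l, (p l).totalDegree ≤ E)
    (hw : w.totalDegree ≤ E) (hP : AlgebraicIndependent k fun l => tk (p l))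
    (ht : IsIntegral (Algebra.adjoin k (Set.range fun l => tk (p l))) (tk (1 : MvPolynomial S k)))
    (hθ : IsIntegral (Algebra.adjoin k (Set.range fun l => tk (p l))) (tk w)) :
    (minpoly (FP k fun l => tk (p l)) (tk w)).natDegree ≤ Tb E D := by
  classical
  set P : Fin D → KK k S := fun l => tk (p l) with hPdef
  set y : KK k S := tk w with hy
  obtain ⟨S', hcard, hind⟩ := exists_compl P hP (by rw [← tk_one]; exact ht)
  obtain ⟨N, a, ha0, ha⟩ := count_rel p w hp hw S' hcard
  let A := Algebra.adjoin k (Set.range P)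
  let B := Algebra.adjoin A {y}
  have hBint : Algebra.IsIntegral A B := le_integralClosure_iff_isIntegral.1 (adjoin_le_integralClosure hθ)
  have hBalg : Algebra.IsAlgebraic A B := inferInstance
  have hindB : AlgebraicIndependent B (fun s : S' => vv k S (some s)) := hind.extendScalars B
  let PB : Fin D → B := fun l => algebraMap A B ⟨P l, Algebra.subset_adjoin ⟨l, rfl⟩⟩
  let yB : B := ⟨y, Algebra.subset_adjoin rfl⟩
  let b : (S' → Fin N) → B := fun κ => ∑ i : (Fin D → Fin (Tb E D)) × Fin (Tb E D),
    a (κ, i) • ((∏ l, PB l ^ (i.1 l : ℕ)) * yB ^ (i.2 : ℕ))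
  have hb : ∀ κ, algebraMap B (KK k S) (b κ) = ∑ i : (Fin D → Fin (Tb E D)) × Fin (Tb E D),
      a (κ, i) • ((∏ l, P l ^ (i.1 l : ℕ)) * y ^ (i.2 : ℕ)) := by
    intro κ
    show algebraMap B (KK k S) (∑ i : (Fin D → Fin (Tb E D)) × Fin (Tb E D),
      a (κ, i) • ((∏ l, PB l ^ (i.1 l : ℕ)) * yB ^ (i.2 : ℕ))) = _
    rw [map_sum]
    refine Finset.sum_congr rfl fun i _ => ?_
    have h1 : algebraMap B (KK k S) ((∏ l, PB l ^ (i.1 l : ℕ)) * yB ^ (i.2 : ℕ)) =
        (∏ l, P l ^ (i.1 l : ℕ)) * y ^ (i.2 : ℕ) := by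
      rw [map_mul, map_prod, map_pow]
      congr 1
    rw [← h1]
    rfl
  let toF : (S' → Fin N) → (S' →₀ ℕ) := fun κ => Finsupp.equivFunOnFinite.symm fun s => (κ s : ℕ)
  have htoF : Function.Injective toF := by
    intro κ κ' h
    funext s
    have := DFunLike.congr_fun h s
    exact Fin.ext this
  let Q : MvPolynomial S' B := ∑ κ, monomial (toF κ) (b κ)
  have hQ : aeval (fun s : S' => vv k S (some s)) Q = 0 := by
    have h1 := congrArg (algebraMap (MvPolynomial (Option S) k) (KK k S)) ha
    rw [map_zero, map_sum, Fintype.sum_prod_type] at h1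
    rw [← h1]
    simp only [Q, map_sum]
    refine Finset.sum_congr rfl fun κ _ => ?_
    rw [aeval_monomial, hb, Finset.sum_mul]
    refine Finset.sum_congr rfl fun i _ => ?_
    have h2 : (toF κ).prod (fun s e => vv k S (some s.1) ^ e) =
        algebraMap (MvPolynomial (Option S) k) (KK k S) (∏ s : S', (X (some s.1) : MvPolynomial (Option S) k) ^ (κ s : ℕ)) := by
      rw [Finsupp.prod_fintype _ _ (fun s => pow_zero _), map_prod]
      exact Finset.prod_congr rfl fun s _ => (map_pow _ _ _).symm
    have h3 : algebraMap (MvPolynomial (Option S) k) (KK k S) ((∏ l, tz (p l) ^ (i.1 l : ℕ)) * tz w ^ (i.2 : ℕ)) =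
        (∏ l, P l ^ (i.1 l : ℕ)) * y ^ (i.2 : ℕ) := by
      rw [map_mul, map_prod, map_pow]
      congr 1
      exact Finset.prod_congr rfl fun l _ => map_pow _ _ _
    rw [h2, ← h3]
    simp only [Algebra.smul_def, map_mul, ← IsScalarTower.algebraMap_apply k (MvPolynomial (Option S) k) (KK k S)]
    ring
  have hQ0 : Q = 0 := by
    have := hindB
    exact this (by rw [hQ, map_zero])
  have hbz : ∀ κ, b κ = 0 := by
    intro κ
    have h1 : coeff (toF κ) Q = b κ := by
      simp only [Q, coeff_sum, coeff_monomial]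
      rw [Finset.sum_eq_single κ]
      · rw [if_pos rfl]
      · intro κ' _ hne
        rw [if_neg (fun h => hne (htoF h))]
      · intro h; exact absurd (Finset.mem_univ _) h
    rw [← h1, hQ0, coeff_zero]
  obtain ⟨⟨κ0, ν0, j0⟩, hne⟩ := Function.ne_iff.1 ha0
  have hrel := hb κ0
  rw [hbz κ0, map_zero] at hrel
  -- the polynomial over the field
  let PF : Fin D → FP k P := fun l => ⟨P l, IntermediateField.subset_adjoin _ _ ⟨l, rfl⟩⟩
  let cc : Fin (Tb E D) → FP k P := fun j => ∑ ν : Fin D → Fin (Tb E D), a (κ0, ν, j) • ∏ l, PF l ^ (ν l : ℕ)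
  let q : Polynomial (FP k P) := ∑ j : Fin (Tb E D), Polynomial.monomial (j : ℕ) (cc j)
  have hcc : ∀ j, algebraMap (FP k P) (KK k S) (cc j) = ∑ ν : Fin D → Fin (Tb E D), a (κ0, ν, j) • ∏ l, P l ^ (ν l : ℕ) := by
    intro j
    show algebraMap (FP k P) (KK k S) (∑ ν : Fin D → Fin (Tb E D), a (κ0, ν, j) • ∏ l, PF l ^ (ν l : ℕ)) = _
    rw [map_sum]
    refine Finset.sum_congr rfl fun ν _ => ?_
    have h1 : algebraMap (FP k P) (KK k S) (∏ l, PF l ^ (ν l : ℕ)) = ∏ l, P l ^ (ν l : ℕ) := by
      rw [map_prod]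
      exact Finset.prod_congr rfl fun l _ => map_pow _ _ _
    rw [← h1]
    rfl
  have hq0 : Polynomial.aeval y q = 0 := by
    simp only [q, map_sum, Polynomial.aeval_monomial, hcc]
    rw [hrel, Fintype.sum_prod_type, Finset.sum_comm]
    refine Finset.sum_congr rfl fun j _ => ?_
    rw [Finset.sum_mul]
    exact Finset.sum_congr rfl fun ν _ => smul_mul_assoc _ _ _
  have hqne : q ≠ 0 := by
    intro h
    have h1 : q.coeff (j0 : ℕ) = cc j0 := by
      simp only [q, Polynomial.finsetSum_coeff, Polynomial.coeff_monomial]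
      rw [Finset.sum_eq_single j0]
      · rw [if_pos rfl]
      · intro j _ hj
        rw [if_neg (fun h => hj (Fin.ext h))]
      · intro h; exact absurd (Finset.mem_univ _) h
    rw [h, Polynomial.coeff_zero] at h1
    have h2 := hcc j0
    rw [← h1, map_zero] at h2
    let toG : (Fin D → Fin (Tb E D)) → (Fin D →₀ ℕ) := fun ν => Finsupp.equivFunOnFinite.symm fun l => (ν l : ℕ)
    have htoG : Function.Injective toG := by
      intro ν ν' h
      funext l
      have := DFunLike.congr_fun h l
      exact Fin.ext this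
    have h3 : aeval P (∑ ν : Fin D → Fin (Tb E D), monomial (toG ν) (a (κ0, ν, j0))) = 0 := by
      rw [map_sum, h2]
      refine Finset.sum_congr rfl fun ν _ => ?_
      rw [aeval_monomial, Finsupp.prod_fintype _ _ (fun s => pow_zero _), ← Algebra.smul_def]
      rfl
    have h4 : (∑ ν : Fin D → Fin (Tb E D), monomial (toG ν) (a (κ0, ν, j0)) : MvPolynomial (Fin D) k) = 0 :=
      hP (by rw [h3, map_zero])
    have h5 := congrArg (coeff (toG ν0)) h4
    simp only [coeff_sum, coeff_monomial, coeff_zero] at h5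
    rw [Finset.sum_eq_single ν0] at h5
    · rw [if_pos rfl] at h5
      exact hne h5
    · intro ν _ hν
      rw [if_neg (fun h => hν (htoG h))]
    · intro h; exact absurd (Finset.mem_univ _) h
  have h1 := minpoly.degree_le_of_ne_zero (FP k P) y hqne hq0
  refine (Polynomial.natDegree_le_natDegree h1).trans ?_
  refine Polynomial.natDegree_sum_le_of_forall_le _ _ fun j _ => ?_
  exact (Polynomial.natDegree_monomial_le _).trans j.2.le

end Pool.Agent.VPE
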