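import Pool.Agent.VPE.Base

/-!
# [VPE-PRIM] a primitive element which is a combination of the generators

The embeddings `σ` of `L` in an algebraic closure of `L` over `F` (there are `finrank F L` of them, `AlgHom.card`) are determined by the vectors
`(σ (y j))_j`, as the `y j` generate `L`. For `σ ≠ σ'` the vectors differ. Choose `lam j = a ^ e j` (`e : J ≃ Fin N`) with `a ∈ k` such that the values
`∑ a ^ e j (σ (y j) - σ' (y j))` are `≠ 0` for all pairs `σ ≠ σ'` (finitely many nonzero polynomials in `a` over the closure have finitely many roots, `k` is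
infinite). Then the conjugates `σ θ` of `θ = ∑ lam j • y j` are distinct roots of the minimal polynomial, so `finrank F L ≤ natDegree`; the other inequality is
`minpoly.natDegree_le`.
-/

set_option autoImplicit false

open MvPolynomial

namespace Pool.Agent.VPE

/-- an element of an infinite field at which finitely many nonzero polynomials over an extension do not vanish -/
private theorem exists_good {k A : Type} [Field k] [Infinite k] [Field A] (f : k →+* A) (p : Polynomial A) (hp : p ≠ 0) :
    ∃ a : k, p.eval (f a) ≠ 0 := by
  by_contra hc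
  push Not at hc
  have hsub : Set.range f ⊆ {x | p.IsRoot x} := by
    rintro _ ⟨a, rfl⟩
    exact hc a
  exact (Set.infinite_range_of_injective f.injective) ((Polynomial.finite_setOfPred_isRoot hp).subset hsub)

theorem prim {k F L : Type} [Field k] [Infinite k] [Field F] [Field L] [Algebra F L] [FiniteDimensional F L] [CharZero F]
    [Algebra k F] [Algebra k L] [IsScalarTower k F L] {J : Type} [Fintype J] (y : J → L)
    (hy : IntermediateField.adjoin F (Set.range y) = ⊤) :
    ∃ lam : J → k, Module.finrank F L = (minpoly F (∑ j, lam j • y j)).natDegree := by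
  classical
  let A : Type := AlgebraicClosure F
  let f : k →+* A := (algebraMap F A).comp (algebraMap k F)
  let e : J → ℕ := fun j => (Fintype.equivFin J j : ℕ)
  have he : Function.Injective e := fun a b h => (Fintype.equivFin J).injective (Fin.ext h)
  let q : (L →ₐ[F] A) × (L →ₐ[F] A) → Polynomial A := fun s =>
    ∑ j, Polynomial.C (s.1 (y j) - s.2 (y j)) * Polynomial.X ^ e j
  have hq : ∀ s : (L →ₐ[F] A) × (L →ₐ[F] A), s.1 ≠ s.2 → q s ≠ 0 := by
    intro s hs h0
    apply hs
    have hj : ∀ j, s.1 (y j) = s.2 (y j) := by
      intro j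
      have h1 : (q s).coeff (e j) = s.1 (y j) - s.2 (y j) := by
        simp only [q, Polynomial.finsetSum_coeff, Polynomial.coeff_C_mul, Polynomial.coeff_X_pow]
        rw [Finset.sum_eq_single j]
        · simp
        · intro b _ hb
          rw [if_neg (fun h => hb (he h.symm)), mul_zero]
        · intro h
          exact absurd (Finset.mem_univ j) h
      rw [h0, Polynomial.coeff_zero] at h1
      exact (sub_eq_zero.mp h1.symm)
    apply AlgHom.ext
    intro x
    have hx : x ∈ IntermediateField.adjoin F (Set.range y) := by
      rw [hy]; exact IntermediateField.mem_top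
    induction hx using IntermediateField.adjoin_induction with
    | mem x hx =>
      obtain ⟨j, rfl⟩ := hx
      exact hj j
    | algebraMap x => rw [AlgHom.commutes, AlgHom.commutes]
    | add x y _ _ h1 h2 => rw [map_add, map_add, h1, h2]
    | inv x _ h1 => rw [map_inv₀, map_inv₀, h1]
    | mul x y _ _ h1 h2 => rw [map_mul, map_mul, h1, h2]
  let P : Polynomial A := ∏ s : (L →ₐ[F] A) × (L →ₐ[F] A), if s.1 ≠ s.2 then q s else 1
  have hP : P ≠ 0 := by
    apply Finset.prod_ne_zero_iff.mpr
    intro s _
    by_cases hs : s.1 ≠ s.2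
    · rw [if_pos hs]; exact hq s hs
    · rw [if_neg hs]; exact one_ne_zero
  obtain ⟨a, ha⟩ := exists_good f P hP
  refine ⟨fun j => a ^ e j, ?_⟩
  symm
  rw [← Field.primitive_element_iff_minpoly_natDegree_eq,
    Field.primitive_element_iff_algHom_eq_of_eval' F A (fun x => IsAlgClosed.splits _)]
  intro s1 s2 h12
  by_contra hne
  apply ha
  have hev : ∀ s : L →ₐ[F] A, s (∑ j, a ^ e j • y j) = ∑ j, f a ^ e j * s (y j) := by
    intro s
    rw [map_sum]
    refine Finset.sum_congr rfl fun j _ => ?_
    rw [Algebra.smul_def, map_mul, IsScalarTower.algebraMap_apply k F L, AlgHom.commutes]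
    congr 1
    rw [map_pow, map_pow]
    rfl
  have h0 : (q (s1, s2)).eval (f a) = 0 := by
    have h3 : (q (s1, s2)).eval (f a) = ∑ j, (s1 (y j) - s2 (y j)) * f a ^ e j := by
      simp only [q, Polynomial.eval_finsetSum, Polynomial.eval_mul, Polynomial.eval_C, Polynomial.eval_pow, Polynomial.eval_X]
    have h4 : (∑ j, f a ^ e j * s1 (y j)) = ∑ j, f a ^ e j * s2 (y j) := by
      rw [← hev, ← hev]; exact h12
    rw [h3]
    calc ∑ j, (s1 (y j) - s2 (y j)) * f a ^ e j
        = ∑ j, f a ^ e j * s1 (y j) - ∑ j, f a ^ e j * s2 (y j) := by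
          rw [← Finset.sum_sub_distrib]
          exact Finset.sum_congr rfl fun j _ => by ring
      _ = 0 := by rw [h4, sub_self]
  rw [Polynomial.eval_prod]
  apply Finset.prod_eq_zero (Finset.mem_univ (s1, s2))
  rw [if_pos hne]
  exact h0

end Pool.Agent.VPE
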