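import Pool.Agent.VPE.NormP

/-!
# [VPE-SCALE] the norm under scaling of `t`

For `τ ≠ 0` let `s` be the automorphism of `KK k S` over `k` which fixes the `X (some i)` and maps `t = X none` to `τ t` (automorphism of the polynomial ring,
extended to the fraction field: `IsFractionRing.fieldEquivOfAlgEquiv` or `IsFractionRing.ringEquivOfRingEquiv`). It maps `tk w` to `τ • tk w`. So it maps
`FP k P` and `LP k P y` onto themselves, for `P l = tk (p l)`, `y j = tk (z j)`, and the element `el P y T lam` to `el P y T (τ • lam)`. By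
`Algebra.norm_eq_of_equiv_equiv` it maps the norm to the norm: `s (nrm P y T lam) = nrm P y T (τ • lam)`. And `s (aeval P g) = aeval (τ • P) g`.
-/

set_option autoImplicit false

open MvPolynomial

namespace Pool.Agent.VPE

variable {k : Type} [Field k] {S : Type}

section

variable {K : Type} [Field K] [Algebra k K] {D : ℕ} {P : Fin D → K} {J : Type} {y : J → K}

private theorem sc_memF (s : K ≃ₐ[k] K) {τ : k} (hP : ∀ l, s (P l) = τ • P l) : ∀ x ∈ FP k P, s x ∈ FP k P := by
  intro x hx
  induction hx using IntermediateField.adjoin_induction with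
  | mem x hx =>
    obtain ⟨l, rfl⟩ := hx
    rw [hP, Algebra.smul_def]
    exact mul_mem ((FP k P).algebraMap_mem τ) (IntermediateField.subset_adjoin _ _ ⟨l, rfl⟩)
  | algebraMap a =>
    rw [s.commutes]
    exact (FP k P).algebraMap_mem a
  | add a b _ _ ha hb =>
    rw [map_add]
    exact add_mem ha hb
  | inv a _ ha =>
    rw [map_inv₀]
    exact inv_mem ha
  | mul a b _ _ ha hb =>
    rw [map_mul]
    exact mul_mem ha hb

private theorem sc_memL (s : K ≃ₐ[k] K) {τ : k} (hF : ∀ x ∈ FP k P, s x ∈ FP k P) (hy : ∀ j, s (y j) = τ • y j) :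
    ∀ x ∈ LP k P y, s x ∈ LP k P y := by
  intro x hx
  induction hx using IntermediateField.adjoin_induction with
  | mem x hx =>
    obtain ⟨l, rfl⟩ := hx
    rw [hy, Algebra.smul_def]
    refine mul_mem ?_ (IntermediateField.subset_adjoin _ _ ⟨l, rfl⟩)
    have := (LP k P y).algebraMap_mem (algebraMap k (FP k P) τ)
    rwa [← IsScalarTower.algebraMap_apply] at this
  | algebraMap a =>
    exact (LP k P y).algebraMap_mem ⟨s a, hF a a.2⟩
  | add a b _ _ ha hb =>
    rw [map_add]
    exact add_mem ha hb
  | inv a _ ha =>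
    rw [map_inv₀]
    exact inv_mem ha
  | mul a b _ _ ha hb =>
    rw [map_mul]
    exact mul_mem ha hb

private theorem sc_nrm [Fintype J] (s : K ≃ₐ[k] K) {τ : k} (hτ : τ ≠ 0) (hP : ∀ l, s (P l) = τ • P l)
    (hy : ∀ j, s (y j) = τ • y j) (T : k) (lam : J → k) :
    s (nrm P y T lam) = nrm P y T (fun j => τ * lam j) := by
  have hP' : ∀ l, s.symm (P l) = τ⁻¹ • P l := by
    intro l
    rw [AlgEquiv.symm_apply_eq, map_smul, hP, smul_smul, inv_mul_cancel₀ hτ, one_smul]
  have hy' : ∀ j, s.symm (y j) = τ⁻¹ • y j := by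
    intro l
    rw [AlgEquiv.symm_apply_eq, map_smul, hy, smul_smul, inv_mul_cancel₀ hτ, one_smul]
  have hF := sc_memF s hP
  have hF' := sc_memF s.symm hP'
  have hL := sc_memL s hF hy
  have hL' := sc_memL s.symm hF' hy'
  let e₁ : FP k P ≃+* FP k P :=
    { toFun := fun x => ⟨s x, hF x x.2⟩
      invFun := fun x => ⟨s.symm x, hF' x x.2⟩
      left_inv := fun x => Subtype.ext (s.symm_apply_apply x)
      right_inv := fun x => Subtype.ext (s.apply_symm_apply x)
      map_mul' := fun a b => Subtype.ext (map_mul s (a : K) b)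
      map_add' := fun a b => Subtype.ext (map_add s (a : K) b) }
  let e₂ : LP k P y ≃+* LP k P y :=
    { toFun := fun x => ⟨s x, hL x x.2⟩
      invFun := fun x => ⟨s.symm x, hL' x x.2⟩
      left_inv := fun x => Subtype.ext (s.symm_apply_apply x)
      right_inv := fun x => Subtype.ext (s.apply_symm_apply x)
      map_mul' := fun a b => Subtype.ext (map_mul s (a : K) b)
      map_add' := fun a b => Subtype.ext (map_add s (a : K) b) }
  have he : RingHom.comp (algebraMap (FP k P) (LP k P y)) (e₁ : FP k P →+* FP k P) =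
      RingHom.comp (e₂ : LP k P y →+* LP k P y) (algebraMap (FP k P) (LP k P y)) := by
    ext x
    rfl
  have h1 := Algebra.norm_eq_of_equiv_equiv e₁ e₂ he (el P y T lam)
  have h2 : e₂ (el P y T lam) = el P y T (fun j => τ * lam j) := by
    apply Subtype.ext
    have c1 : ∀ mu : J → k, ((el P y T mu : LP k P y) : K) = algebraMap k K T - ∑ j, mu j • y j := by
      intro mu
      have c0 : ((el P y T mu : LP k P y) : K) = algebraMap (LP k P y) K (el P y T mu) := rfl
      rw [c0, el, map_sub, map_sum]
      rfl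
    have c2 : ((e₂ (el P y T lam) : LP k P y) : K) = s ((el P y T lam : LP k P y) : K) := rfl
    rw [c2, c1, c1, map_sub, s.commutes, map_sum]
    congr 1
    refine Finset.sum_congr rfl fun j _ => ?_
    rw [map_smul, hy, smul_smul, mul_comm]
  rw [h2] at h1
  unfold nrm
  rw [h1]
  have h3 : ∀ x : FP k P, s (algebraMap (FP k P) K (e₁.symm x)) = algebraMap (FP k P) K x := fun x =>
    s.apply_symm_apply x
  exact h3 _

private theorem sc_aeval (s : K ≃ₐ[k] K) (f : Fin D → K) (g : MvPolynomial (Fin D) k) :
    s (aeval f g) = aeval (fun l => s (f l)) g :=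
  MvPolynomial.comp_aeval_apply (φ := (s : K →ₐ[k] K)) f g

end

/-- scaling of `t` in the polynomial ring -/
private noncomputable def scP (k S : Type) [Field k] (τ : k) :
    MvPolynomial (Option S) k →ₐ[k] MvPolynomial (Option S) k :=
  aeval (fun o => o.elim (C τ * X none) (fun i => X (some i)))

private theorem scP_comp (τ σ : k) (h : τ * σ = 1) :
    (scP k S τ).comp (scP k S σ) = AlgHom.id k (MvPolynomial (Option S) k) := by
  apply MvPolynomial.algHom_ext
  intro o
  rcases o with _ | i
  · simp only [scP, AlgHom.comp_apply, aeval_X, Option.elim, map_mul, AlgHom.id_apply]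
    rw [← MvPolynomial.algebraMap_eq, AlgHom.commutes, MvPolynomial.algebraMap_eq, ← mul_assoc, ← C_mul, mul_comm σ τ, h, C_1,
      one_mul]
  · simp only [scP, AlgHom.comp_apply, aeval_X, Option.elim, AlgHom.id_apply]

private theorem scP_tz (τ : k) (w : MvPolynomial S k) : scP k S τ (tz w) = τ • tz w := by
  unfold tz
  have h : scP k S τ (rename some w) = rename some w := by
    unfold scP
    rw [aeval_rename]
    have : ((fun o : Option S => o.elim (C τ * X none) (fun i => X (some i)) : Option S → MvPolynomial (Option S) k) ∘ some)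
        = fun i => X (some i) := rfl
    rw [this]
    have hr : (rename some : MvPolynomial S k →ₐ[k] MvPolynomial (Option S) k) = aeval fun i => X (some i) := by
      apply MvPolynomial.algHom_ext
      intro i
      rw [rename_X, aeval_X]
    rw [hr]
  rw [map_mul, h]
  have h0 : scP k S τ (X none) = C τ * X none := by
    unfold scP
    rw [aeval_X]
    rfl
  rw [h0, smul_eq_C_mul, mul_assoc]

theorem scale {D : ℕ} (p : Fin D → MvPolynomial S k) {J : Type} [Fintype J] (z : J → MvPolynomial S k) {τ : k}
    (hτ : τ ≠ 0) (T : k) (lam : J → k) (g : MvPolynomial (Fin D) k)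
    (hg : aeval (fun l => tk (p l)) g = nrm (fun l => tk (p l)) (fun j => tk (z j)) T lam) :
    aeval (fun l => τ • tk (p l)) g = nrm (fun l => tk (p l)) (fun j => tk (z j)) T (fun j => τ * lam j) := by
  let e : MvPolynomial (Option S) k ≃ₐ[k] MvPolynomial (Option S) k :=
    AlgEquiv.ofAlgHom (scP k S τ) (scP k S τ⁻¹) (scP_comp _ _ (mul_inv_cancel₀ hτ)) (scP_comp _ _ (inv_mul_cancel₀ hτ))
  let s : KK k S ≃ₐ[k] KK k S := IsFractionRing.algEquivOfAlgEquiv e
  have hs : ∀ w : MvPolynomial S k, s (tk w) = τ • tk w := by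
    intro w
    have h1 : s (tk w) = algebraMap (MvPolynomial (Option S) k) (KK k S) (e (tz w)) :=
      IsFractionRing.algEquivOfAlgEquiv_algebraMap e (tz w)
    have h2 : e (tz w) = τ • tz w := scP_tz τ w
    rw [h1, h2, ← tz_smul]
    exact tk_smul τ w
  rw [← sc_nrm s hτ (fun l => hs (p l)) (fun j => hs (z j)) T lam, ← hg]
  rw [sc_aeval s]
  simp only [hs]

end Pool.Agent.VPE
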