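import Pool.Agent.VPE.NN
import Pool.Agent.VPE.Spec
import Pool.Agent.VPE.Scale
import Pool.Agent.VPE.Count
import Pool.Agent.VPE.Prim

/-!
# [VPE-CAYLEY] the norm form

`deg_bound`: let `G` be the polynomial of `norm_poly`, `T, lam ∈ k`, `g = eval (..) G` in `MvPolynomial (Fin D) k`. By `scale`, for `τ ≠ 0`,
`g (τ P) = (eval at T, τ lam of G) (P)` as polynomials in `P` (`P` algebraically independent). The right side is a polynomial in `τ` of degree at most
`G.totalDegree ≤ Δ`, for fixed `T`, `lam`; so every homogeneous component of `g` of degree `> Δ` is zero (`k` infinite; e.g. apply the linear form `coeff ν`, a polynomial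
identity in `τ`: `τ ^ |ν| * coeff ν g` is a polynomial of degree `≤ Δ` in `τ` for all `τ ≠ 0`). So all values of `G` at `T`, `lam` have total degree at most `Δ`; by `coeff_mem`-like argument
(the polynomials of degree `≤ Δ` are a subspace; use the linear forms `coeff ν` and `MvPolynomial.funext`) all coefficients of `G` have total degree at most `Δ`.
`cayley`: `G` regarded as polynomial in `Option J ⊕ Fin D` (`sumAlgEquiv`); `nn` gives `π`; with `P l = tk (∑ j, π l j • z j) = ∑ j, π l j • tk (z j)`; `count` for the
primitive element of `prim`, `∑ lam j • tk (z j) = tk (∑ lam j • z j)`, bounds `Δ = finrank`. `spec` with `p l = ∑ j, π l j * f j`.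
-/

set_option autoImplicit false

open MvPolynomial

namespace Pool.Agent.VPE

variable {k : Type} [Field k] [CharZero k] {S : Type} [Fintype S]

/-- coefficients under scaling of the variables -/
private theorem coeff_scale {k : Type} [Field k] {D : ℕ} (τ : k) (g : MvPolynomial (Fin D) k) (ν : Fin D →₀ ℕ) :
    coeff ν (aeval (fun l => C τ * X l : Fin D → MvPolynomial (Fin D) k) g) =
      τ ^ (∑ i, ν i) * coeff ν g := by
  induction g using MvPolynomial.induction_on' with
  | monomial m a =>
    have h1 : aeval (fun l => C τ * X l : Fin D → MvPolynomial (Fin D) k) (monomial m a) =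
        monomial m (a * τ ^ (∑ i, m i)) := by
      rw [aeval_monomial, Finsupp.prod_fintype _ _ (fun i => pow_zero _)]
      simp only [mul_pow]
      rw [Finset.prod_mul_distrib, Finset.prod_pow_eq_pow_sum, MvPolynomial.algebraMap_eq,
        MvPolynomial.monomial_eq, Finsupp.prod_fintype _ _ (fun i => pow_zero _), C_mul, C_pow]
      ring
    rw [h1, coeff_monomial, coeff_monomial]
    split_ifs with h
    · rw [h]; ring
    · simp
  | add p q hp hq =>
    rw [map_add, coeff_add, coeff_add, hp, hq]; ring

/-- the polynomial of the coefficients `coeff ν` -/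
private noncomputable def sect {k : Type} [Field k] {D : ℕ} {I : Type} (G : MvPolynomial I (MvPolynomial (Fin D) k))
    (ν : Fin D →₀ ℕ) : MvPolynomial I k := ∑ m ∈ G.support, monomial m (coeff ν (coeff m G))

private theorem coeff_sect {k : Type} [Field k] {D : ℕ} {I : Type} (G : MvPolynomial I (MvPolynomial (Fin D) k))
    (ν : Fin D →₀ ℕ) (m : I →₀ ℕ) : coeff m (sect G ν) = coeff ν (coeff m G) := by
  classical
  unfold sect
  rw [coeff_sum]
  simp only [coeff_monomial]
  rw [Finset.sum_ite_eq' G.support m]
  split_ifs with h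
  · rfl
  · rw [notMem_support_iff.1 h, coeff_zero]

private theorem totalDegree_sect {k : Type} [Field k] {D : ℕ} {I : Type} (G : MvPolynomial I (MvPolynomial (Fin D) k))
    (ν : Fin D →₀ ℕ) : (sect G ν).totalDegree ≤ G.totalDegree := by
  unfold sect
  refine totalDegree_finsetSum_le fun m hm => ?_
  refine (totalDegree_monomial_le _ _).trans ?_
  exact le_totalDegree hm

private theorem eval_sect {k : Type} [Field k] {D : ℕ} {I : Type} [Fintype I] (G : MvPolynomial I (MvPolynomial (Fin D) k))
    (ν : Fin D →₀ ℕ) (x : I → k) : eval x (sect G ν) = coeff ν (eval (fun o => C (x o)) G) := by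
  unfold sect
  rw [map_sum, eval_eq', coeff_sum]
  refine Finset.sum_congr rfl fun m _ => ?_
  rw [eval_monomial, Finsupp.prod_fintype _ _ (fun i => pow_zero _)]
  have : (∏ i, (C (x i) : MvPolynomial (Fin D) k) ^ m i) = C (∏ i, x i ^ m i) := by
    rw [map_prod]
    simp only [C_pow]
  rw [this, mul_comm (coeff m G), coeff_C_mul, mul_comm]

theorem deg_bound {D : ℕ} (p : Fin D → MvPolynomial S k) (hP : AlgebraicIndependent k fun l => tk (p l)) {J : Type}
    [Fintype J] (z : J → MvPolynomial S k) (Δ : ℕ) (G : MvPolynomial (Option J) (MvPolynomial (Fin D) k))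
    (hG : G.totalDegree ≤ Δ)
    (h : ∀ (T : k) (lam : J → k), aeval (fun l => tk (p l)) (eval (fun o => C (o.elim T lam)) G) =
      nrm (fun l => tk (p l)) (fun j => tk (z j)) T lam) (m : Option J →₀ ℕ) : (coeff m G).totalDegree ≤ Δ := by
  -- scaling
  have hsc : ∀ (T : k) (lam : J → k) (τ : k), τ ≠ 0 → ∀ ν : Fin D →₀ ℕ,
      τ ^ (∑ i, ν i) * coeff ν (eval (fun o => C (o.elim T lam)) G) =
        coeff ν (eval (fun o => C (o.elim T (fun j => τ * lam j))) G) := by
    intro T lam τ hτ ν
    have h1 := scale p z hτ T lam _ (h T lam)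
    rw [← h T (fun j => τ * lam j)] at h1
    have h2 : aeval (fun l => τ • tk (p l)) (eval (fun o => C (o.elim T lam)) G) =
        aeval (fun l => tk (p l)) (aeval (fun l => C τ * X l : Fin D → MvPolynomial (Fin D) k)
          (eval (fun o => C (o.elim T lam)) G)) := by
      rw [← AlgHom.comp_apply]
      congr 1
      refine MvPolynomial.algHom_ext fun l => ?_
      rw [AlgHom.comp_apply, aeval_X, aeval_X, map_mul, aeval_X, aeval_C, Algebra.smul_def]
    rw [h2] at h1
    have h3 := hP h1
    rw [← h3, coeff_scale]
  -- high coefficients vanish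
  have hv : ∀ ν : Fin D →₀ ℕ, Δ < ∑ i, ν i → sect G ν = 0 := by
    intro ν hν
    refine MvPolynomial.funext fun x => ?_
    rw [map_zero]
    set T := x none with hT
    set lam : J → k := fun j => x (some j) with hlam
    have hx : (fun o => (C (x o) : MvPolynomial (Fin D) k)) = fun o => C (o.elim T lam) := by
      funext o
      cases o <;> rfl
    set c := eval x (sect G ν) with hc
    -- univariate polynomial
    let Q : Polynomial k := aeval (fun o : Option J => o.elim (Polynomial.C T)
      (fun j => Polynomial.C (lam j) * Polynomial.X)) (sect G ν)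
    have hQdeg : Q.natDegree ≤ Δ := by
      have := MvPolynomial.aeval_natDegree_le (sect G ν) ((totalDegree_sect G ν).trans hG)
        (fun o : Option J => o.elim (Polynomial.C T) (fun j => Polynomial.C (lam j) * Polynomial.X))
        (n := 1) (fun o => by
          cases o with
          | none => simp
          | some j => exact (Polynomial.natDegree_C_mul_le _ _).trans Polynomial.natDegree_X_le)
      simpa using this
    have hQe : ∀ τ : k, Polynomial.eval τ Q = eval (fun o : Option J => o.elim T (fun j => τ * lam j)) (sect G ν) := by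
      intro τ
      have e1 : Polynomial.eval τ Q = Polynomial.aeval τ Q := by
        rw [Polynomial.coe_aeval_eq_eval]
      rw [e1]
      show ((Polynomial.aeval τ).comp (aeval _)) (sect G ν) = _
      rw [← MvPolynomial.coe_aeval_eq_eval]
      show _ = (aeval (fun o : Option J => o.elim T (fun j => τ * lam j)) : MvPolynomial (Option J) k →ₐ[k] k) (sect G ν)
      congr 1
      refine MvPolynomial.algHom_ext fun o => ?_
      rw [AlgHom.comp_apply, aeval_X, aeval_X]
      cases o with
      | none => exact Polynomial.aeval_C _ _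
      | some j =>
        show Polynomial.aeval τ (Polynomial.C (lam j) * Polynomial.X) = τ * lam j
        rw [map_mul, Polynomial.aeval_C, Polynomial.aeval_X]
        exact mul_comm _ _
    have hQ : Q = Polynomial.C c * Polynomial.X ^ (∑ i, ν i) := by
      refine Polynomial.eq_of_infinite_eval_eq _ _ ?_
      refine (Set.finite_singleton (0 : k)).infinite_compl.mono ?_
      intro τ hτ
      have hτ0 : τ ≠ 0 := hτ
      show Polynomial.eval τ Q = _
      rw [hQe, eval_sect, ← hsc T lam τ hτ0 ν, Polynomial.eval_mul, Polynomial.eval_C, Polynomial.eval_pow,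
        Polynomial.eval_X, hc, eval_sect, hx]
      ring
    have hc0 : Q.coeff (∑ i, ν i) = c := by
      rw [hQ, Polynomial.coeff_C_mul, Polynomial.coeff_X_pow_self, mul_one]
    rw [← hc0]
    exact Polynomial.coeff_eq_zero_of_natDegree_lt (lt_of_le_of_lt hQdeg hν)
  -- conclusion
  rw [MvPolynomial.totalDegree]
  refine Finset.sup_le fun ν hν => ?_
  by_contra hcon
  push_neg at hcon
  have hs : (ν.sum fun _ e => e) = ∑ i, ν i := Finsupp.sum_fintype _ _ (fun _ => rfl)
  rw [hs] at hcon
  have h0 := coeff_sect G ν m
  rw [hv ν hcon, coeff_zero] at h0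
  exact (mem_support_iff.1 hν) h0.symm

theorem finrank_le {D E : ℕ} (p : Fin D → MvPolynomial S k) (hp : ∀ l, (p l).totalDegree ≤ E)
    (hP : AlgebraicIndependent k fun l => tk (p l)) {J : Type} [Fintype J] (z : J → MvPolynomial S k)
    (hz : ∀ j, (z j).totalDegree ≤ E) (hy : ∀ j, IsIntegral (Algebra.adjoin k (Set.range fun l => tk (p l))) (tk (z j)))
    (ht : IsIntegral (Algebra.adjoin k (Set.range fun l => tk (p l))) (tk (1 : MvPolynomial S k))) :
    Module.finrank (FP k fun l => tk (p l)) (LP k (fun l => tk (p l)) fun j => tk (z j)) ≤ Tb E D := by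
  set P : Fin D → KK k S := fun l => tk (p l) with hPdef
  set y : J → KK k S := fun j => tk (z j) with hydef
  haveI : FiniteDimensional (FP k P) (LP k P y) := finite_LP hy
  haveI : CharZero (FP k P) := charZero_of_injective_algebraMap (algebraMap k (FP k P)).injective
  have htop : IntermediateField.adjoin (FP k P) (Set.range (yL k P y)) = ⊤ := by
    apply IntermediateField.map_injective (LP k P y).val
    rw [IntermediateField.adjoin_map, ← AlgHom.fieldRange_eq_map, IntermediateField.fieldRange_val,
      ← Set.range_comp]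
    rfl
  obtain ⟨lam, hlam⟩ := prim (k := k) (F := FP k P) (L := LP k P y) (yL k P y) htop
  rw [hlam]
  have hmap : algebraMap (LP k P y) (KK k S) (∑ j, lam j • yL k P y j) = tk (∑ j, lam j • z j) := by
    rw [tk_sum, map_sum]
    refine Finset.sum_congr rfl fun j _ => ?_
    rw [tk_smul]
    rfl
  rw [← minpoly.algebraMap_eq (algebraMap (LP k P y) (KK k S)).injective, hmap]
  refine count p _ hp ?_ hP ht ?_
  · refine totalDegree_finsetSum_le fun j _ => ?_
    exact (totalDegree_smul_le _ _).trans (hz j)
  · rw [tk_sum]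
    refine IsIntegral.sum _ fun j _ => ?_
    rw [tk_smul]
    exact (hy j).smul _

theorem cayley {J : Type} [Fintype J] {E : ℕ} (z : J → MvPolynomial S k) (hE : ∀ j, (z j).totalDegree ≤ E) (j0 : J)
    (hj0 : z j0 = 1) :
    ∃ (D Δ : ℕ) (π : Fin D → J → k) (G : MvPolynomial (Option J ⊕ Fin D) k), D ≤ Fintype.card S + 1 ∧ Δ ≤ Tb E D ∧
      G.totalDegree ≤ 2 * Δ ∧
      ∀ f : J → k, (∀ g : MvPolynomial J k, aeval (fun j => tz (z j)) g = 0 → eval f g = 0) →
        ∃ (ι : Type) (_ : Fintype ι) (Y : ι → J → AlgebraicClosure k) (σ0 : ι), Fintype.card ι = Δ ∧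
          (∀ j, Y σ0 j = algebraMap k (AlgebraicClosure k) (f j)) ∧
          ∀ (T : k) (lam : J → k), algebraMap k (AlgebraicClosure k)
            (eval (Sum.elim (fun o => o.elim T lam) (fun l => ∑ j, π l j * f j)) G) =
            ∏ σ, (algebraMap k (AlgebraicClosure k) T - ∑ j, algebraMap k (AlgebraicClosure k) (lam j) * Y σ j) := by
  classical
  obtain ⟨D, π, hP, hy⟩ := nn z
  set p : Fin D → MvPolynomial S k := fun l => ∑ j, π l j • z j with hpdef
  have hp : ∀ l, (p l).totalDegree ≤ E := fun l =>
    totalDegree_finsetSum_le fun j _ => (totalDegree_smul_le _ _).trans (hE j)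
  obtain ⟨G0, hG0, hn⟩ := norm_poly (P := fun l => tk (p l)) (y := fun j => tk (z j)) hP hy
  set Δ := Module.finrank (FP k fun l => tk (p l)) (LP k (fun l => tk (p l)) fun j => tk (z j)) with hΔ
  have hcoef := deg_bound p hP z Δ G0 hG0 hn
  let G : MvPolynomial (Option J ⊕ Fin D) k := ∑ m ∈ G0.support,
    rename Sum.inr (coeff m G0) * ∏ o, (X (Sum.inl o)) ^ m o
  have hGdeg : G.totalDegree ≤ 2 * Δ := by
    refine totalDegree_finsetSum_le fun m hm => ?_
    refine (totalDegree_mul _ _).trans ?_
    have h1 : (rename (Sum.inr : Fin D → Option J ⊕ Fin D) (coeff m G0)).totalDegree ≤ Δ :=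
      (totalDegree_rename_le _ _).trans (hcoef m)
    have h2 : (∏ o : Option J, (X (Sum.inl o) : MvPolynomial (Option J ⊕ Fin D) k) ^ m o).totalDegree ≤ Δ := by
      refine (totalDegree_finsetProd _ _).trans ?_
      refine le_trans (Finset.sum_le_sum fun o _ => ?_) (le_trans (b := ∑ o, m o) le_rfl ?_)
      · refine (totalDegree_pow _ _).trans ?_
        rw [totalDegree_X, mul_one]
      · have h3 : (m.sum fun _ e => e) ≤ G0.totalDegree := le_totalDegree hm
        rw [Finsupp.sum_fintype _ _ (fun _ => rfl)] at h3
        exact h3.trans hG0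
    omega
  have hGe : ∀ (a : Option J → k) (b : Fin D → k), eval (Sum.elim a b) G = eval b (eval (fun o => C (a o)) G0) := by
    intro a b
    rw [eval_eq' (fun o => C (a o)) G0]
    show eval (Sum.elim a b) (∑ m ∈ G0.support, rename Sum.inr (coeff m G0) * ∏ o, (X (Sum.inl o)) ^ m o) = _
    rw [map_sum, map_sum]
    refine Finset.sum_congr rfl fun m _ => ?_
    rw [map_mul, map_mul, eval_rename, map_prod, map_prod]
    congr 1
    · refine Finset.prod_congr rfl fun o _ => ?_
      simp
  refine ⟨D, Δ, π, G, dim_le hP, finrank_le p hp hP z hE hy (by rw [← hj0]; exact hy j0), hGdeg, ?_⟩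
  intro f hf
  have hrel : ∀ g : MvPolynomial (J ⊕ Fin D) k,
      aeval (Sum.elim (fun j => tk (z j)) (fun l => tk (p l))) g = 0 →
        eval (Sum.elim f (fun l => ∑ j, π l j * f j)) g = 0 := by
    intro g hg
    set g' : MvPolynomial J k := aeval (Sum.elim (fun j => X j) (fun l => ∑ j, C (π l j) * X j)) g with hg'
    have e1 : aeval (fun j => tz (z j)) g' = 0 := by
      have hinj : Function.Injective (algebraMap (MvPolynomial (Option S) k) (KK k S)) :=
        IsFractionRing.injective _ _
      apply hinj
      rw [map_zero, ← hg, hg']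
      show ((IsScalarTower.toAlgHom k (MvPolynomial (Option S) k) (KK k S)).comp
        ((aeval (fun j => tz (z j))).comp (aeval (Sum.elim (fun j => X j)
          (fun l => ∑ j, C (π l j) * X j))))) g = _
      congr 1
      refine MvPolynomial.algHom_ext fun i => ?_
      rw [AlgHom.comp_apply, AlgHom.comp_apply, aeval_X, aeval_X]
      cases i with
      | inl j =>
        show algebraMap (MvPolynomial (Option S) k) (KK k S) (aeval (fun j => tz (z j)) (X j)) = tk (z j)
        rw [aeval_X]
        rfl
      | inr l =>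
        show algebraMap (MvPolynomial (Option S) k) (KK k S)
          (aeval (fun j => tz (z j)) (∑ j, C (π l j) * X j)) = tk (∑ j, π l j • z j)
        unfold tk
        congr 1
        rw [map_sum, tz_sum]
        refine Finset.sum_congr rfl fun j _ => ?_
        rw [map_mul, aeval_X, aeval_C, tz_smul, Algebra.smul_def]
    have e2 := hf g' e1
    rw [hg'] at e2
    rw [← e2, ← MvPolynomial.coe_aeval_eq_eval, ← MvPolynomial.coe_aeval_eq_eval]
    show (aeval (Sum.elim f (fun l => ∑ j, π l j * f j)) : MvPolynomial (J ⊕ Fin D) k →ₐ[k] k) g =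
      ((aeval f : MvPolynomial J k →ₐ[k] k).comp (aeval (Sum.elim (fun j => X j)
          (fun l => ∑ j, C (π l j) * X j)))) g
    congr 1
    refine MvPolynomial.algHom_ext fun i => ?_
    rw [AlgHom.comp_apply, aeval_X, aeval_X]
    cases i with
    | inl j =>
      show f j = aeval f (X j)
      rw [aeval_X]
    | inr l =>
      show ∑ j, π l j * f j = aeval f (∑ j, C (π l j) * X j)
      rw [map_sum]
      refine Finset.sum_congr rfl fun j _ => ?_
      rw [map_mul, aeval_X, aeval_C]
      rfl
  obtain ⟨ι, hι, Y, σ0, hcard, hY, hfin⟩ := spec hP hy f (fun l => ∑ j, π l j * f j) hrel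
  refine ⟨ι, hι, Y, σ0, hcard, hY, fun T lam => ?_⟩
  rw [hGe]
  exact hfin T lam _ (hn T lam)

end Pool.Agent.VPE
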