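import Pool.Agent.VPE.Step

/-!
# [VPE-FINAL] the oracle

Recursion: `g m` is the polynomial of `step` for the oracle `tr g m`, whose `i`-th polynomial is `g i` for `i < m` and `0` for `i ≥ m` (all with `V i` variables). Let `G` be the family of all `g m`.
A program of cost `r ≤ m` over any field uses only `G.poly i` with `V i + 1 ≤ r`, so `i < m`: `Comp G r l → Comp (tr g m) r l` for `r ≤ m`, and `Lapp (tr g m) f ≤ m` if
`Lapp G f ≤ m`. If `f` is in `VPbar G` let `s n` bound `f.vars n`, the degree and `Lapp`; with `m = s n`, `f.poly n = aeval a (g m)` has cost `V m + 1`.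
-/

set_option autoImplicit false

open MvPolynomial Pool.Agent.VPO

namespace Pool.Agent.VPE

theorem exists_seq {α : ℕ → Type} (R : ∀ m, (∀ i, i < m → α i) → α m → Prop) (h : ∀ m prev, ∃ g, R m prev g) :
    ∃ g : ∀ m, α m, ∀ m, R m (fun i _ => g i) (g m) := by
  choose F hF using h
  refine ⟨fun m => WellFounded.fix (C := α) Nat.lt_wfRel.wf F m, fun m => ?_⟩
  have h1 := WellFounded.fix_eq (C := α) Nat.lt_wfRel.wf F m
  have h2 := hF m (fun i _ => WellFounded.fix (C := α) Nat.lt_wfRel.wf F i)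
  show R m (fun i _ => WellFounded.fix (C := α) Nat.lt_wfRel.wf F i) (WellFounded.fix (C := α) Nat.lt_wfRel.wf F m)
  exact Eq.mpr (congrArg (R m (fun i _ => WellFounded.fix (C := α) Nat.lt_wfRel.wf F i)) h1) h2

private theorem V_bdd {t : ℕ → ℕ} (h : ∀ n, t n ≤ V n) : PBounded t := by
  refine ⟨26 * (Polynomial.X + 2) ^ 8, fun n => (h n).trans (le_of_eq ?_)⟩
  unfold V
  simp

/-- the family of polynomials `g i` for `i < m` and `0` for `i ≥ m` -/
private noncomputable def tr {k : Type} [Field k] (m : ℕ)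
    (prev : ∀ i, i < m → {g : MvPolynomial (Fin (V i)) k // g.totalDegree ≤ V i}) : PFamily k where
  vars := V
  poly := fun i => if h : i < m then (prev i h).1 else 0
  vars_bdd := V_bdd fun n => le_rfl
  deg_bdd := by
    refine V_bdd fun i => ?_
    by_cases h : i < m
    · rw [dif_pos h]
      exact (prev i h).2
    · rw [dif_neg h]
      simp

private theorem tr_comp {k : Type} [Field k] {G : PFamily k}
    (g : ∀ i, {g : MvPolynomial (Fin (V i)) k // g.totalDegree ≤ V i}) (hv : G.vars = V)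
    (hg : ∀ i (a : MvPolynomial (Fin (G.vars i)) k), G.poly i = a → HEq a (g i).1)
    {F : Type} [Field F] [Algebra k F] {n : ℕ} {r : ℕ} {l : List (MvPolynomial (Fin n) F)}
    (h : Comp G r l) {m : ℕ} (hr : r ≤ m) : Comp (tr m fun i _ => g i) r l := by
  induction h with
  | nil => exact Comp.nil
  | add _ hp hq ih => exact Comp.add (ih (by omega)) hp hq
  | sub _ hp hq ih => exact Comp.sub (ih (by omega)) hp hq
  | mul _ hp hq ih => exact Comp.mul (ih (by omega)) hp hq
  | oracle i a _ ha ih =>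
    obtain ⟨Gv, Gp, hGv, hGp⟩ := G
    dsimp only at hv
    subst hv
    have h1 : i < m := by
      have := le_V i
      dsimp only at hr
      omega
    have h2 : (tr m fun i _ => g i).poly i = Gp i := by
      show (if h : i < m then (g i).1 else 0) = Gp i
      rw [dif_pos h1]
      exact (eq_of_heq (hg i (Gp i) rfl)).symm
    have h3 := Comp.oracle (G := tr m fun i _ => g i) i a (ih (by dsimp only at hr; omega)) ha
    rw [h2] at h3
    exact h3

theorem equality' (k : Type) [Field k] [CharZero k] :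
    ∃ G : PFamily k, (∀ m, G.vars m = 26 * (m + 2) ^ 8) ∧ (∀ m, (G.poly m).totalDegree ≤ 26 * (m + 2) ^ 8) ∧
      ∀ (s n : ℕ) (f : MvPolynomial (Fin n) k), n ≤ s → f.totalDegree ≤ s → Lapp G f ≤ s →
        L G f ≤ 26 * (s + 2) ^ 8 + 1 := by
  obtain ⟨g, hg⟩ := exists_seq (α := fun i => {g : MvPolynomial (Fin (V i)) k // g.totalDegree ≤ V i})
    (fun m prev g => ∀ n ≤ m, ∀ f : MvPolynomial (Fin n) k, f.totalDegree ≤ m → Lapp (tr m prev) f ≤ m →
        ∃ a : Fin (V m) → MvPolynomial (Fin n) k, (∀ i, Avail [] (a i)) ∧ f = aeval a g.1)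
    (by
      intro m prev
      obtain ⟨g, hg1, hg2⟩ := step (tr m prev) le_V m (by
        intro i hi
        have hi' : V i < m := hi
        by_cases h : i < m
        · show (if h : i < m then (prev i h).1 else 0).totalDegree ≤ m
          rw [dif_pos h]
          exact (prev i h).2.trans hi'.le
        · show (if h : i < m then (prev i h).1 else 0).totalDegree ≤ m
          rw [dif_neg h]
          simp)
      exact ⟨⟨g, hg1⟩, hg2⟩)
  let G : PFamily k :=
    { vars := V
      poly := fun i => (g i).1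
      vars_bdd := V_bdd fun n => le_rfl
      deg_bdd := V_bdd fun i => (g i).2 }
  refine ⟨G, fun m => rfl, fun m => (g m).2, fun m n f h2 h3 h1 => ?_⟩
  obtain ⟨F, hF1, r, hF2, hF3⟩ := exists_Lapp G f
  have h4 : Lapp (tr m fun i _ => g i) f ≤ m := by
    refine (Lapp_le hF1 ⟨r, tr_comp (G := G) g rfl ?_ hF2 h1, hF3⟩).trans h1
    intro i a ha
    rw [← ha]
  obtain ⟨a, ha1, ha2⟩ := hg m n h2 f h3 h4
  have h5 : L G f ≤ 0 + (V m + 1) := by
    refine L_le ⟨_, Comp.oracle (G := G) m a Comp.nil ha1, Or.inr (Or.inr ?_)⟩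
    have e : f = aeval a (G.poly m) := ha2
    rw [← e]
    exact List.mem_singleton.mpr rfl
  have h6 : V m = 26 * (m + 2) ^ 8 := rfl
  omega

theorem VP_eq_of_bound {k : Type} [Field k] (G : PFamily k)
    (h : ∀ (s n : ℕ) (f : MvPolynomial (Fin n) k), n ≤ s → f.totalDegree ≤ s → Lapp G f ≤ s →
        L G f ≤ 26 * (s + 2) ^ 8 + 1) : VP G = VPbar G := by
  apply Set.Subset.antisymm (VP_subset_VPbar G)
  rintro f ⟨p1, hp1⟩
  obtain ⟨p2, hp2⟩ := f.vars_bdd
  obtain ⟨p3, hp3⟩ := f.deg_bdd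
  refine ⟨26 * (p1 + p2 + p3 + 2) ^ 8 + 1, fun n => ?_⟩
  obtain ⟨m, hm⟩ : ∃ m, m = (p1 + p2 + p3).eval n := ⟨_, rfl⟩
  have hm' : m = p1.eval n + p2.eval n + p3.eval n := by rw [hm]; simp
  have h1 : Lapp G (f.poly n) ≤ m := (hp1 n).trans (by omega)
  have h2 : f.vars n ≤ m := (hp2 n).trans (by omega)
  have h3 : (f.poly n).totalDegree ≤ m := (hp3 n).trans (by omega)
  have h6 : 26 * (m + 2) ^ 8 + 1 = (26 * (p1 + p2 + p3 + 2) ^ 8 + 1 : Polynomial ℕ).eval n := by
    rw [hm]
    simp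
  rw [← h6]
  exact h m (f.vars n) (f.poly n) h2 h3 h1

theorem equality (k : Type) [Field k] [CharZero k] :
    ∃ G : PFamily k, (∀ m, G.vars m = 26 * (m + 2) ^ 8) ∧ (∀ m, (G.poly m).totalDegree ≤ 26 * (m + 2) ^ 8) ∧
      VP G = VPbar G := by
  obtain ⟨G, h1, h2, h3⟩ := equality' k
  exact ⟨G, h1, h2, VP_eq_of_bound G h3⟩

end Pool.Agent.VPE
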