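import Pool.Agent.VPE.Base

/-!
# [VPE-NN] graded Noether normalisation

`nnz`: induction on `m`. Write `y i = tz (z i)`. If `y` is algebraically independent: `D = m`, `π` the identity matrix.
Otherwise there is `g ≠ 0` in `MvPolynomial (Fin m) k` with `aeval y g = 0`. Since `aeval y g = sum_d X none ^ d * rename some (aeval z (g_d))` for
the homogeneous components `g_d` (`homogeneousComponent`), all `aeval z g_d = 0`, hence `aeval y g_d = 0`; replace `g` by a nonzero component, of degree
`e`; `e ≥ 1` as `g` is not a nonzero constant. `k` is infinite: there is `a` with `eval a g ≠ 0` (`MvPolynomial.funext`), `a ≠ 0` as `e ≥ 1`, say `a i0 ≠ 0`,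
and after scaling `a i0 = 1` (`g` homogeneous). Put `z' i = z i - a i • z i0` for `i ≠ i0` (`i0.succAbove`). By induction there is `π'` for `z'` (`m - 1`
elements); `π` is the composition (so that `∑ i, π l i • z i = ∑ i, π' l i • z' i`). The `tz (z' i)` are integral over `A = k[P]`. The element `y i0` is a
root of the polynomial `aeval (fun i => C (tz (z' i)) + C (a i) * X) g` (with `z' i0 = 0`) over the integral closure of `A`, which has degree `e` and
leading coefficient `eval a g`, a nonzero constant: the coefficient of `X ^ e` is `∑_m coeff m g * ∏ a i ^ m i` and there are no higher ones.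
So `y i0` is integral over `A` (transitivity), and then `y i = tz (z' i) + a i • y i0`.

`nn`: `nnz` for `J ≃ Fin m`, mapped to the fraction field (`AlgebraicIndependent.map'`, `IsIntegral.map` or `isIntegral` with `Algebra.adjoin` mapped by the
injective algebra map).
-/

set_option autoImplicit false

open MvPolynomial

namespace Pool.Agent.VPE

variable {k : Type} [Field k] {S : Type}

private theorem hom_deg {σ : Type} {φ : MvPolynomial σ k} {d : ℕ} (h : φ.IsHomogeneous d) {m : σ →₀ ℕ}
    (hm : m ∈ φ.support) : ∑ i ∈ m.support, m i = d := by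
  have h1 := h (mem_support_iff.mp hm)
  have h2 : (Finsupp.weight (1 : σ → ℕ)) m = m.degree :=
    (DFunLike.congr_fun (Finsupp.degree_eq_weight_one (σ := σ) (R := ℕ)) m).symm
  rw [h2] at h1
  exact h1

private theorem aeval_hom {σ R : Type} [CommRing R] [Algebra k R] (x : R) (w : σ → R) {φ : MvPolynomial σ k} {d : ℕ}
    (h : φ.IsHomogeneous d) : aeval (fun i => x * w i) φ = x ^ d * aeval w φ := by
  rw [aeval_def, aeval_def, eval₂_eq, eval₂_eq, Finset.mul_sum]
  refine Finset.sum_congr rfl fun m hm => ?_
  have h1 : ∏ i ∈ m.support, (x * w i) ^ m i = x ^ d * ∏ i ∈ m.support, w i ^ m i := by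
    simp_rw [mul_pow]
    rw [Finset.prod_mul_distrib, Finset.prod_pow_eq_pow_sum, hom_deg h hm]
  rw [h1]
  ring

private theorem eval_smul_hom {σ : Type} (c : k) (w : σ → k) {φ : MvPolynomial σ k} {d : ℕ}
    (h : φ.IsHomogeneous d) : eval (fun i => c * w i) φ = c ^ d * eval w φ := by
  have := aeval_hom c w h
  simpa [aeval_eq_eval] using this

private theorem aeval_tz {J : Type} (z : J → MvPolynomial S k) {φ : MvPolynomial J k} {d : ℕ}
    (h : φ.IsHomogeneous d) : aeval (fun i => tz (z i)) φ = X none ^ d * rename some (aeval z φ) := by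
  have h1 : rename (R := k) (some : S → Option S) (aeval z φ) = aeval (fun i => rename some (z i)) φ := by
    rw [← AlgHom.comp_apply, comp_aeval]
  rw [h1]
  exact aeval_hom _ _ h

/-- all the homogeneous components of a relation between the `t z_i` are relations between the `z_i` -/
private theorem comp_zero {J : Type} (z : J → MvPolynomial S k) {g : MvPolynomial J k}
    (h : aeval (fun i => tz (z i)) g = 0) (d : ℕ) : aeval z (homogeneousComponent d g) = 0 := by
  classical
  have h1 : ∑ i ∈ Finset.range (g.totalDegree + 1),
      (X none : MvPolynomial (Option S) k) ^ i * rename some (aeval z (homogeneousComponent i g)) = 0 := by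
    rw [← h]
    conv_rhs => rw [← sum_homogeneousComponent g]
    rw [map_sum]
    exact Finset.sum_congr rfl fun i _ => (aeval_tz z (homogeneousComponent_isHomogeneous i g)).symm
  have hC : ∀ p : MvPolynomial S k, optionEquivLeft k S (rename some p) = Polynomial.C p := by
    intro p
    induction p using MvPolynomial.induction_on with
    | C a => simp
    | add p q hp hq => rw [map_add, map_add, hp, hq, map_add]
    | mul_X p i hp => rw [map_mul, map_mul, hp, rename_X, optionEquivLeft_X_some, map_mul]
  have h2 := congrArg (optionEquivLeft k S) h1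
  rw [map_sum, map_zero] at h2
  have h3 := congrArg (fun p => Polynomial.coeff p d) h2
  simp only [Polynomial.finsetSum_coeff, Polynomial.coeff_zero] at h3
  by_cases hd : d ∈ Finset.range (g.totalDegree + 1)
  · rw [Finset.sum_eq_single d] at h3
    · rw [map_mul, map_pow, optionEquivLeft_X_none, hC, Polynomial.coeff_X_pow_mul', if_pos (le_refl _)] at h3
      simpa using h3
    · intro i _ hi
      rw [map_mul, map_pow, optionEquivLeft_X_none, hC, mul_comm, Polynomial.coeff_C_mul, Polynomial.coeff_X_pow,
        if_neg (Ne.symm hi), mul_zero]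
    · intro h; exact absurd hd h
  · have : homogeneousComponent d g = 0 := by
      apply homogeneousComponent_eq_zero
      simp only [Finset.mem_range, not_lt] at hd
      omega
    rw [this, map_zero]

/-- leading coefficient of a form in linear polynomials -/
private theorem lin_coeff {σ B : Type} [CommRing B] [Algebra k B] (b : σ → B) (a : σ → k)
    {φ : MvPolynomial σ k} {d : ℕ} (h : φ.IsHomogeneous d) :
    (aeval (fun i => Polynomial.C (b i) + Polynomial.C (algebraMap k B (a i)) * Polynomial.X) φ).natDegree ≤ d ∧
    (aeval (fun i => Polynomial.C (b i) + Polynomial.C (algebraMap k B (a i)) * Polynomial.X) φ).coeff d =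
      algebraMap k B (eval a φ) := by
  classical
  have hl : ∀ i, (Polynomial.C (b i) + Polynomial.C (algebraMap k B (a i)) * Polynomial.X).natDegree ≤ 1 := by
    intro i; rw [add_comm]; exact Polynomial.natDegree_linear_le
  have hlc : ∀ i, (Polynomial.C (b i) + Polynomial.C (algebraMap k B (a i)) * Polynomial.X).coeff 1 =
      algebraMap k B (a i) := by
    intro i; simp [Polynomial.coeff_C]
  have hprod : ∀ (m : σ → ℕ) (s : Finset σ),
      (∏ i ∈ s, (Polynomial.C (b i) + Polynomial.C (algebraMap k B (a i)) * Polynomial.X) ^ m i).natDegree ≤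
        ∑ i ∈ s, m i ∧
      (∏ i ∈ s, (Polynomial.C (b i) + Polynomial.C (algebraMap k B (a i)) * Polynomial.X) ^ m i).coeff
        (∑ i ∈ s, m i) = ∏ i ∈ s, algebraMap k B (a i) ^ m i := by
    intro m s
    induction s using Finset.induction_on with
    | empty => simp
    | insert j s hj ih =>
      rw [Finset.prod_insert hj, Finset.sum_insert hj, Finset.prod_insert hj]
      have h1 : ((Polynomial.C (b j) + Polynomial.C (algebraMap k B (a j)) * Polynomial.X) ^ m j).natDegree ≤ m j := by
        refine Polynomial.natDegree_pow_le.trans ?_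
        calc m j * _ ≤ m j * 1 := Nat.mul_le_mul_left _ (hl j)
          _ = m j := mul_one _
      constructor
      · exact Polynomial.natDegree_mul_le.trans (add_le_add h1 ih.1)
      · rw [Polynomial.coeff_mul_add_eq_of_natDegree_le h1 ih.1, ih.2]
        congr 1
        have h2 := Polynomial.coeff_pow_of_natDegree_le (m := m j) (hl j)
        rw [mul_one] at h2
        rw [h2, hlc]
  have hterm : ∀ m ∈ φ.support,
      (algebraMap k (Polynomial B) (coeff m φ) *
        ∏ i ∈ m.support, (Polynomial.C (b i) + Polynomial.C (algebraMap k B (a i)) * Polynomial.X) ^ m i).natDegree ≤ d ∧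
      (algebraMap k (Polynomial B) (coeff m φ) *
        ∏ i ∈ m.support, (Polynomial.C (b i) + Polynomial.C (algebraMap k B (a i)) * Polynomial.X) ^ m i).coeff d =
        algebraMap k B (coeff m φ * ∏ i ∈ m.support, a i ^ m i) := by
    intro m hm
    obtain ⟨h1, h2⟩ := hprod m m.support
    rw [hom_deg h hm] at h1 h2
    have h3 : algebraMap k (Polynomial B) (coeff m φ) = Polynomial.C (algebraMap k B (coeff m φ)) := rfl
    rw [h3]
    constructor
    · exact (Polynomial.natDegree_C_mul_le _ _).trans h1
    · rw [Polynomial.coeff_C_mul, h2, map_mul, map_prod]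
      simp_rw [map_pow]
  rw [aeval_def, eval₂_eq]
  constructor
  · exact Polynomial.natDegree_sum_le_of_forall_le _ _ fun m hm => (hterm m hm).1
  · rw [Polynomial.finsetSum_coeff, Finset.sum_congr rfl fun m hm => (hterm m hm).2, ← map_sum]
    rfl

private theorem integral_step {R : Type} [CommRing R] [Algebra k R] (A : Subalgebra k R) {σ : Type} (w : σ → R)
    (hw : ∀ i, IsIntegral A (w i)) (a : σ → k) {φ : MvPolynomial σ k} {d : ℕ} (h : φ.IsHomogeneous d)
    (ha : eval a φ ≠ 0) (y : R) (hy : aeval (fun i => w i + a i • y) φ = 0) : IsIntegral A y := by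
  set B := integralClosure A R with hB
  have hBy : IsIntegral B y := by
    obtain ⟨h1, h2⟩ := lin_coeff (B := B) (fun i => (⟨w i, hw i⟩ : B)) a h
    set F := aeval (fun i => Polynomial.C (⟨w i, hw i⟩ : B) + Polynomial.C (algebraMap k B (a i)) * Polynomial.X) φ
      with hF
    refine ⟨Polynomial.C (algebraMap k B (eval a φ)⁻¹) * F, ?_, ?_⟩
    · refine Polynomial.monic_of_natDegree_le_of_coeff_eq_one d ((Polynomial.natDegree_C_mul_le _ _).trans h1) ?_
      rw [Polynomial.coeff_C_mul, h2, ← map_mul, inv_mul_cancel₀ ha, map_one]
    · rw [← Polynomial.aeval_def, map_mul]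
      have h3 : Polynomial.aeval y F = 0 := by
        have h4 : ((Polynomial.aeval y : Polynomial B →ₐ[B] R).restrictScalars k) F = 0 := by
          rw [hF, ← AlgHom.comp_apply, comp_aeval, ← hy]
          congr 2
          funext i
          simp only [AlgHom.restrictScalars_apply, map_add, map_mul, Polynomial.aeval_C, Polynomial.aeval_X]
          rw [← IsScalarTower.algebraMap_apply k B R, Algebra.smul_def]
          rfl
        exact h4
      rw [h3, mul_zero]
  exact isIntegral_trans (A := B) y hBy

theorem nnz [Infinite k] {m : ℕ} (z : Fin m → MvPolynomial S k) :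
    ∃ (D : ℕ) (π : Fin D → Fin m → k), AlgebraicIndependent k (fun l => tz (∑ i, π l i • z i)) ∧
      ∀ i, IsIntegral (Algebra.adjoin k (Set.range fun l => tz (∑ i, π l i • z i))) (tz (z i)) := by
  classical
  induction m with
  | zero =>
    refine ⟨0, fun l => l.elim0, ?_, fun i => i.elim0⟩
    exact algebraicIndependent_empty_type
  | succ m ih =>
    by_cases hind : AlgebraicIndependent k (fun i => tz (z i))
    · refine ⟨m + 1, fun l i => if l = i then 1 else 0, ?_, ?_⟩
      · have h1 : (fun l : Fin (m + 1) => tz (∑ i, (if l = i then (1 : k) else 0) • z i)) = fun i => tz (z i) := by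
          funext l
          congr 1
          simp
        rw [h1]; exact hind
      · intro i
        have h1 : (fun l : Fin (m + 1) => tz (∑ i, (if l = i then (1 : k) else 0) • z i)) = fun i => tz (z i) := by
          funext l
          congr 1
          simp
        rw [h1]
        have h2 : tz (z i) ∈ Algebra.adjoin k (Set.range fun i => tz (z i)) :=
          Algebra.subset_adjoin ⟨i, rfl⟩
        exact isIntegral_algebraMap (R := Algebra.adjoin k (Set.range fun i => tz (z i)))
          (A := MvPolynomial (Option S) k) (x := ⟨tz (z i), h2⟩)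
    · rw [algebraicIndependent_iff] at hind
      push Not at hind
      obtain ⟨g, hg0, hg⟩ := hind
      obtain ⟨e, he⟩ : ∃ e, homogeneousComponent e g ≠ 0 := by
        by_contra hcon
        push Not at hcon
        apply hg
        rw [← sum_homogeneousComponent g]
        exact Finset.sum_eq_zero fun i _ => hcon i
      have hz := comp_zero z hg0 e
      have hhom := homogeneousComponent_isHomogeneous e g
      set φ := homogeneousComponent e g with hφ
      have he0 : e ≠ 0 := by
        intro h0
        subst h0
        rw [hφ, homogeneousComponent_zero] at hz he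
        rw [aeval_C] at hz
        apply he
        have h1 : coeff 0 g = 0 := by
          by_contra hc
          have : algebraMap k (MvPolynomial S k) (coeff 0 g) = C (coeff 0 g) := rfl
          rw [this, C_eq_zero] at hz
          exact hc hz
        rw [h1, C_0]
      obtain ⟨a, ha⟩ : ∃ a, eval a φ ≠ 0 := by
        by_contra hcon
        push Not at hcon
        exact he (funext fun x => by rw [hcon x, map_zero])
      obtain ⟨i0, hi0⟩ : ∃ i0, a i0 ≠ 0 := by
        by_contra hcon
        push Not at hcon
        apply ha
        have h1 : a = fun i => (0 : k) * (1 : k) := by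
          funext i; rw [hcon i]; simp
        rw [h1, eval_smul_hom (0 : k) (fun _ => (1 : k)) hhom, zero_pow he0, zero_mul]
      obtain ⟨b, hb, hb0⟩ : ∃ b : Fin (m + 1) → k, eval b φ ≠ 0 ∧ b i0 = 1 := by
        refine ⟨fun i => (a i0)⁻¹ * a i, ?_, inv_mul_cancel₀ hi0⟩
        rw [eval_smul_hom _ _ hhom]
        exact mul_ne_zero (pow_ne_zero _ (inv_ne_zero hi0)) ha
      obtain ⟨D, π, hπ1, hπ2⟩ := ih (fun j => z (i0.succAbove j) - b (i0.succAbove j) • z i0)
      have hP : ∀ l, ∑ i, (i0.insertNth (-∑ j, π l j * b (i0.succAbove j)) (π l) : Fin (m + 1) → k) i • z i =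
          ∑ j, π l j • (z (i0.succAbove j) - b (i0.succAbove j) • z i0) := by
        intro l
        rw [Fin.sum_univ_succAbove _ i0]
        simp only [Fin.insertNth_apply_same, Fin.insertNth_apply_succAbove, smul_sub, Finset.sum_sub_distrib,
          neg_smul, Finset.sum_smul, mul_smul]
        ring
      refine ⟨D, fun l => i0.insertNth (-∑ j, π l j * b (i0.succAbove j)) (π l), ?_, ?_⟩
      · have h1 : (fun l : Fin D => tz (∑ i, (i0.insertNth (-∑ j, π l j * b (i0.succAbove j)) (π l) :
            Fin (m + 1) → k) i • z i)) =
            fun l => tz (∑ j, π l j • (z (i0.succAbove j) - b (i0.succAbove j) • z i0)) := by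
          funext l; rw [hP]
        rw [h1]; exact hπ1
      · have h1 : (fun l : Fin D => tz (∑ i, (i0.insertNth (-∑ j, π l j * b (i0.succAbove j)) (π l) :
            Fin (m + 1) → k) i • z i)) =
            fun l => tz (∑ j, π l j • (z (i0.succAbove j) - b (i0.succAbove j) • z i0)) := by
          funext l; rw [hP]
        rw [h1]
        set A := Algebra.adjoin k (Set.range fun l =>
          tz (∑ j, π l j • (z (i0.succAbove j) - b (i0.succAbove j) • z i0))) with hA
        have hw : ∀ i, IsIntegral A (tz (z i - b i • z i0)) := by
          intro i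
          rcases Fin.eq_self_or_eq_succAbove i0 i with h2 | ⟨j, h2⟩
          · rw [h2, hb0, one_smul, sub_self]
            have : tz (0 : MvPolynomial S k) = 0 := by unfold tz; simp
            rw [this]
            exact isIntegral_zero
          · rw [h2]; exact hπ2 j
        have hsum : ∀ i, tz (z i - b i • z i0) + b i • tz (z i0) = tz (z i) := by
          intro i
          rw [← tz_smul, ← tz_add, sub_add_cancel]
        have hy0 : IsIntegral A (tz (z i0)) := by
          refine integral_step A (fun i => tz (z i - b i • z i0)) hw b hhom hb (tz (z i0)) ?_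
          simp_rw [hsum]
          rw [aeval_tz z hhom, hz, map_zero, mul_zero]
        intro i
        rw [← hsum i]
        exact (hw i).add (hy0.smul (b i))

private theorem integral_map {R K : Type} [CommRing R] [CommRing K] [Algebra k R] [Algebra k K] (f : R →ₐ[k] K)
    (s : Set R) (x : R) (hx : IsIntegral (Algebra.adjoin k s) x) : IsIntegral (Algebra.adjoin k (f '' s)) (f x) := by
  have hmem : ∀ a : Algebra.adjoin k s, (f.comp (Algebra.adjoin k s).val) a ∈ Algebra.adjoin k (f '' s) := by
    intro a
    rw [← AlgHom.map_adjoin]
    exact ⟨a.1, a.2, rfl⟩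
  obtain ⟨p, hp, hp0⟩ := hx
  refine ⟨p.map (AlgHom.codRestrict (f.comp (Algebra.adjoin k s).val) _ hmem : _ →ₐ[k] _).toRingHom, hp.map _, ?_⟩
  rw [Polynomial.eval₂_map]
  have h1 : (algebraMap (Algebra.adjoin k (f '' s)) K).comp
      (AlgHom.codRestrict (f.comp (Algebra.adjoin k s).val) _ hmem).toRingHom =
      (f : R →+* K).comp (algebraMap (Algebra.adjoin k s) R) := by
    ext a; rfl
  rw [h1]
  have h2 := Polynomial.hom_eval₂ p (algebraMap (Algebra.adjoin k s) R) (f : R →+* K) x
  rw [hp0, map_zero] at h2
  exact h2.symm

theorem nn [Infinite k] {J : Type} [Fintype J] (z : J → MvPolynomial S k) :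
    ∃ (D : ℕ) (π : Fin D → J → k), AlgebraicIndependent k (fun l => tk (∑ j, π l j • z j)) ∧
      ∀ j, IsIntegral (Algebra.adjoin k (Set.range fun l => tk (∑ j, π l j • z j))) (tk (z j)) := by
  classical
  let eq := Fintype.equivFin J
  obtain ⟨D, π, h1, h2⟩ := nnz (fun i => z (eq.symm i))
  have hs : ∀ l, ∑ j, π l (eq j) • z j = ∑ i, π l i • z (eq.symm i) := by
    intro l
    rw [← Equiv.sum_comp eq (fun i => π l i • z (eq.symm i))]
    simp
  let f : MvPolynomial (Option S) k →ₐ[k] KK k S := IsScalarTower.toAlgHom k _ _
  have hf : Function.Injective f := IsFractionRing.injective (MvPolynomial (Option S) k) (KK k S)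
  refine ⟨D, fun l j => π l (eq j), ?_, ?_⟩
  · have h3 := h1.map' (f := f) hf
    have h4 : (fun l => tk (∑ j, π l (eq j) • z j)) = f ∘ fun l => tz (∑ i, π l i • z (eq.symm i)) := by
      funext l
      rw [hs l]
      rfl
    rw [h4]
    exact h3
  · intro j
    have h3 := integral_map f _ _ (h2 (eq j))
    have h4 : f (tz (z (eq.symm (eq j)))) = tk (z j) := by
      rw [Equiv.symm_apply_apply]; rfl
    rw [h4] at h3
    have h5 : (f '' Set.range fun l => tz (∑ i, π l i • z (eq.symm i))) =
        Set.range fun l => tk (∑ j, π l (eq j) • z j) := by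
      rw [← Set.range_comp]
      congr 1
      funext l
      rw [hs l]
      rfl
    rw [h5] at h3
    exact h3

end Pool.Agent.VPE
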