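import Pool.Agent.VPE.Base

/-!
# [VPE-NORMP] the norm is a polynomial

`det_poly`: `b` a basis of `L` over `F` (`Module.finBasis`), `M_j = Algebra.leftMulMatrix b (y j)`; `G` is the determinant of the matrix
`X none • 1 - ∑ j, X (some j) • M_j.map C` over `MvPolynomial (Option J) F`; `eval` commutes with `det` (`RingHom.map_det`), `Algebra.norm_eq_matrix_det`.
Degree: every entry has total degree at most `1` (`Matrix.det_apply`, `totalDegree_finsetSum_le`, `totalDegree_finset_prod`).
`coeff_mem`: if some coefficient is not in the `k`-subspace `A`, choose a `k`-linear form `ℓ` on `F` which vanishes on `A` and not on this coefficient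
(`Submodule.exists_le_ker_of_notMem`); the polynomial `∑_m ℓ (coeff m g) X^m` over `k` vanishes at all points of `k ^ ι`, so it is zero (`MvPolynomial.funext`).
`norm_poly`: `F = FP k P`, `L = LP k P y` is finite over `F` (generated by finitely many algebraic elements). The values of `det_poly` at points of `k` are the
norms of elements of `L` which are integral over `A = k[P]`; so they are integral over `A` (`Algebra.isIntegral_norm`), and `A`, isomorphic to a polynomial ring
(`AlgebraicIndependent.aevalEquiv`), is integrally closed with fraction field `F` (`open scoped IntermediateField.algebraAdjoinAdjoin`), so they are in `A`. By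
`coeff_mem` all coefficients are in `A`, i.e. of the form `aeval P h`; the total degree does not grow (support).
-/

set_option autoImplicit false

open MvPolynomial

namespace Pool.Agent.VPE

variable {k : Type} [Field k]

private theorem normP_entry_deg {J : Type} [Fintype J] {F : Type} [Field F] (p : Prop) [Decidable p] (c : J → F) :
    ((if p then X none else 0) - ∑ j, X (some j) * C (c j) : MvPolynomial (Option J) F).totalDegree ≤ 1 := by
  refine (totalDegree_sub _ _).trans (max_le ?_ ?_)
  · split_ifs
    · exact (totalDegree_X _).le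
    · simp
  · refine totalDegree_finsetSum_le (fun j _ => ?_)
    refine (totalDegree_mul _ _).trans ?_
    rw [totalDegree_C, add_zero]
    exact (totalDegree_X _).le

theorem det_poly {F L : Type} [Field F] [Field L] [Algebra F L] [FiniteDimensional F L] [Algebra k F] [Algebra k L]
    [IsScalarTower k F L] {J : Type} [Fintype J] (y : J → L) :
    ∃ G : MvPolynomial (Option J) F, G.totalDegree ≤ Module.finrank F L ∧
      ∀ (T : k) (lam : J → k), eval (fun o => algebraMap k F (o.elim T lam)) G =
        Algebra.norm F (algebraMap k L T - ∑ j, lam j • y j) := by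
  classical
  let b := Module.finBasis F L
  let M : J → Matrix (Fin (Module.finrank F L)) (Fin (Module.finrank F L)) F := fun j => Algebra.leftMulMatrix b (y j)
  let N : Matrix (Fin (Module.finrank F L)) (Fin (Module.finrank F L)) (MvPolynomial (Option J) F) :=
    Matrix.of fun r s => (if r = s then X none else 0) - ∑ j, X (some j) * C (M j r s)
  refine ⟨N.det, ?_, ?_⟩
  · rw [Matrix.det_apply]
    refine totalDegree_finsetSum_le (fun σ _ => ?_)
    refine (totalDegree_smul_le _ _).trans ?_
    refine (totalDegree_finsetProd _ _).trans ?_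
    calc ∑ i, (N (σ i) i).totalDegree ≤ ∑ _i : Fin (Module.finrank F L), 1 :=
          Finset.sum_le_sum (fun i _ => normP_entry_deg _ _)
      _ = Module.finrank F L := by simp
  · intro T lam
    rw [Algebra.norm_eq_matrix_det b, RingHom.map_det]
    congr 1
    have h1 : Algebra.leftMulMatrix b (algebraMap k L T - ∑ j, lam j • y j) =
        algebraMap k F T • (1 : Matrix _ _ F) - ∑ j, algebraMap k F (lam j) • M j := by
      rw [map_sub, map_sum, IsScalarTower.algebraMap_apply k F L, AlgHom.commutes, Algebra.algebraMap_eq_smul_one]
      congr 1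
      refine Finset.sum_congr rfl (fun j _ => ?_)
      rw [← algebraMap_smul F (lam j) (y j), map_smul]
    rw [h1]
    ext r s
    simp only [RingHom.mapMatrix_apply, Matrix.map_apply, N, Matrix.of_apply, map_sub, map_sum, map_mul, eval_X,
      eval_C, Option.elim, Matrix.sub_apply, Matrix.smul_apply, Matrix.sum_apply, Matrix.one_apply, smul_eq_mul]
    congr 1
    split_ifs <;> simp

theorem coeff_mem [Infinite k] {F : Type} [Field F] [Algebra k F] (A : Submodule k F) {ι : Type} [Finite ι]
    (g : MvPolynomial ι F) (h : ∀ x : ι → k, eval (fun i => algebraMap k F (x i)) g ∈ A) (m : ι →₀ ℕ) : coeff m g ∈ A := by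
  classical
  by_contra hm
  obtain ⟨ℓ, hℓ, hA⟩ := Submodule.exists_le_ker_of_notMem hm
  have hq : (∑ m ∈ g.support, monomial m (ℓ (coeff m g)) : MvPolynomial ι k) = 0 := by
    refine MvPolynomial.funext (fun x => ?_)
    rw [map_zero]
    have h2 : ℓ (eval (fun i => algebraMap k F (x i)) g) = 0 := hA (h x)
    rw [← h2, eval_eq _ g, map_sum, map_sum]
    refine Finset.sum_congr rfl (fun m _ => ?_)
    rw [eval_monomial]
    have h3 : coeff m g * ∏ i ∈ m.support, algebraMap k F (x i) ^ m i = (∏ i ∈ m.support, x i ^ m i) • coeff m g := by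
      rw [Algebra.smul_def, map_prod, mul_comm]
      simp
    rw [h3, map_smul, smul_eq_mul, mul_comm]
    rfl
  have h4 := congrArg (coeff m) hq
  rw [coeff_sum, coeff_zero] at h4
  simp only [coeff_monomial] at h4
  rw [Finset.sum_ite_eq' g.support m (fun a => ℓ (coeff a g))] at h4
  by_cases hms : m ∈ g.support
  · rw [if_pos hms] at h4
    exact hℓ h4
  · rw [notMem_support_iff] at hms
    rw [hms] at hm
    exact hm A.zero_mem

variable {K : Type} [Field K] [Algebra k K] {D : ℕ} {P : Fin D → K} {J : Type} [Fintype J] {y : J → K}

open scoped IntermediateField.algebraAdjoinAdjoin in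
theorem finite_LP (hy : ∀ j, IsIntegral (Algebra.adjoin k (Set.range P)) (y j)) :
    FiniteDimensional (FP k P) (LP k P y) := by
  refine IntermediateField.finiteDimensional_adjoin ?_
  rintro _ ⟨j, rfl⟩
  exact (hy j).tower_top

open scoped IntermediateField.algebraAdjoinAdjoin in
theorem mem_adjoin_of_isIntegral (hP : AlgebraicIndependent k P) {x : FP k P}
    (hx : IsIntegral (Algebra.adjoin k (Set.range P)) (x : K)) : (x : K) ∈ Algebra.adjoin k (Set.range P) := by
  have h1 : IsIntegral (Algebra.adjoin k (Set.range P)) x := by
    rw [← isIntegral_algebraMap_iff (algebraMap (FP k P) K).injective]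
    exact hx
  have : IsIntegrallyClosed (Algebra.adjoin k (Set.range P)) :=
    IsIntegrallyClosed.of_equiv hP.aevalEquiv.toRingEquiv
  obtain ⟨z, hz⟩ := IsIntegrallyClosed.isIntegral_iff.mp h1
  rw [← hz]
  exact z.2

open scoped IntermediateField.algebraAdjoinAdjoin in
theorem nrm_mem (hP : AlgebraicIndependent k P) (hy : ∀ j, IsIntegral (Algebra.adjoin k (Set.range P)) (y j)) (T : k)
    (lam : J → k) : nrm P y T lam ∈ Algebra.adjoin k (Set.range P) := by
  have t1 : IsScalarTower (Algebra.adjoin k (Set.range P)) (LP k P y) K :=
    IsScalarTower.of_algebraMap_eq (fun _ => rfl)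
  have t2 : IsScalarTower k (LP k P y) K := IsScalarTower.of_algebraMap_eq (fun _ => rfl)
  have h1 : IsIntegral (Algebra.adjoin k (Set.range P)) (el P y T lam) := by
    rw [← isIntegral_algebraMap_iff (algebraMap (LP k P y) K).injective]
    have h2 : algebraMap (LP k P y) K (el P y T lam) = algebraMap k K T - ∑ j, lam j • y j := by
      unfold el
      rw [map_sub, map_sum, ← IsScalarTower.algebraMap_apply]
      rfl
    rw [h2]
    refine IsIntegral.sub ?_ (IsIntegral.sum _ fun j _ => ?_)
    · rw [IsScalarTower.algebraMap_apply k (Algebra.adjoin k (Set.range P)) K]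
      exact isIntegral_algebraMap
    · exact (hy j).smul (lam j)
  have h3 : IsIntegral (Algebra.adjoin k (Set.range P)) (Algebra.norm (FP k P) (el P y T lam)) :=
    Algebra.isIntegral_norm (FP k P) h1
  refine mem_adjoin_of_isIntegral hP (x := Algebra.norm (FP k P) (el P y T lam)) ?_
  exact h3.algebraMap

theorem norm_poly [Infinite k] (hP : AlgebraicIndependent k P)
    (hy : ∀ j, IsIntegral (Algebra.adjoin k (Set.range P)) (y j)) :
    ∃ G : MvPolynomial (Option J) (MvPolynomial (Fin D) k), G.totalDegree ≤ Module.finrank (FP k P) (LP k P y) ∧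
      ∀ (T : k) (lam : J → k), aeval P (eval (fun o => C (o.elim T lam)) G) = nrm P y T lam := by
  classical
  have := finite_LP hy
  obtain ⟨G, hG, hev⟩ := det_poly (k := k) (F := FP k P) (L := LP k P y) (yL k P y)
  have hcoef : ∀ m, coeff m G ∈ (Subalgebra.toSubmodule (Algebra.adjoin k (Set.range P))).comap
      (FP k P).val.toLinearMap := by
    refine coeff_mem _ G (fun x => ?_)
    have h1 := hev (x none) (fun j => x (some j))
    have h2 : (fun o : Option J => algebraMap k (FP k P) (o.elim (x none) (fun j => x (some j)))) =
        fun o => algebraMap k (FP k P) (x o) := by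
      funext o
      cases o <;> rfl
    rw [h2] at h1
    rw [h1]
    exact nrm_mem hP hy (x none) (fun j => x (some j))
  have hcoef2 : ∀ m, ∃ h : MvPolynomial (Fin D) k, aeval P h = ((coeff m G : FP k P) : K) := by
    intro m
    have h1 : ((coeff m G : FP k P) : K) ∈ Algebra.adjoin k (Set.range P) := hcoef m
    rw [Algebra.adjoin_range_eq_range_aeval] at h1
    exact h1
  choose h hh using hcoef2
  refine ⟨∑ m ∈ G.support, monomial m (h m), ?_, fun T lam => ?_⟩
  · refine (totalDegree_finsetSum_le (fun m hm => ?_)).trans hG
    exact (totalDegree_monomial_le _ _).trans (le_totalDegree hm)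
  · have h1 : nrm P y T lam = algebraMap (FP k P) K (eval (fun o => algebraMap k (FP k P) (o.elim T lam)) G) := by
      rw [hev]; rfl
    rw [h1, eval_eq _ G, map_sum, map_sum, map_sum]
    refine Finset.sum_congr rfl (fun m _ => ?_)
    rw [eval_monomial, map_mul, hh, map_mul]
    congr 1
    rw [Finsupp.prod, map_prod, map_prod]
    refine Finset.prod_congr rfl (fun o _ => ?_)
    rw [map_pow, map_pow, aeval_C, ← IsScalarTower.algebraMap_apply]

end Pool.Agent.VPE
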