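import Pool.Agent.VPE.Base

/-!
# [VPE-NUM] numerical bounds

Put `x = m + 2 ≥ 2`. `(m+1)(m+2)(2m+1) + 1 ≤ 2 x^3`, `(m+3)^m ≤ 2^(x^2)` (`m + 3 ≤ 2 ^ (m + 2)`), `2 x^3 + 2 ≤ 2^(3x)`, so
`Tb ((m+3)^m) (card + 1) ≤ 2 * 2 ^ (3 x^2 * 2 x^3) * 2^(3x) + 1 ≤ 2 ^ (7 x^5)`, `(m+1)^m + 1 ≤ 2 ^ (x^2)`,
`1 + 2 * 2^(7x^5) * 2^(x^2) < 2^(8x^5)`, `(m+1)^m * (2^(7x^5) + 1) ≤ 2^(8x^5)`, `(m+1)(m+2)(2m+1) + 4 ≤ 3x^3`, and
`m + 3x^3 * 8x^5 + 8x^5 ≤ 26 x^8`, `m^2 + 3x^3 * 8x^5 + 8x^5 ≤ 26 x^8`.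
-/

set_option autoImplicit false

namespace Pool.Agent.VPE

/-- the number of parameters of the universal programs -/
def np (m : ℕ) : ℕ := (m + 1) * (m + 2) * (2 * m + 1)

/-- number of bits -/
def nb (m : ℕ) : ℕ := 8 * (m + 2) ^ 5

/-- number of variables of the oracle -/
def V (m : ℕ) : ℕ := 26 * (m + 2) ^ 8

private theorem num_np (m : ℕ) : np m + 5 ≤ 2 * (m + 2) ^ 3 := by
  have h : 2 * (m + 2) ^ 3 = np m + 5 + (5 * m ^ 2 + 17 * m + 9) := by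
    unfold np
    ring
  omega

private theorem num_two_pow (m : ℕ) : 2 * (m + 2) ≤ 2 ^ (m + 2) := by
  induction m with
  | zero => norm_num
  | succ m ih =>
    rw [show m + 1 + 2 = (m + 2) + 1 from rfl, pow_succ]
    omega

private theorem num_cube (m : ℕ) : 2 * (m + 2) ^ 3 ≤ 2 ^ (3 * (m + 2)) := by
  have h := Nat.pow_le_pow_left (num_two_pow m) 3
  rw [← pow_mul, mul_comm (m + 2) 3, mul_pow] at h
  calc 2 * (m + 2) ^ 3 ≤ 2 ^ 3 * (m + 2) ^ 3 := Nat.mul_le_mul_right _ (by norm_num)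
    _ ≤ _ := h

private theorem num_five (x : ℕ) (hx : 2 ≤ x) : (x ^ 2 + 3 * x) * (2 * x ^ 3) + 3 * x + 2 ≤ 7 * x ^ 5 := by
  have h1 : 2 * x ^ 4 ≤ x ^ 5 := by
    calc 2 * x ^ 4 ≤ x * x ^ 4 := Nat.mul_le_mul_right _ hx
      _ = x ^ 5 := by ring
  have h2 : 16 * x ≤ x ^ 5 := by
    have h3 : 2 ^ 4 ≤ x ^ 4 := Nat.pow_le_pow_left hx 4
    calc 16 * x ≤ x ^ 4 * x := Nat.mul_le_mul_right _ (by simpa using h3)
      _ = x ^ 5 := by ring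
  have h4 : (x ^ 2 + 3 * x) * (2 * x ^ 3) = 2 * x ^ 5 + 3 * (2 * x ^ 4) := by ring
  rw [h4]
  omega

private theorem num_sq (m : ℕ) : m * m + 2 ≤ (m + 2) ^ 5 := by
  have h1 : m * m + 2 ≤ (m + 2) ^ 2 := by
    have : (m + 2) ^ 2 = m * m + 2 + (4 * m + 2) := by ring
    omega
  exact h1.trans (Nat.pow_le_pow_right (by omega) (by norm_num))

private theorem num_mm (m : ℕ) : (m + 1) ^ m ≤ 2 ^ (m * m) := by
  rw [pow_mul]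
  exact Nat.pow_le_pow_left (Nat.lt_two_pow_self (n := m)) m

theorem le_V (m : ℕ) : m ≤ V m := by
  unfold V
  have h : m + 2 ≤ (m + 2) ^ 8 := Nat.le_self_pow (by norm_num) _
  omega

theorem Tb_bound (m : ℕ) : Tb ((m + 3) ^ m) (np m + 1) ≤ 2 ^ (7 * (m + 2) ^ 5) := by
  obtain ⟨x, hx⟩ : ∃ x, x = m + 2 := ⟨_, rfl⟩
  have hx2 : 2 ≤ x := by omega
  have h1 := num_np m
  have h2 := num_cube m
  rw [← hx] at h1 h2
  have hE : (m + 3) ^ m ≤ 2 ^ (x ^ 2) := by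
    have h3 : m + 3 ≤ 2 ^ x := by
      have := num_two_pow m
      rw [← hx] at this
      omega
    calc (m + 3) ^ m ≤ (2 ^ x) ^ m := Nat.pow_le_pow_left h3 m
      _ = 2 ^ (x * m) := by rw [pow_mul]
      _ ≤ 2 ^ (x ^ 2) := by
        refine Nat.pow_le_pow_right (by norm_num) ?_
        rw [pow_two]
        exact Nat.mul_le_mul_left _ (by omega)
  rw [← hx]
  unfold Tb
  have hb : (m + 3) ^ m * (np m + 1 + 1) + 1 ≤ 2 ^ (x ^ 2 + 3 * x) := by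
    have hpos : 1 ≤ 2 ^ (x ^ 2) := Nat.one_le_two_pow
    calc (m + 3) ^ m * (np m + 1 + 1) + 1 ≤ 2 ^ (x ^ 2) * (np m + 1 + 1) + 2 ^ (x ^ 2) :=
          Nat.add_le_add (Nat.mul_le_mul_right _ hE) hpos
      _ = 2 ^ (x ^ 2) * (np m + 3) := by ring
      _ ≤ 2 ^ (x ^ 2) * 2 ^ (3 * x) := Nat.mul_le_mul_left _ (by omega)
      _ = 2 ^ (x ^ 2 + 3 * x) := by rw [← pow_add]
  have hc : ((m + 3) ^ m * (np m + 1 + 1) + 1) ^ (np m + 1) ≤ 2 ^ ((x ^ 2 + 3 * x) * (2 * x ^ 3)) := by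
    calc ((m + 3) ^ m * (np m + 1 + 1) + 1) ^ (np m + 1) ≤ (2 ^ (x ^ 2 + 3 * x)) ^ (np m + 1) :=
          Nat.pow_le_pow_left hb _
      _ = 2 ^ ((x ^ 2 + 3 * x) * (np m + 1)) := by rw [← pow_mul]
      _ ≤ 2 ^ ((x ^ 2 + 3 * x) * (2 * x ^ 3)) :=
          Nat.pow_le_pow_right (by norm_num) (Nat.mul_le_mul_left _ (by omega))
  have hd : np m + 1 + 2 ≤ 2 ^ (3 * x) := by omega
  have he : 2 * ((m + 3) ^ m * (np m + 1 + 1) + 1) ^ (np m + 1) * (np m + 1 + 2)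
      ≤ 2 ^ ((x ^ 2 + 3 * x) * (2 * x ^ 3) + 3 * x + 1) := by
    calc 2 * ((m + 3) ^ m * (np m + 1 + 1) + 1) ^ (np m + 1) * (np m + 1 + 2)
        ≤ 2 * 2 ^ ((x ^ 2 + 3 * x) * (2 * x ^ 3)) * 2 ^ (3 * x) :=
          Nat.mul_le_mul (Nat.mul_le_mul_left _ hc) hd
      _ = 2 ^ ((x ^ 2 + 3 * x) * (2 * x ^ 3) + 3 * x + 1) := by
          rw [pow_succ, pow_add]
          ring
  have hf : 1 ≤ 2 ^ ((x ^ 2 + 3 * x) * (2 * x ^ 3) + 3 * x + 1) := Nat.one_le_two_pow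
  calc 2 * ((m + 3) ^ m * (np m + 1 + 1) + 1) ^ (np m + 1) * (np m + 1 + 2) + 1
      ≤ 2 ^ ((x ^ 2 + 3 * x) * (2 * x ^ 3) + 3 * x + 1)
        + 2 ^ ((x ^ 2 + 3 * x) * (2 * x ^ 3) + 3 * x + 1) := Nat.add_le_add he hf
    _ = 2 ^ ((x ^ 2 + 3 * x) * (2 * x ^ 3) + 3 * x + 2) := by
        rw [pow_succ 2 ((x ^ 2 + 3 * x) * (2 * x ^ 3) + 3 * x + 1)]
        ring
    _ ≤ 2 ^ (7 * x ^ 5) := Nat.pow_le_pow_right (by norm_num) (num_five x hx2)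

theorem num_deg (m : ℕ) : 1 + 2 * Tb ((m + 3) ^ m) (np m + 1) * ((m + 1) ^ m + 1) < 2 ^ nb m := by
  have h1 := Tb_bound m
  have h2 := num_mm m
  have h3 := num_sq m
  unfold nb
  have h4 : (m + 1) ^ m + 1 ≤ 2 ^ (m * m + 1) := by
    have : 1 ≤ 2 ^ (m * m) := Nat.one_le_two_pow
    rw [pow_succ]
    omega
  have h5 : 2 * Tb ((m + 3) ^ m) (np m + 1) * ((m + 1) ^ m + 1)
      ≤ 2 ^ (7 * (m + 2) ^ 5 + m * m + 2) := by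
    calc 2 * Tb ((m + 3) ^ m) (np m + 1) * ((m + 1) ^ m + 1)
        ≤ 2 * 2 ^ (7 * (m + 2) ^ 5) * 2 ^ (m * m + 1) :=
          Nat.mul_le_mul (Nat.mul_le_mul_left _ h1) h4
      _ = 2 ^ (7 * (m + 2) ^ 5 + m * m + 2) := by
          rw [show 7 * (m + 2) ^ 5 + m * m + 2 = 7 * (m + 2) ^ 5 + (m * m + 1) + 1 from by ring,
            pow_succ 2 (7 * (m + 2) ^ 5 + (m * m + 1)), pow_add 2 (7 * (m + 2) ^ 5) (m * m + 1)]
          ring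
  have h6 : 3 ≤ 2 ^ (7 * (m + 2) ^ 5 + m * m + 2) := by
    have : 2 ^ 2 ≤ 2 ^ (7 * (m + 2) ^ 5 + m * m + 2) :=
      Nat.pow_le_pow_right (by norm_num) (by omega)
    omega
  have h7 : (m + 2) ^ 5 ≥ m * m + 3 := by
    have h8 : (m + 2) ^ 2 = m * m + 2 + (4 * m + 2) := by ring
    have h9 : (m + 2) ^ 2 ≤ (m + 2) ^ 5 := Nat.pow_le_pow_right (by omega) (by norm_num)
    omega
  calc 1 + 2 * Tb ((m + 3) ^ m) (np m + 1) * ((m + 1) ^ m + 1)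
      ≤ 1 + 2 ^ (7 * (m + 2) ^ 5 + m * m + 2) := Nat.add_le_add_left h5 1
    _ < 2 ^ (7 * (m + 2) ^ 5 + m * m + 2 + 1) := by
        rw [pow_succ 2 (7 * (m + 2) ^ 5 + m * m + 2)]
        omega
    _ ≤ 2 ^ (8 * (m + 2) ^ 5) := Nat.pow_le_pow_right (by norm_num) (by omega)

theorem num_card (m : ℕ) : (m + 1) ^ m * (Tb ((m + 3) ^ m) (np m + 1) + 1) ≤ 2 ^ nb m := by
  have h1 := Tb_bound m
  have h2 := num_mm m
  have h3 := num_sq m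
  unfold nb
  have h4 : Tb ((m + 3) ^ m) (np m + 1) + 1 ≤ 2 ^ (7 * (m + 2) ^ 5 + 1) := by
    have : 1 ≤ 2 ^ (7 * (m + 2) ^ 5) := Nat.one_le_two_pow
    rw [pow_succ]
    omega
  calc (m + 1) ^ m * (Tb ((m + 3) ^ m) (np m + 1) + 1)
      ≤ 2 ^ (m * m) * 2 ^ (7 * (m + 2) ^ 5 + 1) := Nat.mul_le_mul h2 h4
    _ = 2 ^ (m * m + (7 * (m + 2) ^ 5 + 1)) := by rw [← pow_add]
    _ ≤ 2 ^ (8 * (m + 2) ^ 5) := Nat.pow_le_pow_right (by norm_num) (by omega)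

theorem num_vars (m : ℕ) : m + ((np m + 4) * nb m + nb m) ≤ V m := by
  have h1 := num_np m
  have h2 : m ≤ (m + 2) ^ 8 := by
    have : m + 2 ≤ (m + 2) ^ 8 := Nat.le_self_pow (by norm_num) _
    omega
  unfold nb V
  have h3 : (np m + 4) * (8 * (m + 2) ^ 5) + 8 * (m + 2) ^ 5 ≤ 16 * (m + 2) ^ 8 := by
    calc (np m + 4) * (8 * (m + 2) ^ 5) + 8 * (m + 2) ^ 5 = (np m + 5) * (8 * (m + 2) ^ 5) := by ring
      _ ≤ 2 * (m + 2) ^ 3 * (8 * (m + 2) ^ 5) := Nat.mul_le_mul_right _ h1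
      _ = 16 * (m + 2) ^ 8 := by ring
  omega

theorem num_tot (m : ℕ) : m * m + (np m + 4) * nb m + nb m ≤ V m := by
  have h1 := num_np m
  have h2 : m * m ≤ (m + 2) ^ 8 := by
    have h4 : m * m + 2 ≤ (m + 2) ^ 5 := num_sq m
    have h5 : (m + 2) ^ 5 ≤ (m + 2) ^ 8 := Nat.pow_le_pow_right (by omega) (by norm_num)
    omega
  unfold nb V
  have h3 : (np m + 4) * (8 * (m + 2) ^ 5) + 8 * (m + 2) ^ 5 ≤ 16 * (m + 2) ^ 8 := by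
    calc (np m + 4) * (8 * (m + 2) ^ 5) + 8 * (m + 2) ^ 5 = (np m + 5) * (8 * (m + 2) ^ 5) := by ring
      _ ≤ 2 * (m + 2) ^ 3 * (8 * (m + 2) ^ 5) := Nat.mul_le_mul_right _ h1
      _ = 16 * (m + 2) ^ 8 := by ring
  omega

end Pool.Agent.VPE
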