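import Pool.Agent.VPE.Univ

/-!
# [VPE-UNIVB] the universal family with finitely many parameters

`uout_congr`: `ulist G c w` for `w.length ≤ m` depends only on `c b a t` with `b < m`, `a < 2` or `a < G.vars i < m`, and `t = none`, `inl i` or `inr q` with `q < m`.
`map_uout`: naturality, induction on `w`; for oracle gates: `MvPolynomial.map` as a `k`-algebra homomorphism commutes with `aeval` (see `Comp.map` in VPO/Upper).
`deg_ulist`: with `d_l` a bound for the coefficient degrees of `aff (ulist ..) (c b a)` for lists of length `l` (`c b a t` of degree `≤ 1`): `d_0 = 1`,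
`d_(l+1) ≤ 1 + (m + 2) * d_l`, so `d_l ≤ (m + 3) ^ l`. (`CB d p`: all coefficients of `p` have total degree `≤ d`; sums, products, `aeval`.)
`univ`: `sim_out`, and `κ (b, a, t) = c b a t`; `aeval κ` maps `gen` to a family which agrees with `c` in the range of `uout_congr`.
-/

set_option autoImplicit false

open MvPolynomial Pool.Agent.VPO

namespace Pool.Agent.VPE

variable {k : Type} [Field k]

/-- the parameters -/
abbrev Par (n m : ℕ) : Type := Fin (m + 1) × Fin (m + 2) × Option (Fin n ⊕ Fin m)

/-- the generic coefficients -/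
noncomputable def gen (k : Type) [Field k] (n m : ℕ) (b a : ℕ) (t : Option (Fin n ⊕ ℕ)) : MvPolynomial (Par n m) k :=
  if hb : b < m + 1 then
    if ha : a < m + 2 then
      match t with
      | none => X (⟨b, hb⟩, ⟨a, ha⟩, none)
      | some (Sum.inl i) => X (⟨b, hb⟩, ⟨a, ha⟩, some (Sum.inl i))
      | some (Sum.inr q) => if hq : q < m then X (⟨b, hb⟩, ⟨a, ha⟩, some (Sum.inr ⟨q, hq⟩)) else 0
    else 0
  else 0

/-- all coefficients of `p` have total degree at most `d` -/
def CB {n : ℕ} {S : Type} (d : ℕ) (p : MvPolynomial (Fin n) (MvPolynomial S k)) : Prop :=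
  ∀ ν, (coeff ν p).totalDegree ≤ d

private theorem CB.mono' {n : ℕ} {S : Type} {d e : ℕ} {p : MvPolynomial (Fin n) (MvPolynomial S k)} (hp : CB d p)
    (h : d ≤ e) : CB e p := fun ν => (hp ν).trans h

private theorem CB.mul' {n : ℕ} {S : Type} {d e : ℕ} {p q : MvPolynomial (Fin n) (MvPolynomial S k)} (hp : CB d p)
    (hq : CB e q) : CB (d + e) (p * q) := by
  classical
  intro ν
  rw [coeff_mul]
  refine totalDegree_finsetSum_le fun x _ => ?_
  exact (totalDegree_mul _ _).trans (Nat.add_le_add (hp _) (hq _))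

private theorem CB.add' {n : ℕ} {S : Type} {d : ℕ} {p q : MvPolynomial (Fin n) (MvPolynomial S k)} (hp : CB d p)
    (hq : CB d q) : CB d (p + q) := by
  intro ν
  rw [coeff_add]
  exact (totalDegree_add _ _).trans (max_le (hp ν) (hq ν))

private theorem CB.zero' {n : ℕ} {S : Type} {d : ℕ} : CB d (0 : MvPolynomial (Fin n) (MvPolynomial S k)) := by
  intro ν
  rw [coeff_zero, totalDegree_zero]
  exact Nat.zero_le _

private theorem CB.sum' {n : ℕ} {S ι : Type} {d : ℕ} (s : Finset ι) {p : ι → MvPolynomial (Fin n) (MvPolynomial S k)}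
    (hp : ∀ i ∈ s, CB d (p i)) : CB d (∑ i ∈ s, p i) := by
  classical
  induction s using Finset.induction_on with
  | empty => rw [Finset.sum_empty]; exact CB.zero'
  | insert a s ha ih =>
    rw [Finset.sum_insert ha]
    exact (hp a (Finset.mem_insert_self _ _)).add' (ih fun i hi => hp i (Finset.mem_insert_of_mem hi))

private theorem CB.C' {n : ℕ} {S : Type} {d : ℕ} {c : MvPolynomial S k} (hc : c.totalDegree ≤ d) :
    CB d (C c : MvPolynomial (Fin n) (MvPolynomial S k)) := by
  classical
  intro ν
  rw [coeff_C]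
  split_ifs
  · exact hc
  · rw [totalDegree_zero]; exact Nat.zero_le _

private theorem CB.one' {n : ℕ} {S : Type} : CB 0 (1 : MvPolynomial (Fin n) (MvPolynomial S k)) := by
  have h : CB (n := n) (k := k) 0 (C (1 : MvPolynomial S k)) := CB.C' (by rw [totalDegree_one])
  rwa [C_1] at h

private theorem CB.X' {n : ℕ} {S : Type} (i : Fin n) : CB 0 (X i : MvPolynomial (Fin n) (MvPolynomial S k)) := by
  classical
  intro ν
  rw [coeff_X]
  split_ifs
  · rw [totalDegree_one]
  · rw [totalDegree_zero]

private theorem CB.pow' {n : ℕ} {S : Type} {d : ℕ} {p : MvPolynomial (Fin n) (MvPolynomial S k)} (hp : CB d p)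
    (j : ℕ) : CB (j * d) (p ^ j) := by
  induction j with
  | zero => rw [pow_zero, zero_mul]; exact CB.one'
  | succ j ih =>
    rw [pow_succ, Nat.succ_mul]
    exact ih.mul' hp

private theorem CB.prod' {n : ℕ} {S ι : Type} (s : Finset ι) {d : ι → ℕ}
    {p : ι → MvPolynomial (Fin n) (MvPolynomial S k)}
    (hp : ∀ i ∈ s, CB (d i) (p i)) : CB (∑ i ∈ s, d i) (∏ i ∈ s, p i) := by
  classical
  induction s using Finset.induction_on with
  | empty => rw [Finset.prod_empty, Finset.sum_empty]; exact CB.one'
  | insert a s ha ih =>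
    rw [Finset.prod_insert ha, Finset.sum_insert ha]
    exact (hp a (Finset.mem_insert_self _ _)).mul' (ih fun i hi => hp i (Finset.mem_insert_of_mem hi))

theorem CB.aeval_poly {n : ℕ} {S : Type} {d e q : ℕ} {a : Fin q → MvPolynomial (Fin n) (MvPolynomial S k)}
    (ha : ∀ i, CB d (a i)) {g : MvPolynomial (Fin q) k} (hg : g.totalDegree ≤ e) : CB (e * d) (aeval a g) := by
  rw [aeval_def, eval₂_eq']
  refine CB.sum' _ fun ν hν => ?_
  have h1 : CB (n := n) (k := k) 0 (algebraMap k (MvPolynomial (Fin n) (MvPolynomial S k)) (coeff ν g)) := by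
    have : algebraMap k (MvPolynomial (Fin n) (MvPolynomial S k)) (coeff ν g) = C (C (coeff ν g)) := rfl
    rw [this]
    exact CB.C' (by rw [totalDegree_C])
  have h2 : CB (∑ i, ν i * d) (∏ i, a i ^ ν i) := CB.prod' _ fun i _ => (ha i).pow' (ν i)
  have h3 : ∑ i, ν i ≤ e := by
    have := (le_totalDegree hν).trans hg
    rwa [Finsupp.sum_fintype _ _ (fun _ => rfl)] at this
  refine (h1.mul' h2).mono' ?_
  rw [zero_add, ← Finset.sum_mul]
  exact Nat.mul_le_mul_right _ h3

theorem CB.mul {n : ℕ} {S : Type} {d e : ℕ} {p q : MvPolynomial (Fin n) (MvPolynomial S k)} (hp : CB d p)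
    (hq : CB e q) : CB (d + e) (p * q) := hp.mul' hq

private theorem CB.aff' {n : ℕ} {S : Type} {d : ℕ} {l : List (MvPolynomial (Fin n) (MvPolynomial S k))}
    (hl : ∀ p ∈ l, CB d p) {c : Option (Fin n ⊕ ℕ) → MvPolynomial S k} (hc : ∀ t, (c t).totalDegree ≤ 1) :
    CB (1 + d) (aff l c) := by
  unfold aff
  refine ((CB.C' (hc _)).mono' (by omega)).add' ?_ |>.add' ?_
  · refine CB.sum' _ fun i _ => ?_
    exact ((CB.C' (hc _)).mul' (CB.X' i)).mono' (by omega)
  · refine CB.sum' _ fun q hq => ?_
    refine (CB.C' (hc _)).mul' ?_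
    rw [List.getD_eq_getElem _ _ (Finset.mem_range.1 hq)]
    exact hl _ (List.getElem_mem _)

private theorem CB.aff0' {n : ℕ} {S : Type}
    {c : Option (Fin n ⊕ ℕ) → MvPolynomial S k} (hc : ∀ t, (c t).totalDegree ≤ 1) :
    CB 1 (aff ([] : List (MvPolynomial (Fin n) (MvPolynomial S k))) c) :=
  CB.aff' (d := 0) (by simp) hc

private theorem deg_ulist' (G : PFamily k) {n m : ℕ} {S : Type}
    (hdeg : ∀ i, G.vars i < m → (G.poly i).totalDegree ≤ m)
    (c : ℕ → ℕ → Option (Fin n ⊕ ℕ) → MvPolynomial S k) (hc : ∀ b a t, (c b a t).totalDegree ≤ 1)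
    (w : List (Option ℕ)) (hw : ∀ i, some i ∈ w → G.vars i < m) :
    ∀ p ∈ ulist G c w, CB ((m + 3) ^ w.length - 1) p := by
  induction w with
  | nil => simp [ulist]
  | cons g w ih =>
    have ih' := ih fun i hi => hw i (List.mem_cons_of_mem _ hi)
    have h1 : 1 ≤ (m + 3) ^ w.length := Nat.one_le_pow _ _ (by omega)
    have haff : ∀ a, CB ((m + 3) ^ w.length) (aff (ulist G c w) (c w.length a)) := by
      intro a
      refine (CB.aff' ih' (hc _ _)).mono' (by omega)
    have h2 : (m + 2) * (m + 3) ^ w.length ≤ (m + 3) ^ (g :: w).length - 1 := by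
      rw [List.length_cons, pow_succ]
      have : (m + 3) ^ w.length * (m + 3) = (m + 2) * (m + 3) ^ w.length + (m + 3) ^ w.length := by ring
      omega
    have h3 : (m + 3) ^ w.length - 1 ≤ (m + 3) ^ (g :: w).length - 1 := by
      have : (m + 3) ^ w.length ≤ (m + 2) * (m + 3) ^ w.length := Nat.le_mul_of_pos_left _ (by omega)
      omega
    cases g with
    | none =>
      intro p hp
      simp only [ulist, List.mem_cons] at hp
      rcases hp with rfl | hp
      · refine ((haff 0).mul' (haff 1)).mono' (le_trans ?_ h2)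
        nlinarith
      · exact (ih' p hp).mono' h3
    | some i =>
      intro p hp
      simp only [ulist, List.mem_cons] at hp
      rcases hp with rfl | hp
      · refine (CB.aeval_poly (fun a : Fin (G.vars i) => haff a)
          (hdeg i (hw i List.mem_cons_self))).mono' (le_trans ?_ h2)
        exact Nat.mul_le_mul_right _ (by omega)
      · exact (ih' p hp).mono' h3

theorem deg_uout (G : PFamily k) {n m : ℕ} {S : Type} (hdeg : ∀ i, G.vars i < m → (G.poly i).totalDegree ≤ m)
    (c : ℕ → ℕ → Option (Fin n ⊕ ℕ) → MvPolynomial S k) (hc : ∀ b a t, (c b a t).totalDegree ≤ 1)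
    (w : List (Option ℕ)) (hw : ∀ i, some i ∈ w → G.vars i < m) : CB ((m + 3) ^ w.length) (uout G c w) := by
  have h1 : 1 ≤ (m + 3) ^ w.length := Nat.one_le_pow _ _ (by omega)
  exact (CB.aff' (deg_ulist' G hdeg c hc w hw) (hc _ _)).mono' (by omega)

private theorem aff_congr' {n : ℕ} {R : Type} [CommRing R] (l : List (MvPolynomial (Fin n) R))
    (c c' : Option (Fin n ⊕ ℕ) → R) (h : ∀ t, (∀ q, t = some (Sum.inr q) → q < l.length) → c t = c' t) :
    aff l c = aff l c' := by
  unfold aff
  rw [h none (by simp)]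
  congr 1
  · congr 1
    refine Finset.sum_congr rfl fun i _ => ?_
    rw [h (some (Sum.inl i)) (by simp)]
  · refine Finset.sum_congr rfl fun q hq => ?_
    rw [h (some (Sum.inr q)) (fun q' hq' => by
      simp only [Option.some.injEq, Sum.inr.injEq] at hq'
      subst hq'
      exact Finset.mem_range.1 hq)]

private theorem ulist_congr' (G : PFamily k) {n m : ℕ} {R : Type} [CommRing R] [Algebra k R]
    (c c' : ℕ → ℕ → Option (Fin n ⊕ ℕ) → R) (w : List (Option ℕ)) (hw : ∀ i, some i ∈ w → G.vars i < m)
    (hl : w.length ≤ m)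
    (h : ∀ b a t, b < m + 1 → a < m + 2 → (∀ q, t = some (Sum.inr q) → q < m) → c b a t = c' b a t) :
    ulist G c w = ulist G c' w := by
  induction w with
  | nil => rfl
  | cons g w ih =>
    rw [List.length_cons] at hl
    have ih' := ih (fun i hi => hw i (List.mem_cons_of_mem _ hi)) (by omega)
    have haff : ∀ a < m + 2, aff (ulist G c w) (c w.length a) = aff (ulist G c' w) (c' w.length a) := by
      intro a ha
      rw [ih']
      refine aff_congr' _ _ _ fun t ht => h _ _ _ (by omega) ha fun q hq => ?_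
      have := ht q hq
      rw [ulist_length] at this
      omega
    cases g with
    | none =>
      simp only [ulist]
      rw [haff 0 (by omega), haff 1 (by omega), ih']
    | some i =>
      simp only [ulist]
      have hi := hw i List.mem_cons_self
      have h2 : (fun a : Fin (G.vars i) => aff (ulist G c w) (c w.length a))
          = fun a : Fin (G.vars i) => aff (ulist G c' w) (c' w.length a) := by
        funext a
        exact haff a (by omega)
      rw [h2, ih']

theorem uout_congr (G : PFamily k) {n m : ℕ} {R : Type} [CommRing R] [Algebra k R]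
    (c c' : ℕ → ℕ → Option (Fin n ⊕ ℕ) → R) (w : List (Option ℕ)) (hw : ∀ i, some i ∈ w → G.vars i < m)
    (hl : w.length ≤ m)
    (h : ∀ b a t, b < m + 1 → a < m + 2 → (∀ q, t = some (Sum.inr q) → q < m) → c b a t = c' b a t) :
    uout G c w = uout G c' w := by
  unfold uout
  rw [ulist_congr' G c c' w hw hl h]
  refine aff_congr' _ _ _ fun t ht => h _ _ _ (by omega) (by omega) fun q hq => ?_
  have := ht q hq
  rw [ulist_length] at this
  omega

private theorem map_aff' {n : ℕ} {R R' : Type} [CommRing R] [CommRing R'] (ρ : R →+* R')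
    (l : List (MvPolynomial (Fin n) R)) (c : Option (Fin n ⊕ ℕ) → R) :
    MvPolynomial.map ρ (aff l c) = aff (l.map (MvPolynomial.map ρ)) (fun t => ρ (c t)) := by
  unfold aff
  simp only [map_add, map_sum, map_mul, map_C, map_X, List.length_map]
  congr 1
  refine Finset.sum_congr rfl fun q hq => ?_
  have hq' := Finset.mem_range.1 hq
  rw [List.getD_eq_getElem _ _ hq', List.getD_eq_getElem _ _ (by simpa using hq'), List.getElem_map]

private theorem map_aeval' {n q : ℕ} {R R' : Type} [CommRing R] [CommRing R'] [Algebra k R] [Algebra k R']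
    (ρ : R →ₐ[k] R') (a : Fin q → MvPolynomial (Fin n) R) (g : MvPolynomial (Fin q) k) :
    MvPolynomial.map (ρ : R →+* R') (aeval a g) = aeval (fun i => MvPolynomial.map (ρ : R →+* R') (a i)) g := by
  have h2 : (MvPolynomial.mapAlgHom ρ : MvPolynomial (Fin n) R →ₐ[k] MvPolynomial (Fin n) R') (aeval a g) =
      aeval (fun i => (MvPolynomial.mapAlgHom ρ : MvPolynomial (Fin n) R →ₐ[k] MvPolynomial (Fin n) R') (a i)) g := by
    rw [← MvPolynomial.comp_aeval_apply]
  exact h2

private theorem map_ulist' (G : PFamily k) {n : ℕ} {R R' : Type} [CommRing R] [CommRing R'] [Algebra k R]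
    [Algebra k R'] (ρ : R →ₐ[k] R') (c : ℕ → ℕ → Option (Fin n ⊕ ℕ) → R) (w : List (Option ℕ)) :
    (ulist G c w).map (MvPolynomial.map (ρ : R →+* R')) = ulist G (fun b a t => ρ (c b a t)) w := by
  induction w with
  | nil => rfl
  | cons g w ih =>
    cases g with
    | none =>
      simp only [ulist, List.map_cons, map_mul, map_aff', ih]
      rfl
    | some i =>
      simp only [ulist, List.map_cons, map_aeval', map_aff', ih]
      rfl

theorem map_uout (G : PFamily k) {n : ℕ} {R R' : Type} [CommRing R] [CommRing R'] [Algebra k R] [Algebra k R']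
    (ρ : R →ₐ[k] R') (c : ℕ → ℕ → Option (Fin n ⊕ ℕ) → R) (w : List (Option ℕ)) :
    MvPolynomial.map (ρ : R →+* R') (uout G c w) = uout G (fun b a t => ρ (c b a t)) w := by
  unfold uout
  rw [map_aff', map_ulist']
  rfl

theorem univ (G : PFamily k) (hG : ∀ i, i ≤ G.vars i) {F : Type} [Field F] [Algebra k F] {n r m : ℕ} (hr : r ≤ m)
    {f : MvPolynomial (Fin n) F} (h : ComputedBy G f r) :
    ∃ (w : Fin m → Option (Fin m)) (κ : Par n m → F), (∀ i, some i ∈ gates w → G.vars i < m) ∧
      f = MvPolynomial.map ((aeval κ : MvPolynomial (Par n m) k →ₐ[k] F) : MvPolynomial (Par n m) k →+* F)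
        (uout G (gen k n m) (gates w)) := by
  obtain ⟨w, c, hw, hf⟩ := sim_out G hG hr h
  let emb : Option (Fin n ⊕ Fin m) → Option (Fin n ⊕ ℕ) := fun t => match t with
    | none => none
    | some (Sum.inl i) => some (Sum.inl i)
    | some (Sum.inr q) => some (Sum.inr q.1)
  refine ⟨w, fun x => c x.1.1 x.2.1.1 (emb x.2.2), hw, ?_⟩
  rw [map_uout, hf]
  refine uout_congr G _ _ _ hw (gates_length w).le ?_
  intro b a t hb ha ht
  unfold gen
  rw [dif_pos hb, dif_pos ha]
  rcases t with _ | (i | q)
  · simp [emb]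
  · simp [emb]
  · have hq := ht q rfl
    simp [emb, hq]

theorem deg_univ (G : PFamily k) {n m : ℕ} (hdeg : ∀ i, G.vars i < m → (G.poly i).totalDegree ≤ m)
    (w : Fin m → Option (Fin m)) (hw : ∀ i, some i ∈ gates w → G.vars i < m) (ν : Fin n →₀ ℕ) :
    (coeff ν (uout G (gen k n m) (gates w))).totalDegree ≤ (m + 3) ^ m := by
  have h := deg_uout G hdeg (gen k n m) (fun b a t => ?_) (gates w) hw ν
  · rwa [gates_length] at h
  · unfold gen
    split_ifs with h1 h2
    · rcases t with _ | (i | q)
      · simp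
      · simp
      · simp only
        split_ifs
        · simp
        · simp
    · simp
    · simp

end Pool.Agent.VPE
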