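import Pool.Agent.VPE.Cover
import Pool.Agent.VPE.UnivB
import Pool.Agent.VPE.Lim
import Pool.Agent.VPE.Bin
import Pool.Agent.VPE.Num

/-!
# [VPE-STEP] one polynomial which covers the closure of the programs of cost `m`

Take `n ≤ m`; `f' = rename (Fin.castLE _) f` in `m` variables, `Lapp G f' ≤ m` (`Lapp_rename`). `J = Fin m → Fin (m + 1)`, `e j` the exponent vector `j`.
`A = (Fin m → Option (Fin m)) × Fin (Tb .. + 1)`. For `w` with `∀ i, some i ∈ gates w → G.vars i < m` let `Ψ_w` be the family of `cover` for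
`z j = coeff (e j) (uout G (gen k m m) (gates w))` (degrees `≤ (m + 3) ^ m`, `deg_univ`), for other `w` zero. `Fintype.card (Par m m) = np m`. `encode` with `d = m * m`, `b = B = nb m`;
`num_deg`, `num_card`. Rename the variables of the resulting polynomial into `Fin (V m)` (`num_vars`: injection). For `f`: `exists_Lapp`, `univ`, `lim` give the hypothesis of
`cover`, so `coeff (e j) f' = eval c (Ψ_w μ j)` for all `j`, and `f' = ∑ j, monomial (e j) (coeff (e j) f')` since `f'` has total degree `≤ m`.
Finally `f = aeval (fun i => if i < n then X i else 0) f'`.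
-/

set_option autoImplicit false

open MvPolynomial Pool.Agent.VPO

namespace Pool.Agent.VPE

variable {k : Type} [Field k] [CharZero k]

private noncomputable def ex (m : ℕ) (j : Fin m → Fin (m + 1)) : Fin m →₀ ℕ :=
  Finsupp.equivFunOnFinite.symm fun i => (j i : ℕ)

private theorem ex_apply (m : ℕ) (j : Fin m → Fin (m + 1)) (i : Fin m) : ex m j i = (j i : ℕ) := rfl

private theorem ex_inj (m : ℕ) : Function.Injective (ex m) := by
  intro j j' h
  funext i
  apply Fin.ext
  rw [← ex_apply, ← ex_apply, h]

private theorem ex_sum (m : ℕ) (j : Fin m → Fin (m + 1)) : (ex m j).sum (fun _ x => x) ≤ m * m := by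
  rw [Finsupp.sum_fintype _ _ (fun _ => rfl)]
  calc ∑ i, ex m j i ≤ ∑ _i : Fin m, m := Finset.sum_le_sum fun i _ => by rw [ex_apply]; omega
    _ = m * m := by simp

omit [CharZero k] in
private theorem sum_ex (m : ℕ) (f : MvPolynomial (Fin m) k) (hf : f.totalDegree ≤ m) :
    ∑ j : Fin m → Fin (m + 1), monomial (ex m j) (coeff (ex m j) f) = f := by
  classical
  ext ν
  rw [coeff_sum]
  simp only [coeff_monomial]
  by_cases h : ∃ j, ex m j = ν
  · obtain ⟨j, rfl⟩ := h
    rw [Finset.sum_eq_single j]
    · rw [if_pos rfl]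
    · intro j' _ hj'
      rw [if_neg (fun h => hj' (ex_inj m h))]
    · intro h; exact absurd (Finset.mem_univ _) h
  · have h0 : coeff ν f = 0 := by
      by_contra h1
      apply h
      have h2 : ν ∈ f.support := mem_support_iff.2 h1
      have h3 : ν.sum (fun _ x => x) ≤ m := (le_totalDegree h2).trans hf
      rw [Finsupp.sum_fintype _ _ (fun _ => rfl)] at h3
      have h4 : ∀ i, ν i < m + 1 := fun i =>
        Nat.lt_succ_of_le ((Finset.single_le_sum (f := fun i => ν i) (fun _ _ => Nat.zero_le _)
          (Finset.mem_univ i)).trans h3)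
      refine ⟨fun i => ⟨ν i, h4 i⟩, ?_⟩
      ext i
      rw [ex_apply]
    rw [h0]
    exact Finset.sum_eq_zero fun j _ => if_neg (fun h' => h ⟨j, h'⟩)

private theorem card_par (m : ℕ) : Fintype.card (Par m m) = np m := by
  unfold Par np
  simp only [Fintype.card_prod, Fintype.card_option, Fintype.card_sum, Fintype.card_fin]
  ring

theorem step (G : PFamily k) (hG : ∀ i, i ≤ G.vars i) (m : ℕ)
    (hdeg : ∀ i, G.vars i < m → (G.poly i).totalDegree ≤ m) :
    ∃ g : MvPolynomial (Fin (V m)) k, g.totalDegree ≤ V m ∧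
      ∀ n ≤ m, ∀ f : MvPolynomial (Fin n) k, f.totalDegree ≤ m → Lapp G f ≤ m →
        ∃ a : Fin (V m) → MvPolynomial (Fin n) k, (∀ i, Avail [] (a i)) ∧ f = aeval a g := by
  classical
  have hJ : Fintype.card (Fin m → Fin (m + 1)) = (m + 1) ^ m := by simp
  let good : (Fin m → Option (Fin m)) → Prop := fun w => ∀ i, some i ∈ gates w → G.vars i < m
  let z : (Fin m → Option (Fin m)) → (Fin m → Fin (m + 1)) → MvPolynomial (Par m m) k := fun w j =>
    if good w then coeff (ex m j) (uout G (gen k m m) (gates w)) else 0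
  have hz : ∀ w j, (z w j).totalDegree ≤ (m + 3) ^ m := by
    intro w j
    show (if good w then coeff (ex m j) (uout G (gen k m m) (gates w)) else 0).totalDegree ≤ _
    split_ifs with hw
    · exact deg_univ G hdeg w hw _
    · rw [totalDegree_zero]; exact Nat.zero_le _
  choose Ψ hΨ1 hΨ2 using fun w => cover (z w) (hz w)
  let T := Tb ((m + 3) ^ m) (Fintype.card (Par m m) + 1)
  let A := (Fin m → Option (Fin m)) × Fin (T + 1)
  have hA : Fintype.card A ≤ 2 ^ nb m := by
    have h1 : Fintype.card A = (m + 1) ^ m * (Tb ((m + 3) ^ m) (np m + 1) + 1) := by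
      show Fintype.card ((Fin m → Option (Fin m)) × Fin (T + 1)) = _
      rw [Fintype.card_prod, Fintype.card_fin, Fintype.card_fun, Fintype.card_option, Fintype.card_fin]
      show (m + 1) ^ m * (Tb ((m + 3) ^ m) (Fintype.card (Par m m) + 1) + 1) = _
      rw [card_par]
    rw [h1]
    exact num_card m
  obtain ⟨g0, hg0, hg1⟩ := encode (k := k) (A := A) (m := m) (M := Fintype.card (Par m m) + 4) (b := nb m)
    (B := nb m) (d := m * m) hA (ex m) (ex_sum m) (fun a j => Ψ a.1 a.2 j) (by
      intro a j
      refine (hΨ1 a.1 a.2 j).trans_lt ?_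
      rw [card_par, hJ]
      exact num_deg m)
  have hcard : Fintype.card (Fin m ⊕ ((Fin (Fintype.card (Par m m) + 4) × Fin (nb m)) ⊕ Fin (nb m))) ≤
      Fintype.card (Fin (V m)) := by
    rw [Fintype.card_sum, Fintype.card_sum, Fintype.card_prod, Fintype.card_fin, Fintype.card_fin,
      Fintype.card_fin, Fintype.card_fin, card_par]
    exact num_vars m
  obtain ⟨ι⟩ := Function.Embedding.nonempty_of_card_le hcard
  refine ⟨rename ι g0, ?_, ?_⟩
  · refine (totalDegree_rename_le _ _).trans (hg0.trans ?_)
    rw [card_par]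
    exact num_tot m
  · intro n hn f hf hL
    let f' : MvPolynomial (Fin m) k := rename (Fin.castLE hn) f
    have hf' : f'.totalDegree ≤ m := (totalDegree_rename_le _ _).trans hf
    have hL' : Lapp G f' ≤ m := (Lapp_rename G (Fin.castLE hn) (Fin.castLE_injective hn) f).trans hL
    obtain ⟨F, hF1, hF2⟩ := exists_Lapp G f'
    obtain ⟨w, κ, hw, hFw⟩ := univ G hG hL' hF2
    have hrel : ∀ g : MvPolynomial (Fin m → Fin (m + 1)) k, aeval (z w) g = 0 →
        eval (fun j => coeff (ex m j) f') g = 0 := by
      intro g hg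
      refine lim hF1 (uout G (gen k m m) (gates w)) κ hFw (ex m) g ?_
      rw [← hg]
      congr 2
      funext j
      show _ = if good w then coeff (ex m j) (uout G (gen k m m) (gates w)) else 0
      rw [if_pos hw]
    obtain ⟨μ, c, hμ, hc⟩ := hΨ2 w _ hrel
    obtain ⟨x, hx⟩ := hg1 (w, ⟨μ, Nat.lt_succ_of_le hμ⟩) c
    have hx2 : aeval (Sum.elim (X : Fin m → MvPolynomial (Fin m) k) fun i => C (x i)) g0 = f' := by
      rw [hx, ← sum_ex m f' hf']
      refine Finset.sum_congr rfl fun j _ => ?_
      rw [hc j]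
    let σ : Fin m → MvPolynomial (Fin n) k := fun i => if h : (i : ℕ) < n then X ⟨i, h⟩ else C 0
    have hσ : aeval σ f' = f := by
      show aeval σ (rename (Fin.castLE hn) f) = f
      rw [aeval_rename]
      have h1 : σ ∘ Fin.castLE hn = X := by
        funext i
        show (if h : ((Fin.castLE hn i : Fin m) : ℕ) < n then X ⟨(Fin.castLE hn i : Fin m), h⟩ else C 0) = X i
        rw [dif_pos (by simp)]
        rfl
      rw [h1, aeval_X_left, AlgHom.id_apply]
    let y : (Fin m ⊕ ((Fin (Fintype.card (Par m m) + 4) × Fin (nb m)) ⊕ Fin (nb m))) → MvPolynomial (Fin n) k :=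
      Sum.elim σ fun i => C (x i)
    have hy : aeval y g0 = f := by
      rw [← hσ, ← hx2, ← AlgHom.comp_apply, comp_aeval]
      congr 2
      funext i
      rcases i with i | i
      · show σ i = aeval σ (X i)
        rw [aeval_X]
      · show C (x i) = aeval σ (C (x i))
        rw [aeval_C]
        rfl
    refine ⟨Function.extend ι y (fun _ => C 0), ?_, ?_⟩
    · intro v
      by_cases hv : ∃ i, ι i = v
      · obtain ⟨i, rfl⟩ := hv
        rw [ι.injective.extend_apply]
        rcases i with i | i
        · show Avail [] (if h : (i : ℕ) < n then X ⟨i, h⟩ else C 0)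
          split_ifs with h
          · exact Or.inr (Or.inl ⟨_, rfl⟩)
          · exact Or.inl ⟨0, rfl⟩
        · exact Or.inl ⟨x i, rfl⟩
      · rw [Function.extend_apply' _ _ _ hv]
        exact Or.inl ⟨0, rfl⟩
    · rw [aeval_rename]
      have h1 : Function.extend ι y (fun _ => C 0) ∘ ι = y := by
        funext i
        rw [Function.comp_apply, ι.injective.extend_apply]
      rw [h1, hy]

end Pool.Agent.VPE
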