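import Pool.Agent.VPO.Upper

/-!
# [VPE-UNIV] universal programs

`ulist G c w`: the results of the program with gates `w` (`none` = product, `some i` = oracle `G.poly i`), the inputs of the gate number `b` (counted from the
first one) being affine combinations, with coefficients `c b a`, of the variables and of the earlier results.

`ulist_congr`: induction on `w`. `sim`: induction on `Comp`. If `Avail l p` and `l ⊆ ulist G c w` then `p = aff (ulist G c w) c0` for suitable `c0` (`C a`, `X i`: one
coefficient; a member at position `q`: `c0 (some (inr q)) = 1`). Sum and difference: gate `none` with second input `1`, first input the sum of the two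
coefficient families (`aff` is additive in the coefficients). New coefficients are put in the block `w.length` (`Function.update`), the old list does
not change by `ulist_congr`. `sim_out`: pad with gates `none` in front up to length `m`; `some i ∈ w` implies `i ≤ G.vars i < m`.
`map_uout`: naturality, induction on `w`; for oracle gates: `MvPolynomial.map` as a `k`-algebra homomorphism commutes with `aeval` (see `Comp.map` in VPO/Upper).
`deg_uout`: coefficient degrees: with `a_l` a bound for `aff` over lists of length `l` and `c b a t` of degree `≤ 1`: `a_0 = 1`, `a_(l+1) ≤ 1 + (m + 2) * a_l`, so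
`a_l ≤ (m + 3) ^ l`. (A polynomial over `MvPolynomial S k` all of whose coefficients have degree `≤ d`: such polynomials form a subgroup, products add the
bounds, `aeval` in a polynomial of degree `≤ m` multiplies by `m`.)
-/

set_option autoImplicit false

open MvPolynomial Pool.Agent.VPO

namespace Pool.Agent.VPE

variable {k : Type} [Field k]

/-- affine combination, with coefficients `c`, of `1`, the variables and the members of `l` -/
noncomputable def aff {n : ℕ} {R : Type} [CommRing R] (l : List (MvPolynomial (Fin n) R))
    (c : Option (Fin n ⊕ ℕ) → R) : MvPolynomial (Fin n) R :=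
  C (c none) + ∑ i, C (c (some (Sum.inl i))) * X i +
    ∑ q ∈ Finset.range l.length, C (c (some (Sum.inr q))) * l.getD q 0

/-- the results of the program with gates `w` and coefficients `c` (last result first) -/
noncomputable def ulist (G : PFamily k) {n : ℕ} {R : Type} [CommRing R] [Algebra k R]
    (c : ℕ → ℕ → Option (Fin n ⊕ ℕ) → R) : List (Option ℕ) → List (MvPolynomial (Fin n) R)
  | [] => []
  | none :: w => (aff (ulist G c w) (c w.length 0) * aff (ulist G c w) (c w.length 1)) :: ulist G c w
  | some i :: w => aeval (fun a : Fin (G.vars i) => aff (ulist G c w) (c w.length a)) (G.poly i) :: ulist G c w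

/-- the output: an affine combination of the results -/
noncomputable def uout (G : PFamily k) {n : ℕ} {R : Type} [CommRing R] [Algebra k R]
    (c : ℕ → ℕ → Option (Fin n ⊕ ℕ) → R) (w : List (Option ℕ)) : MvPolynomial (Fin n) R :=
  aff (ulist G c w) (c w.length 0)

theorem ulist_length (G : PFamily k) {n : ℕ} {R : Type} [CommRing R] [Algebra k R]
    (c : ℕ → ℕ → Option (Fin n ⊕ ℕ) → R) (w : List (Option ℕ)) : (ulist G c w).length = w.length := by
  induction w with
  | nil => rfl
  | cons g w ih =>
    cases g with
    | none => simp only [ulist, List.length_cons, ih]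
    | some i => simp only [ulist, List.length_cons, ih]

theorem ulist_congr (G : PFamily k) {n : ℕ} {R : Type} [CommRing R] [Algebra k R]
    (c c' : ℕ → ℕ → Option (Fin n ⊕ ℕ) → R) (w : List (Option ℕ)) (h : ∀ b < w.length, c b = c' b) :
    ulist G c w = ulist G c' w := by
  induction w with
  | nil => rfl
  | cons g w ih =>
    have h1 : ulist G c w = ulist G c' w := ih fun b hb => h b (by
      rw [List.length_cons]
      omega)
    have h2 : c w.length = c' w.length := h _ (by
      rw [List.length_cons]
      omega)
    cases g with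
    | none => simp only [ulist, h1, h2]
    | some i => simp only [ulist, h1, h2]

private theorem aff_add {n : ℕ} {R : Type} [CommRing R] (l : List (MvPolynomial (Fin n) R))
    (c c' : Option (Fin n ⊕ ℕ) → R) : aff l (c + c') = aff l c + aff l c' := by
  unfold aff
  simp only [Pi.add_apply, map_add, add_mul, Finset.sum_add_distrib]
  ring

private theorem aff_sub {n : ℕ} {R : Type} [CommRing R] (l : List (MvPolynomial (Fin n) R))
    (c c' : Option (Fin n ⊕ ℕ) → R) : aff l (c - c') = aff l c - aff l c' := by
  unfold aff
  simp only [Pi.sub_apply, map_sub, sub_mul, Finset.sum_sub_distrib]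
  ring

private theorem aff_C {n : ℕ} {R : Type} [CommRing R] (l : List (MvPolynomial (Fin n) R)) (a : R) :
    aff l (fun t => if t = none then a else 0) = C a := by
  unfold aff
  simp

private theorem aff_X {n : ℕ} {R : Type} [CommRing R] (l : List (MvPolynomial (Fin n) R))
    (i : Fin n) : aff l (fun t => if t = some (Sum.inl i) then 1 else 0) = X i := by
  unfold aff
  simp

private theorem aff_mem {n : ℕ} {R : Type} [CommRing R] (l : List (MvPolynomial (Fin n) R))
    (q : ℕ) (hq : q < l.length) :
    aff l (fun t => if t = some (Sum.inr q) then 1 else 0) = l.getD q 0 := by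
  unfold aff
  have h : ∑ x ∈ Finset.range l.length, C (if (some (Sum.inr x) : Option (Fin n ⊕ ℕ)) =
      some (Sum.inr q) then (1 : R) else 0) * l.getD x 0 = l.getD q 0 := by
    rw [Finset.sum_eq_single q]
    · simp
    · intro b _ hb
      simp [hb]
    · intro hq'
      exact absurd (Finset.mem_range.2 hq) hq'
  rw [h]
  simp

private theorem avail_aff {F : Type} [Field F] {n : ℕ} {l L : List (MvPolynomial (Fin n) F)}
    {p : MvPolynomial (Fin n) F} (h : Avail l p) (hl : ∀ q ∈ l, q ∈ L) :
    ∃ c0 : Option (Fin n ⊕ ℕ) → F, aff L c0 = p := by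
  rcases h with ⟨a, rfl⟩ | ⟨i, rfl⟩ | h
  · exact ⟨_, aff_C L a⟩
  · exact ⟨_, aff_X L i⟩
  · obtain ⟨q, hq, hqp⟩ := List.getElem_of_mem (hl p h)
    refine ⟨_, (aff_mem L q hq).trans ?_⟩
    rw [List.getD_eq_getElem _ _ hq, hqp]

theorem sim (G : PFamily k) {F : Type} [Field F] [Algebra k F] {n r : ℕ} {l : List (MvPolynomial (Fin n) F)}
    (h : Comp G r l) : ∃ (w : List (Option ℕ)) (c : ℕ → ℕ → Option (Fin n ⊕ ℕ) → F), w.length ≤ r ∧
      (∀ i, some i ∈ w → G.vars i + 1 ≤ r) ∧ ∀ p ∈ l, p ∈ ulist G c w := by
  have key : ∀ {r : ℕ} {l : List (MvPolynomial (Fin n) F)} {w : List (Option ℕ)}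
      {c : ℕ → ℕ → Option (Fin n ⊕ ℕ) → F} (f : MvPolynomial (Fin n) F)
      (c1 c2 : Option (Fin n ⊕ ℕ) → F), w.length ≤ r → (∀ i, some i ∈ w → G.vars i + 1 ≤ r) →
      (∀ p ∈ l, p ∈ ulist G c w) → aff (ulist G c w) c1 * aff (ulist G c w) c2 = f →
      ∃ (w' : List (Option ℕ)) (c' : ℕ → ℕ → Option (Fin n ⊕ ℕ) → F), w'.length ≤ r + 1 ∧
      (∀ i, some i ∈ w' → G.vars i + 1 ≤ r + 1) ∧ ∀ p ∈ f :: l, p ∈ ulist G c' w' := by
    intro r l w c f c1 c2 hw hi hl hf
    refine ⟨none :: w, Function.update c w.length (fun a => if a = 0 then c1 else c2), ?_, ?_, ?_⟩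
    · rw [List.length_cons]
      omega
    · intro i hi'
      rcases List.mem_cons.1 hi' with h1 | h1
      · exact absurd h1 (by simp)
      · have := hi i h1
        omega
    · have h1 : ulist G (Function.update c w.length (fun a => if a = 0 then c1 else c2)) w =
          ulist G c w := ulist_congr G _ _ w fun b hb => Function.update_of_ne (by omega) _ _
      have h2 : ulist G (Function.update c w.length (fun a => if a = 0 then c1 else c2))
          (none :: w) = f :: ulist G c w := by
        simp only [ulist, h1, Function.update_self, if_true, if_neg one_ne_zero, hf]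
      rw [h2]
      intro p hp
      rcases List.mem_cons.1 hp with h3 | h3
      · rw [h3]
        exact List.mem_cons_self
      · exact List.mem_cons_of_mem _ (hl p h3)
  induction h with
  | nil => exact ⟨[], fun _ _ _ => 0, le_rfl, by simp, by simp⟩
  | add _ hp hq ih =>
    obtain ⟨w, c, hw, hi, hl⟩ := ih
    obtain ⟨c1, hc1⟩ := avail_aff hp hl
    obtain ⟨c2, hc2⟩ := avail_aff hq hl
    refine key _ (c1 + c2) (fun t => if t = none then 1 else 0) hw hi hl ?_
    rw [aff_add, aff_C, hc1, hc2, map_one, mul_one]
  | sub _ hp hq ih =>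
    obtain ⟨w, c, hw, hi, hl⟩ := ih
    obtain ⟨c1, hc1⟩ := avail_aff hp hl
    obtain ⟨c2, hc2⟩ := avail_aff hq hl
    refine key _ (c1 - c2) (fun t => if t = none then 1 else 0) hw hi hl ?_
    rw [aff_sub, aff_C, hc1, hc2, map_one, mul_one]
  | mul _ hp hq ih =>
    obtain ⟨w, c, hw, hi, hl⟩ := ih
    obtain ⟨c1, hc1⟩ := avail_aff hp hl
    obtain ⟨c2, hc2⟩ := avail_aff hq hl
    exact key _ c1 c2 hw hi hl (by rw [hc1, hc2])
  | oracle m a _ ha ih =>
    obtain ⟨w, c, hw, hi, hl⟩ := ih
    have hca : ∀ i, ∃ c0 : Option (Fin n ⊕ ℕ) → F, aff (ulist G c w) c0 = a i :=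
      fun i => avail_aff (ha i) hl
    choose ca hca using hca
    refine ⟨some m :: w, Function.update c w.length
      (fun b => if hb : b < G.vars m then ca ⟨b, hb⟩ else 0), ?_, ?_, ?_⟩
    · rw [List.length_cons]
      omega
    · intro i hi'
      rcases List.mem_cons.1 hi' with h1 | h1
      · have h2 : i = m := Option.some_injective _ h1
        subst h2
        omega
      · have := hi i h1
        omega
    · have h1 : ulist G (Function.update c w.length
          (fun b => if hb : b < G.vars m then ca ⟨b, hb⟩ else 0)) w =
          ulist G c w := ulist_congr G _ _ w fun b hb => Function.update_of_ne (by omega) _ _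
      have h3 : (fun b : Fin (G.vars m) => aff (ulist G c w)
          (if hb : (b : ℕ) < G.vars m then ca ⟨b, hb⟩ else 0)) = a := by
        funext b
        rw [dif_pos b.2]
        exact hca b
      have h2 : ulist G (Function.update c w.length
          (fun b => if hb : b < G.vars m then ca ⟨b, hb⟩ else 0)) (some m :: w) =
          aeval a (G.poly m) :: ulist G c w := by
        simp only [ulist, h1, Function.update_self, h3]
      rw [h2]
      intro p hp
      rcases List.mem_cons.1 hp with h4 | h4
      · rw [h4]
        exact List.mem_cons_self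
      · exact List.mem_cons_of_mem _ (hl p h4)

/-- the list of gates given by a function -/
def gates {m : ℕ} (w : Fin m → Option (Fin m)) : List (Option ℕ) := (List.ofFn w).map (Option.map Fin.val)

theorem gates_length {m : ℕ} (w : Fin m → Option (Fin m)) : (gates w).length = m := by
  unfold gates; simp

private theorem exists_gates {m : ℕ} (w1 : List (Option ℕ)) (hl : w1.length = m)
    (hw : ∀ i, some i ∈ w1 → i < m) : ∃ w : Fin m → Option (Fin m), gates w = w1 := by
  subst hl
  refine ⟨fun j => (w1.get j).bind (fun i => if h : i < w1.length then some ⟨i, h⟩ else none), ?_⟩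
  unfold gates
  rw [List.map_ofFn]
  conv_rhs => rw [← List.ofFn_get w1]
  congr 1
  funext j
  show Option.map Fin.val ((w1.get j).bind
    (fun i => if h : i < w1.length then some ⟨i, h⟩ else none)) = w1.get j
  rcases hj : w1.get j with _ | i
  · rfl
  · have h1 : i < w1.length := hw i (by
      rw [← hj]
      exact List.get_mem _ _)
    simp [h1]

private theorem ulist_pad (G : PFamily k) {n : ℕ} {R : Type} [CommRing R] [Algebra k R]
    (c : ℕ → ℕ → Option (Fin n ⊕ ℕ) → R) (w : List (Option ℕ)) (d : ℕ) :
    ∀ p ∈ ulist G c w, p ∈ ulist G c (List.replicate d none ++ w) := by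
  induction d with
  | zero => exact fun p hp => hp
  | succ d ih =>
    intro p hp
    rw [List.replicate_succ, List.cons_append]
    simp only [ulist]
    exact List.mem_cons_of_mem _ (ih p hp)

theorem sim_out (G : PFamily k) (hG : ∀ i, i ≤ G.vars i) {F : Type} [Field F] [Algebra k F] {n r m : ℕ} (hr : r ≤ m)
    {f : MvPolynomial (Fin n) F} (h : ComputedBy G f r) :
    ∃ (w : Fin m → Option (Fin m)) (c : ℕ → ℕ → Option (Fin n ⊕ ℕ) → F), (∀ i, some i ∈ gates w → G.vars i < m) ∧
      f = uout G c (gates w) := by
  obtain ⟨l, hl, hf⟩ := h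
  obtain ⟨w0, c0, hw0, hi0, hl0⟩ := sim G hl
  have hlen : (List.replicate (m - w0.length) none ++ w0 : List (Option ℕ)).length = m := by
    rw [List.length_append, List.length_replicate]
    omega
  have hmem : ∀ i, some i ∈ (List.replicate (m - w0.length) none ++ w0 : List (Option ℕ)) →
      G.vars i < m := by
    intro i hi
    rcases List.mem_append.1 hi with h1 | h1
    · exact absurd (List.eq_of_mem_replicate h1) (by simp)
    · have := hi0 i h1
      omega
  obtain ⟨w, hw⟩ := exists_gates _ hlen fun i hi => lt_of_le_of_lt (hG i) (hmem i hi)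
  obtain ⟨cf, hcf⟩ := avail_aff hf (L := ulist G c0 (List.replicate (m - w0.length) none ++ w0))
    fun q hq => ulist_pad G c0 w0 _ q (hl0 q hq)
  refine ⟨w, Function.update c0 m (fun _ => cf), by rwa [hw], ?_⟩
  have h1 : ulist G (Function.update c0 m (fun _ => cf))
      (List.replicate (m - w0.length) none ++ w0) =
      ulist G c0 (List.replicate (m - w0.length) none ++ w0) :=
    ulist_congr G _ _ _ fun b hb => Function.update_of_ne (by rw [hlen] at hb; omega) _ _
  unfold uout
  rw [hw, h1, hlen, Function.update_self, hcf]

end Pool.Agent.VPE
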